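import Pool.Agent.Helper97.DM.Poly

/-!
# A De Morgan formula of size `L` is approximated by a polynomial of degree `O(√L)`
-/

set_option autoImplicit false
set_option linter.unusedSectionVars false

namespace Pool.Agent.Helper97.DM

open Finset

section Walk

variable {ι : Type} [Fintype ι] [DecidableEq ι]

/-- a step of the walk -/
def stepU (R : (ι → ℝ) →ₗ[ℝ] (ι → ℝ)) (s : ι → ℝ) : (ι → ℝ) →ₗ[ℝ] (ι → ℝ) where
  toFun x i := s i * R x i
  map_add' x y := by
    funext i
    simp only [map_add, Pi.add_apply]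
    ring
  map_smul' c x := by
    funext i
    simp only [map_smul, Pi.smul_apply, smul_eq_mul, RingHom.id_apply]
    ring

theorem stepU_inner (R : (ι → ℝ) →ₗ[ℝ] (ι → ℝ)) (hR : ∀ x y, ∑ i, R x i * R y i = ∑ i, x i * y i)
    (s : ι → ℝ) (hs : ∀ i, s i * s i = 1) (x y : ι → ℝ) :
    ∑ i, stepU R s x i * stepU R s y i = ∑ i, x i * y i := by
  rw [← hR x y]
  refine sum_congr rfl fun i _ => ?_
  show s i * R x i * (s i * R y i) = _
  calc s i * R x i * (s i * R y i) = s i * s i * (R x i * R y i) := by ring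
    _ = R x i * R y i := by rw [hs, one_mul]

theorem pow_inner (U : (ι → ℝ) →ₗ[ℝ] (ι → ℝ)) (hU : ∀ x y, ∑ i, U x i * U y i = ∑ i, x i * y i)
    (j : ℕ) (x y : ι → ℝ) : ∑ i, (U ^ j) x i * (U ^ j) y i = ∑ i, x i * y i := by
  induction j with
  | zero => rfl
  | succ j ih =>
    rw [pow_succ']
    rw [← ih]
    exact hU _ _

/-- the average of the walk -/
noncomputable def avg (U : (ι → ℝ) →ₗ[ℝ] (ι → ℝ)) (T : ℕ) (x : ι → ℝ) : ι → ℝ :=
  fun i => (1 / (T : ℝ)) * ∑ j ∈ range T, (U ^ j) x i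

theorem avg_le (U : (ι → ℝ) →ₗ[ℝ] (ι → ℝ)) (hU : ∀ x y, ∑ i, U x i * U y i = ∑ i, x i * y i)
    (T : ℕ) (hT : 1 ≤ T) (x : ι → ℝ) : ∑ i, avg U T x i ^ 2 ≤ ∑ i, x i ^ 2 := by
  have hTpos : (0 : ℝ) < T := by exact_mod_cast hT
  have h1 : ∀ i, avg U T x i ^ 2 ≤ (1 / (T : ℝ)) * ∑ j ∈ range T, (U ^ j) x i ^ 2 := by
    intro i
    have h2 := sq_sum_le_card_mul_sum_sq (s := range T) (f := fun j => (U ^ j) x i)
    rw [card_range] at h2
    unfold avg
    rw [mul_pow]
    calc (1 / (T : ℝ)) ^ 2 * (∑ j ∈ range T, (U ^ j) x i) ^ 2 ≤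
          (1 / (T : ℝ)) ^ 2 * (T * ∑ j ∈ range T, (U ^ j) x i ^ 2) :=
          mul_le_mul_of_nonneg_left h2 (by positivity)
      _ = (1 / (T : ℝ)) * ∑ j ∈ range T, (U ^ j) x i ^ 2 := by
          field_simp
  calc ∑ i, avg U T x i ^ 2 ≤ ∑ i, (1 / (T : ℝ)) * ∑ j ∈ range T, (U ^ j) x i ^ 2 :=
        sum_le_sum fun i _ => h1 i
    _ = (1 / (T : ℝ)) * ∑ j ∈ range T, ∑ i, (U ^ j) x i ^ 2 := by
        rw [← mul_sum, sum_comm]
    _ = (1 / (T : ℝ)) * ∑ j ∈ range T, ∑ i, x i ^ 2 := by
        congr 1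
        refine sum_congr rfl fun j _ => ?_
        have := pow_inner U hU j x x
        simp only [← sq] at this
        exact this
    _ = ∑ i, x i ^ 2 := by
        rw [sum_const, card_range, nsmul_eq_mul]
        field_simp

/-- The negative case: telescoping. -/
theorem avg_neg (U : (ι → ℝ) →ₗ[ℝ] (ι → ℝ)) (hU : ∀ x y, ∑ i, U x i * U y i = ∑ i, x i * y i)
    (T : ℕ) (x w : ι → ℝ) (hw : ∀ i, x i = (w i - U w i) / 2) :
    ∑ i, avg U T x i ^ 2 ≤ (∑ i, w i ^ 2) / T ^ 2 := by
  have hx : x = (1 / 2 : ℝ) • (w - U w) := by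
    funext i
    rw [hw]
    simp only [Pi.smul_apply, Pi.sub_apply, smul_eq_mul]
    ring
  have h1 : ∀ i, ∑ j ∈ range T, (U ^ j) x i = (w i - (U ^ T) w i) / 2 := by
    intro i
    have h2 : ∀ j, (U ^ j) x i = (1 / 2) * ((U ^ j) w i - (U ^ (j + 1)) w i) := by
      intro j
      rw [hx, map_smul, map_sub]
      have : (U ^ j) (U w) = (U ^ (j + 1)) w := by
        rw [pow_succ]
        rfl
      rw [this]
      rfl
    rw [sum_congr rfl fun j _ => h2 j, ← mul_sum, sum_range_sub']
    show 1 / 2 * (w i - (U ^ T) w i) = _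
    ring
  have h3 : ∀ i, avg U T x i ^ 2 ≤ (w i ^ 2 + (U ^ T) w i ^ 2) / 2 / T ^ 2 := by
    intro i
    unfold avg
    rw [h1]
    have h4 : (1 / (T : ℝ) * ((w i - (U ^ T) w i) / 2)) ^ 2 = (w i - (U ^ T) w i) ^ 2 / 4 / T ^ 2 := by
      rcases eq_or_ne (T : ℝ) 0 with h0 | h0
      · rw [h0]
        simp
      · field_simp
        ring
    rw [h4]
    apply div_le_div_of_nonneg_right _ (by positivity)
    nlinarith [sq_nonneg (w i + (U ^ T) w i)]
  calc ∑ i, avg U T x i ^ 2 ≤ ∑ i, (w i ^ 2 + (U ^ T) w i ^ 2) / 2 / T ^ 2 :=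
        sum_le_sum fun i _ => h3 i
    _ = (∑ i, w i ^ 2 + ∑ i, (U ^ T) w i ^ 2) / 2 / T ^ 2 := by
        rw [← sum_div, ← sum_div, sum_add_distrib]
    _ = (∑ i, w i ^ 2) / T ^ 2 := by
        have := pow_inner U hU T w w
        simp only [← sq] at this
        rw [this]
        ring

/-- The positive case: a fixed vector. -/
theorem avg_pos (U : (ι → ℝ) →ₗ[ℝ] (ι → ℝ)) (hU : ∀ x y, ∑ i, U x i * U y i = ∑ i, x i * y i)
    (T : ℕ) (hT : 1 ≤ T) (x w : ι → ℝ) (hw : U w = w) (hx : ∑ i, w i * x i = 1) :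
    1 ≤ (∑ i, w i ^ 2) * ∑ i, avg U T x i ^ 2 := by
  have hTpos : (0 : ℝ) < T := by exact_mod_cast hT
  have h0 : ∀ j : ℕ, (U ^ j) w = w := by
    intro j
    induction j with
    | zero => rfl
    | succ j ih =>
      rw [pow_succ]
      show (U ^ j) (U w) = w
      rw [hw, ih]
  have h1 : ∑ i, w i * avg U T x i = 1 := by
    have h2 : ∀ j, ∑ i, w i * (U ^ j) x i = 1 := by
      intro j
      have h3 := pow_inner U hU j w x
      rw [h0] at h3
      rw [h3, hx]
    unfold avg
    calc ∑ i, w i * (1 / (T : ℝ) * ∑ j ∈ range T, (U ^ j) x i) =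
          (1 / (T : ℝ)) * ∑ j ∈ range T, ∑ i, w i * (U ^ j) x i := by
          have e1 : ∀ i, w i * (1 / (T : ℝ) * ∑ j ∈ range T, (U ^ j) x i) =
              ∑ j ∈ range T, 1 / (T : ℝ) * (w i * (U ^ j) x i) := by
            intro i
            rw [mul_sum, mul_sum]
            refine sum_congr rfl fun j _ => ?_
            ring
          rw [sum_congr rfl fun i _ => e1 i, sum_comm, mul_sum]
          refine sum_congr rfl fun j _ => ?_
          rw [mul_sum]
      _ = 1 := by
          rw [sum_congr rfl fun j _ => h2 j, sum_const, card_range, nsmul_eq_mul, mul_one]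
          field_simp
  have h4 := sum_mul_sq_le_sq_mul_sq univ w (avg U T x)
  rw [h1, one_pow] at h4
  exact h4

end Walk

section Approx

variable {I : Type} [Fintype I] [DecidableEq I]

/-- The polynomial with constant error. -/
theorem approx_weak (φ : DFormula I) (L T : ℕ) (hL : φ.size ≤ L) (hT : 8 * (1 + 8 * L) ≤ T ^ 2) :
    ∃ p ∈ Deg I (2 * T), ∀ β, 0 ≤ p β ∧ p β ≤ 1 ∧ (φ.eval β = true → 7 / 8 ≤ p β) ∧
      (φ.eval β = false → p β ≤ 1 / 8) := by
  classical
  obtain ⟨E, _, lab, hcard, hnet⟩ := net φ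
  obtain ⟨K, hpos, hneg⟩ := hnet (1 / 8) (by norm_num)
  obtain ⟨R, hR1, hR2, hR3⟩ := exists_reflection K
  have hT1 : 1 ≤ T := by
    by_contra hcon
    have : T = 0 := by omega
    subst this
    omega
  have hTpos : (0 : ℝ) < T := by exact_mod_cast hT1
  let s : (I → Bool) → Option E → ℝ := fun β i => i.elim 1 fun e =>
    if β (lab e).1 = (lab e).2 then 1 else -1
  have hss : ∀ β i, s β i * s β i = 1 := by
    rintro β (_ | e)
    · exact one_mul 1
    · show (if β (lab e).1 = (lab e).2 then (1 : ℝ) else -1) * (if β (lab e).1 = (lab e).2 then 1 else -1) = 1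
      split_ifs <;> norm_num
  have hsdeg : ∀ i, (fun β => s β i) ∈ Deg I 1 := by
    rintro (_ | e)
    · exact Deg.const 1 1
    · have h1 : (fun β => s β (some e)) = fun β : I → Bool =>
          (if (lab e).2 = true then (-1 : ℝ) else 1) * sgn (β (lab e).1) := by
        funext β
        show (if β (lab e).1 = (lab e).2 then (1 : ℝ) else -1) = _
        cases β (lab e).1 <;> cases (lab e).2 <;> simp [sgn]
      rw [h1]
      exact Submodule.smul_mem _ _ (Deg.coord _)
  let U : (I → Bool) → (Option E → ℝ) →ₗ[ℝ] (Option E → ℝ) := fun β => stepU R (s β)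
  have hU : ∀ β x y, ∑ i, U β x i * U β y i = ∑ i, x i * y i := fun β =>
    stepU_inner R hR3 (s β) (hss β)
  let e0 : Option E → ℝ := fun i => i.elim 1 fun _ => 0
  have he0 : ∑ i, e0 i ^ 2 = 1 := by
    rw [Fintype.sum_option]
    simp [e0]
  -- the degrees
  have hdeg : ∀ j i, (fun β => (U β ^ j) e0 i) ∈ Deg I j := by
    intro j
    induction j with
    | zero => exact fun i => Deg.const (e0 i) 0
    | succ j ih =>
      intro i
      have h1 : (fun β => (U β ^ (j + 1)) e0 i) = fun β => s β i * ∑ i', (U β ^ j) e0 i' *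
          R (fun k => if i' = k then 1 else 0) i := by
        funext β
        rw [pow_succ']
        show s β i * R ((U β ^ j) e0) i = _
        congr 1
        rw [LinearMap.pi_apply_eq_sum_univ R, Finset.sum_apply]
        refine sum_congr rfl fun i' _ => ?_
        rw [Pi.smul_apply, smul_eq_mul]
      rw [h1, add_comm j 1]
      refine Deg.mul (hsdeg i) ?_
      have h2 : (fun β => ∑ i', (U β ^ j) e0 i' * R (fun k => if i' = k then 1 else 0) i) =
          ∑ i', (R (fun k => if i' = k then 1 else 0) i) • (fun β => (U β ^ j) e0 i') := by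
        funext β
        rw [Finset.sum_apply]
        refine sum_congr rfl fun i' _ => ?_
        rw [Pi.smul_apply, smul_eq_mul, mul_comm]
      rw [h2]
      exact Submodule.sum_mem _ fun i' _ => Submodule.smul_mem _ _ (ih i')
  have hdegavg : ∀ i, (fun β => avg (U β) T e0 i) ∈ Deg I T := by
    intro i
    have h1 : (fun β => avg (U β) T e0 i) = (1 / (T : ℝ)) • ∑ j ∈ range T, fun β => (U β ^ j) e0 i := by
      funext β
      rw [Pi.smul_apply, Finset.sum_apply, smul_eq_mul]
      rfl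
    rw [h1]
    refine Submodule.smul_mem _ _ (Submodule.sum_mem _ fun j hj => ?_)
    exact Deg.mono (mem_range.1 hj).le (hdeg j i)
  refine ⟨fun β => ∑ i, avg (U β) T e0 i ^ 2, ?_, fun β => ⟨?_, ?_, ?_, ?_⟩⟩
  · have h1 : (fun β => ∑ i, avg (U β) T e0 i ^ 2) = ∑ i, fun β => avg (U β) T e0 i * avg (U β) T e0 i := by
      funext β
      rw [Finset.sum_apply]
      exact sum_congr rfl fun i _ => sq _
    rw [h1, two_mul]
    exact Submodule.sum_mem _ fun i _ => Deg.mul (hdegavg i) (hdegavg i)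
  · exact sum_nonneg fun i _ => sq_nonneg _
  · exact (avg_le (U β) (hU β) T hT1 e0).trans he0.le
  · intro hβ
    obtain ⟨w, hw1, hw2, hw3, hw4⟩ := hpos β hβ
    have hUw : U β w = w := by
      funext i
      show s β i * R w i = w i
      rw [hR1 w hw1]
      rcases i with _ | e
      · exact one_mul _
      · show (if β (lab e).1 = (lab e).2 then (1 : ℝ) else -1) * w (some e) = w (some e)
        split_ifs with h
        · exact one_mul _
        · rw [hw3 e h, mul_zero]
    have hwe : ∑ i, w i * e0 i = 1 := by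
      rw [Fintype.sum_option]
      simp [e0, hw2]
    have h1 := avg_pos (U β) (hU β) T hT1 e0 w hUw hwe
    have h2 : ∑ i, w i ^ 2 ≤ 9 / 8 := by
      rw [Fintype.sum_option, hw2]
      linarith
    have h3 : 0 ≤ ∑ i, avg (U β) T e0 i ^ 2 := sum_nonneg fun i _ => sq_nonneg _
    beta_reduce
    nlinarith
  · intro hβ
    obtain ⟨w, hw1, hw2, hw3, hw4⟩ := hneg β hβ
    have hUw : ∀ i, e0 i = (w i - U β w i) / 2 := by
      intro i
      show e0 i = (w i - s β i * R w i) / 2
      rw [hR2 w hw1]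
      rcases i with _ | e
      · show (1 : ℝ) = (w none - 1 * -(w none)) / 2
        rw [hw2]
        norm_num
      · show (0 : ℝ) = (w (some e) - (if β (lab e).1 = (lab e).2 then (1 : ℝ) else -1) * -(w (some e))) / 2
        split_ifs with h
        · rw [hw3 e h]
          norm_num
        · ring
    have h1 := avg_neg (U β) (hU β) T e0 w hUw
    have h2 : ∑ i, w i ^ 2 ≤ 1 + 8 * L := by
      rw [Fintype.sum_option, hw2]
      have h3 : (φ.size : ℝ) ≤ L := by exact_mod_cast hL
      have h4 : (φ.size : ℝ) / (1 / 8) = 8 * φ.size := by ring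
      rw [h4] at hw4
      linarith
    have h3 : (8 * (1 + 8 * L) : ℝ) ≤ T ^ 2 := by exact_mod_cast hT
    refine h1.trans ?_
    rw [div_le_iff₀ (by positivity)]
    linarith

/-- the amplifier -/
def amp (y : ℝ) : ℝ := 3 * y ^ 2 - 2 * y ^ 3

theorem amp_symm (y : ℝ) : amp (1 - y) = 1 - amp y := by
  unfold amp
  ring

theorem amp_nonneg {y : ℝ} (h1 : y ≤ 1) : 0 ≤ amp y := by
  unfold amp
  have : 3 * y ^ 2 - 2 * y ^ 3 = y ^ 2 * (3 - 2 * y) := by ring
  rw [this]
  exact mul_nonneg (sq_nonneg y) (by linarith)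

theorem amp_le {y : ℝ} (h0 : 0 ≤ y) : amp y ≤ 3 * y ^ 2 := by
  unfold amp
  have : 0 ≤ y ^ 3 := by positivity
  linarith

/-- The polynomial with small error. -/
theorem approx (φ : DFormula I) (L T k : ℕ) (hL : φ.size ≤ L) (hT : 8 * (1 + 8 * L) ≤ T ^ 2) :
    ∃ p ∈ Deg I (3 ^ k * (2 * T)), ∀ β, 0 ≤ p β ∧ p β ≤ 1 ∧
      (φ.eval β = true → 1 - (1 / 2) ^ (2 ^ k) ≤ p β) ∧
      (φ.eval β = false → p β ≤ (1 / 2) ^ (2 ^ k)) := by
  -- with a slightly stronger error bound
  have key : ∀ k : ℕ, ∃ p ∈ Deg I (3 ^ k * (2 * T)), ∀ β, 0 ≤ p β ∧ p β ≤ 1 ∧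
      (φ.eval β = true → 3 * (1 - p β) ≤ (1 / 2) ^ (2 ^ k)) ∧
      (φ.eval β = false → 3 * p β ≤ (1 / 2) ^ (2 ^ k)) := by
    intro k
    induction k with
    | zero =>
      obtain ⟨p, hp, h⟩ := approx_weak φ L T hL hT
      refine ⟨p, by rwa [pow_zero, one_mul], fun β => ?_⟩
      obtain ⟨h0, h1, h2, h3⟩ := h β
      refine ⟨h0, h1, fun hβ => ?_, fun hβ => ?_⟩
      · have := h2 hβ
        norm_num
        linarith
      · have := h3 hβ
        norm_num
        linarith
    | succ k ih =>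
      obtain ⟨p, hp, h⟩ := ih
      refine ⟨fun β => amp (p β), ?_, fun β => ?_⟩
      · have h2 := Deg.mul hp hp
        have h3 := Deg.mul h2 hp
        have e : (fun β => amp (p β)) = (3 : ℝ) • (fun β => p β * p β) - (2 : ℝ) • fun β => p β * p β * p β := by
          funext β
          simp only [Pi.sub_apply, Pi.smul_apply, smul_eq_mul, amp]
          ring
        rw [e]
        refine Submodule.sub_mem _ (Submodule.smul_mem _ _ (Deg.mono ?_ h2))
          (Submodule.smul_mem _ _ (Deg.mono ?_ h3))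
        · rw [pow_succ]
          have : 3 ^ k * 3 * (2 * T) = 3 ^ k * (2 * T) + 3 ^ k * (2 * T) + 3 ^ k * (2 * T) := by ring
          omega
        · rw [pow_succ]
          have : 3 ^ k * 3 * (2 * T) = 3 ^ k * (2 * T) + 3 ^ k * (2 * T) + 3 ^ k * (2 * T) := by ring
          omega
      · obtain ⟨h0, h1, h2, h3⟩ := h β
        have hpw : ((1 : ℝ) / 2) ^ (2 ^ (k + 1)) = ((1 / 2) ^ (2 ^ k)) ^ 2 := by
          rw [← pow_mul, pow_succ]
        refine ⟨amp_nonneg h1, ?_, fun hβ => ?_, fun hβ => ?_⟩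
        · have := amp_nonneg (y := 1 - p β) (by linarith)
          rw [amp_symm] at this
          beta_reduce
          linarith
        · have h4 := h2 hβ
          have h5 := amp_le (y := 1 - p β) (by linarith)
          rw [amp_symm] at h5
          rw [hpw]
          have h6 : (3 * (1 - p β)) ^ 2 ≤ ((1 / 2) ^ (2 ^ k)) ^ 2 :=
            pow_le_pow_left₀ (by linarith) h4 2
          beta_reduce
          nlinarith
        · have h4 := h3 hβ
          have h5 := amp_le h0
          rw [hpw]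
          have h6 : (3 * p β) ^ 2 ≤ ((1 / 2) ^ (2 ^ k)) ^ 2 := pow_le_pow_left₀ (by linarith) h4 2
          beta_reduce
          nlinarith
  obtain ⟨p, hp, h⟩ := key k
  refine ⟨p, hp, fun β => ?_⟩
  obtain ⟨h0, h1, h2, h3⟩ := h β
  refine ⟨h0, h1, fun hβ => ?_, fun hβ => ?_⟩
  · have := h2 hβ
    linarith
  · have := h3 hβ
    linarith

end Approx

end Pool.Agent.Helper97.DM
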