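import Pool.Agent.Helper97.DM.Hard
import Pool.Agent.Helper71.Cliq.Chern

/-!
# The counting argument on average
-/

set_option autoImplicit false
set_option linter.unusedSectionVars false

namespace Pool.Agent.Helper97.DM

open Finset Pool.Agent.Helper71.Cliq

variable {V C : Type} [Fintype C] [DecidableEq C] {k q : ℕ}

/-- the number of ones at the stars which are needed -/
def need (q : ℕ) (b : Bool) (r : ℕ) : ℕ := (q + (if b = true then 1 else 0) - r % q) % q

/-- the number of ones off the stars -/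
def rest (x : ((Fin k × Fin q) → C) × ((Fin k × Fin q) × C → Bool)) (i : Fin k) : ℕ :=
  ∑ r : Fin q, ∑ c ∈ univ.erase (x.1 (i, r)), if x.2 ((i, r), c) = true then 1 else 0

/-- the input for the restriction `x` and the address `ζ` -/
def inp (x : ((Fin k × Fin q) → C) × ((Fin k × Fin q) × C → Bool)) (ζ : Fin k → Bool) :
    (Fin k × Fin q) × C → Bool := fun v =>
  if v.2 = x.1 v.1 then decide (v.1.2.val < need q (ζ v.1.1) (rest x v.1.1)) else x.2 v

theorem ones_inp (hq : 2 ≤ q) (x : ((Fin k × Fin q) → C) × ((Fin k × Fin q) × C → Bool))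
    (ζ : Fin k → Bool) (i : Fin k) : ones (inp x ζ) i % q = if ζ i = true then 1 else 0 := by
  have hq0 : 0 < q := by omega
  have h2 : ones (inp x ζ) i = need q (ζ i) (rest x i) + rest x i := by
    unfold ones
    have h3 : ∀ r : Fin q, (∑ c : C, if inp x ζ ((i, r), c) = true then 1 else 0) =
        (if r.val < need q (ζ i) (rest x i) then 1 else 0) +
          ∑ c ∈ univ.erase (x.1 (i, r)), if x.2 ((i, r), c) = true then 1 else 0 := by
      intro r
      rw [← add_sum_erase univ _ (mem_univ (x.1 (i, r)))]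
      congr 1
      · show (if (if x.1 (i, r) = x.1 (i, r) then decide (r.val < need q (ζ i) (rest x i)) else _) = true
          then 1 else 0) = _
        rw [if_pos rfl]
        simp
      · refine sum_congr rfl fun c hc => ?_
        show (if (if c = x.1 (i, r) then _ else x.2 ((i, r), c)) = true then 1 else 0) = _
        rw [if_neg (ne_of_mem_erase hc)]
    rw [sum_congr rfl fun r _ => h3 r, sum_add_distrib]
    congr 1
    rw [← card_filter]
    have h4 : need q (ζ i) (rest x i) < q := Nat.mod_lt _ hq0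
    have h6 := Fin.card_filter_val_lt (n := q) (m := need q (ζ i) (rest x i))
    rw [h6]
    omega
  rw [h2]
  apply mod_aux q _ _ _ hq0 _ rfl
  split_ifs
  · omega
  · omega

/-- the flipped groups -/
def Uset (b : Fin k × Fin q → Bool) (r : Fin k → ℕ) (ζ : Fin k → Bool) : Finset (Fin k × Fin q) :=
  univ.filter fun γ => decide (γ.2.val < need q (ζ γ.1) (r γ.1)) ≠ b γ

theorem inp_eq_flip (x : ((Fin k × Fin q) → C) × ((Fin k × Fin q) × C → Bool)) (ζ : Fin k → Bool) :
    inp x ζ = flip x.1 (Uset (fun γ => x.2 (γ, x.1 γ)) (fun i => rest x i % q) ζ) x.2 := by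
  funext v
  obtain ⟨γ, c⟩ := v
  show (if c = x.1 γ then decide (γ.2.val < need q (ζ γ.1) (rest x γ.1)) else x.2 (γ, c)) =
    if γ ∈ Uset (fun γ => x.2 (γ, x.1 γ)) (fun i => rest x i % q) ζ ∧ c = x.1 γ then !(x.2 (γ, c))
      else x.2 (γ, c)
  have hneed : need q (ζ γ.1) (rest x γ.1 % q) = need q (ζ γ.1) (rest x γ.1) := by
    unfold need
    rw [Nat.mod_mod]
  by_cases hc : c = x.1 γ
  · subst hc
    rw [if_pos rfl]
    by_cases hU : γ ∈ Uset (fun γ => x.2 (γ, x.1 γ)) (fun i => rest x i % q) ζ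
    · rw [if_pos ⟨hU, rfl⟩]
      have h2 := (mem_filter.1 hU).2
      rw [hneed] at h2
      have h3 : ∀ a b : Bool, a ≠ b → a = !b := by decide
      exact h3 _ _ h2
    · rw [if_neg (fun h => hU h.1)]
      by_contra h3
      exact hU (mem_filter.2 ⟨mem_univ _, by rwa [hneed]⟩)
  · rw [if_neg hc, if_neg (fun h => hc h.2)]

/-- the functions of degree less than `d` -/
def Low (Γ : Type) [Fintype Γ] [DecidableEq Γ] (d : ℕ) : Type :=
  {F : Finset Γ → Bool // ∀ T : Finset Γ, d ≤ T.card →
    ∑ U ∈ T.powerset, (-1 : ℤ) ^ U.card * (if F U = true then 1 else 0) = 0}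

noncomputable instance (Γ : Type) [Fintype Γ] [DecidableEq Γ] (d : ℕ) : Fintype (Low Γ d) := by
  classical
  unfold Low
  infer_instance

theorem card_low (Γ : Type) [Fintype Γ] [DecidableEq Γ] (d : ℕ) :
    Fintype.card (Low Γ d) ≤ 2 ^ (Fintype.card Γ + 1) ^ d := by
  classical
  let f : Low Γ d → {U : Finset Γ // U.card < d} → Bool := fun F U => F.1 U.1
  have hf : Function.Injective f := by
    intro F F' h
    apply Subtype.ext
    funext U
    exact det_low F.1 F'.1 d F.2 F'.2 (fun U hU => congrFun h ⟨U, hU⟩) U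
  refine (Fintype.card_le_of_injective f hf).trans ?_
  rw [Fintype.card_fun, Fintype.card_bool]
  exact Nat.pow_le_pow_right (by norm_num) (card_small d)

theorem exists_set (φ : DFormula V) (d M : ℕ) (g : Fin M → DFormula V)
    (Ψ : (Fin M → Bool) → Bool) (hφ : ∀ X, φ.eval X = Ψ fun i => (g i).eval X) :
    ∃ S : Finset ((Fin k → Bool) → Bool), S.card ≤ 2 ^ (M * (k * q + 1) ^ d + 2 * (k * q)) ∧
      ∀ (σ : V → ((Fin k × Fin q) × C) ⊕ Bool)
        (x : ((Fin k × Fin q) → C) × ((Fin k × Fin q) × C → Bool)),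
        0 < q → (∀ i, ¬ bad d ((g i).subst σ) x) →
          (fun ζ => φ.eval fun v => (σ v).elim (inp x ζ) id) ∈ S := by
  classical
  let F : (Fin M → Low (Fin k × Fin q) d) × (Fin k × Fin q → Bool) × (Fin k → Fin q) →
      (Fin k → Bool) → Bool := fun y ζ => Ψ fun i => (y.1 i).1 (Uset y.2.1 (fun i => (y.2.2 i).val) ζ)
  refine ⟨univ.image F, ?_, fun σ x hq0 hx => ?_⟩
  · refine card_image_le.trans ?_
    rw [card_univ, Fintype.card_prod, Fintype.card_prod, Fintype.card_fun, Fintype.card_fun,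
      Fintype.card_fun, Fintype.card_bool, Fintype.card_fin, Fintype.card_fin, Fintype.card_fin,
      Fintype.card_prod, Fintype.card_fin, Fintype.card_fin]
    have h1 : q ^ k ≤ 2 ^ (k * q) := by
      rw [mul_comm, pow_mul]
      exact Nat.pow_le_pow_left Nat.lt_two_pow_self.le _
    have h2 := card_low (Fin k × Fin q) d
    rw [Fintype.card_prod, Fintype.card_fin, Fintype.card_fin] at h2
    calc Fintype.card (Low (Fin k × Fin q) d) ^ M * (2 ^ (k * q) * q ^ k) ≤
          (2 ^ (k * q + 1) ^ d) ^ M * (2 ^ (k * q) * 2 ^ (k * q)) :=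
          Nat.mul_le_mul (Nat.pow_le_pow_left h2 _) (Nat.mul_le_mul_left _ h1)
      _ = 2 ^ (M * (k * q + 1) ^ d + 2 * (k * q)) := by
          rw [← pow_mul, ← pow_add, ← pow_add]
          congr 1
          ring
  · have hlow : ∀ i, ∀ T : Finset (Fin k × Fin q), d ≤ T.card → ∑ U ∈ T.powerset,
        (-1 : ℤ) ^ U.card * (if ((g i).subst σ).eval (flip x.1 U x.2) = true then 1 else 0) = 0 := by
      intro i T hT
      by_contra hne
      exact hx i ⟨T, hT, hne⟩
    refine mem_image.2 ⟨(fun i => ⟨fun U => ((g i).subst σ).eval (flip x.1 U x.2), hlow i⟩,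
      fun γ => x.2 (γ, x.1 γ), fun i => ⟨rest x i % q, Nat.mod_lt _ hq0⟩), mem_univ _, ?_⟩
    funext ζ
    show (Ψ fun i => ((g i).subst σ).eval (flip x.1 (Uset (fun γ => x.2 (γ, x.1 γ))
      (fun i => rest x i % q) ζ) x.2)) = _
    rw [hφ, inp_eq_flip]
    congr 1
    funext i
    exact DFormula.eval_subst _ _ _

/-- The average agreement of a small formula with a random table. -/
theorem avg_agr [Nonempty C] (φ : DFormula V) (d t T0 κ : ℕ) (hq : 2 ≤ q) (ht : 1 ≤ t) (η : ℝ)
    (hη : 0 < η) (σ : ((Fin k → Bool) → Bool) → V → ((Fin k × Fin q) × C) ⊕ Bool)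
    (hT0 : 8 * (1 + 8 * t) ≤ T0 ^ 2) (hκ : k * q + 1 ≤ 2 ^ κ)
    (hsmall : ∀ M : ℕ, M * t ≤ 6 * φ.size + t →
      (M : ℝ) * (4 * 8 ^ (k * q) * (3 ^ κ * (2 * T0)) ^ d) ≤ η * (Fintype.card C : ℝ) ^ d ∧
      (2 : ℝ) ^ (M * (k * q + 1) ^ d + 2 * (k * q)) * Real.exp (-(2 * η ^ 2 * 2 ^ k)) ≤ η) :
    ∑ x : ((Fin k × Fin q) → C) × ((Fin k × Fin q) × C → Bool), ∑ T : (Fin k → Bool) → Bool,
      (agr (fun ζ => φ.eval fun v => (σ T v).elim (inp x ζ) id) T : ℝ) ≤
        Fintype.card (((Fin k × Fin q) → C) × ((Fin k × Fin q) × C → Bool)) *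
          (2 ^ 2 ^ k * 2 ^ k * (1 / 2 + 3 * η)) := by
  classical
  obtain ⟨M, hM, g, Ψ, hg, hφ⟩ := exists_dec ht φ
  obtain ⟨hs1, hs2⟩ := hsmall M hM
  obtain ⟨S, hS, hSm⟩ := exists_set (k := k) (q := q) (C := C) φ d M g Ψ hφ
  have hΓ : Fintype.card (Fin k × Fin q) = k * q := by
    rw [Fintype.card_prod, Fintype.card_fin, Fintype.card_fin]
  have hXcard : Fintype.card (((Fin k × Fin q) → C) × ((Fin k × Fin q) × C → Bool)) =
      Fintype.card C ^ (k * q) * 2 ^ Fintype.card ((Fin k × Fin q) × C) := by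
    rw [Fintype.card_prod, Fintype.card_fun, Fintype.card_fun, Fintype.card_bool, hΓ]
  set X : Type := ((Fin k × Fin q) → C) × ((Fin k × Fin q) × C → Bool) with hX
  have hcardA : Fintype.card (Fin k → Bool) = 2 ^ k := by
    rw [Fintype.card_fun, Fintype.card_bool, Fintype.card_fin]
  let Bad : ((Fin k → Bool) → Bool) → Finset X := fun T =>
    univ.filter fun x => ∃ i, bad d ((g i).subst (σ T)) x
  -- the number of bad restrictions
  have hBad : ∀ T, ((Bad T).card : ℝ) ≤ η * Fintype.card X := by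
    intro T
    have h1 : (Bad T).card ≤ ∑ i : Fin M, (univ.filter fun x : X => bad d ((g i).subst (σ T)) x).card := by
      refine le_trans (card_le_card ?_) card_biUnion_le
      intro x hx
      obtain ⟨i, hi⟩ := (mem_filter.1 hx).2
      exact mem_biUnion.2 ⟨i, mem_univ _, mem_filter.2 ⟨mem_univ _, hi⟩⟩
    have h2 : ∀ i : Fin M, (univ.filter fun x : X => bad d ((g i).subst (σ T)) x).card *
        Fintype.card C ^ d ≤ 4 * 8 ^ (k * q) * (3 ^ κ * (2 * T0)) ^ d * Fintype.card X := by
      intro i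
      have h3 := bad_count d ((g i).subst (σ T)) t T0 κ ((DFormula.size_subst _ _).trans (hg i)) hT0
        (by rw [hΓ]; exact hκ)
      rw [Nat.card_eq_fintype_card, Fintype.card_subtype, hΓ] at h3
      rw [hXcard]
      exact h3
    have h5 : (Bad T).card * Fintype.card C ^ d ≤
        M * (4 * 8 ^ (k * q) * (3 ^ κ * (2 * T0)) ^ d) * Fintype.card X := by
      calc (Bad T).card * Fintype.card C ^ d ≤ (∑ i : Fin M, (univ.filter fun x : X =>
              bad d ((g i).subst (σ T)) x).card) * Fintype.card C ^ d := Nat.mul_le_mul_right _ h1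
        _ = ∑ i : Fin M, (univ.filter fun x : X =>
              bad d ((g i).subst (σ T)) x).card * Fintype.card C ^ d := sum_mul _ _ _
        _ ≤ ∑ _i : Fin M, 4 * 8 ^ (k * q) * (3 ^ κ * (2 * T0)) ^ d * Fintype.card X :=
              sum_le_sum fun i _ => h2 i
        _ = _ := by
            rw [sum_const, card_univ, Fintype.card_fin, smul_eq_mul]
            ring
    have h5R : ((Bad T).card : ℝ) * (Fintype.card C : ℝ) ^ d ≤
        (M : ℝ) * (4 * 8 ^ (k * q) * (3 ^ κ * (2 * T0)) ^ d) * Fintype.card X := by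
      exact_mod_cast h5
    have hCpos : (0 : ℝ) < (Fintype.card C : ℝ) ^ d := by
      have : 0 < Fintype.card C := Fintype.card_pos
      positivity
    have h6 : ((Bad T).card : ℝ) * (Fintype.card C : ℝ) ^ d ≤
        η * Fintype.card X * (Fintype.card C : ℝ) ^ d := by
      refine h5R.trans ?_
      calc (M : ℝ) * (4 * 8 ^ (k * q) * (3 ^ κ * (2 * T0)) ^ d) * Fintype.card X ≤
            η * (Fintype.card C : ℝ) ^ d * Fintype.card X :=
            mul_le_mul_of_nonneg_right hs1 (Nat.cast_nonneg _)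
        _ = η * Fintype.card X * (Fintype.card C : ℝ) ^ d := by ring
    exact le_of_mul_le_mul_right h6 hCpos
  -- a default element
  rcases S.eq_empty_or_nonempty with hSe | ⟨f0, hf0⟩
  · -- no good restriction
    have hall : ∀ T, Bad T = univ := by
      intro T
      rw [eq_univ_iff_forall]
      intro x
      rw [mem_filter]
      refine ⟨mem_univ _, ?_⟩
      by_contra hcon
      push Not at hcon
      have := hSm (σ T) x (by omega) hcon
      rw [hSe] at this
      exact absurd this (notMem_empty _)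
    have h1 := hBad fun _ => false
    rw [hall, card_univ] at h1
    have hXpos : (0 : ℝ) < Fintype.card X := by
      have : 0 < Fintype.card X := Fintype.card_pos
      exact_mod_cast this
    have hη1 : 1 ≤ η := by
      by_contra hcon
      push Not at hcon
      nlinarith
    calc ∑ x : X, ∑ T : (Fin k → Bool) → Bool,
          (agr (fun ζ => φ.eval fun v => (σ T v).elim (inp x ζ) id) T : ℝ) ≤
          ∑ _x : X, ∑ _T : (Fin k → Bool) → Bool, (2 : ℝ) ^ k := by
          refine sum_le_sum fun x _ => sum_le_sum fun T _ => ?_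
          have := agr_le (fun ζ => φ.eval fun v => (σ T v).elim (inp x ζ) id) T
          rw [hcardA] at this
          exact_mod_cast this
      _ = Fintype.card X * (2 ^ 2 ^ k * 2 ^ k) := by
          rw [sum_const, sum_const, card_univ, card_univ, Fintype.card_fun, Fintype.card_bool, hcardA,
            nsmul_eq_mul, nsmul_eq_mul]
          push_cast
          rfl
      _ ≤ Fintype.card X * (2 ^ 2 ^ k * 2 ^ k * (1 / 2 + 3 * η)) := by
          apply mul_le_mul_of_nonneg_left _ (Nat.cast_nonneg _)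
          have : (0 : ℝ) < 2 ^ 2 ^ k * 2 ^ k := by positivity
          nlinarith
  · let gg : X → ((Fin k → Bool) → Bool) → ((Fin k → Bool) → Bool) := fun x T =>
      if x ∈ Bad T then f0 else fun ζ => φ.eval fun v => (σ T v).elim (inp x ζ) id
    have hgg : ∀ x T, gg x T ∈ S := by
      intro x T
      show (if x ∈ Bad T then f0 else fun ζ => φ.eval fun v => (σ T v).elim (inp x ζ) id) ∈ S
      split_ifs with h
      · exact hf0
      · apply hSm (σ T) x (by omega)
        intro i hi
        exact h (mem_filter.2 ⟨mem_univ _, i, hi⟩)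
    have hScard : (S.card : ℝ) * Real.exp (-(2 * η ^ 2 * Fintype.card (Fin k → Bool))) ≤ η := by
      rw [hcardA]
      push_cast
      refine le_trans ?_ hs2
      apply mul_le_mul_of_nonneg_right _ (Real.exp_pos _).le
      exact_mod_cast hS
    have h1 : ∀ x : X, ∑ T : (Fin k → Bool) → Bool,
        (agr (fun ζ => φ.eval fun v => (σ T v).elim (inp x ζ) id) T : ℝ) ≤
          2 ^ 2 ^ k * 2 ^ k * (1 / 2 + 2 * η) + ∑ T : (Fin k → Bool) → Bool,
            if x ∈ Bad T then (2 : ℝ) ^ k else 0 := by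
      intro x
      have h2 := mean_agr S (gg x) (hgg x) η hη.le hScard
      rw [hcardA] at h2
      push_cast at h2
      refine le_trans ?_ (add_le_add h2 le_rfl)
      rw [← sum_add_distrib]
      refine sum_le_sum fun T _ => ?_
      by_cases hx : x ∈ Bad T
      · rw [if_pos hx]
        have h3 := agr_le (fun ζ => φ.eval fun v => (σ T v).elim (inp x ζ) id) T
        rw [hcardA] at h3
        have h3R : (agr (fun ζ => φ.eval fun v => (σ T v).elim (inp x ζ) id) T : ℝ) ≤ 2 ^ k := by
          exact_mod_cast h3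
        have h4 : (0 : ℝ) ≤ agr (gg x T) T := Nat.cast_nonneg _
        linarith
      · rw [if_neg hx, add_zero]
        have : gg x T = fun ζ => φ.eval fun v => (σ T v).elim (inp x ζ) id := if_neg hx
        rw [this]
    have h5 : ∑ x : X, ∑ T : (Fin k → Bool) → Bool, (if x ∈ Bad T then (2 : ℝ) ^ k else 0) ≤
        Fintype.card X * (2 ^ 2 ^ k * 2 ^ k * η) := by
      rw [sum_comm]
      calc ∑ T : (Fin k → Bool) → Bool, ∑ x : X, (if x ∈ Bad T then (2 : ℝ) ^ k else 0) =
            ∑ T : (Fin k → Bool) → Bool, ((Bad T).card : ℝ) * 2 ^ k := by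
            refine sum_congr rfl fun T _ => ?_
            rw [sum_ite_mem, univ_inter, sum_const, nsmul_eq_mul]
        _ ≤ ∑ _T : (Fin k → Bool) → Bool, η * Fintype.card X * 2 ^ k :=
            sum_le_sum fun T _ => mul_le_mul_of_nonneg_right (hBad T) (by positivity)
        _ = Fintype.card X * (2 ^ 2 ^ k * 2 ^ k * η) := by
            rw [sum_const, card_univ, Fintype.card_fun, Fintype.card_bool, hcardA, nsmul_eq_mul]
            push_cast
            ring
    calc ∑ x : X, ∑ T : (Fin k → Bool) → Bool,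
          (agr (fun ζ => φ.eval fun v => (σ T v).elim (inp x ζ) id) T : ℝ) ≤
          ∑ x : X, (2 ^ 2 ^ k * 2 ^ k * (1 / 2 + 2 * η) + ∑ T : (Fin k → Bool) → Bool,
            if x ∈ Bad T then (2 : ℝ) ^ k else 0) := sum_le_sum fun x _ => h1 x
      _ = Fintype.card X * (2 ^ 2 ^ k * 2 ^ k * (1 / 2 + 2 * η)) +
            ∑ x : X, ∑ T : (Fin k → Bool) → Bool, (if x ∈ Bad T then (2 : ℝ) ^ k else 0) := by
          rw [sum_add_distrib, sum_const, card_univ, nsmul_eq_mul]
      _ ≤ Fintype.card X * (2 ^ 2 ^ k * 2 ^ k * (1 / 2 + 2 * η)) +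
            Fintype.card X * (2 ^ 2 ^ k * 2 ^ k * η) := add_le_add le_rfl h5
      _ = Fintype.card X * (2 ^ 2 ^ k * 2 ^ k * (1 / 2 + 3 * η)) := by ring

end Pool.Agent.Helper97.DM
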