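import Mathlib

/-!
# The choice of the parameters
-/

set_option autoImplicit false

namespace Pool.Agent.Helper97.DM

open Filter

theorem small_aux (x S δ K : ℝ) (q d : ℕ) (C : ℝ) (hK : 0 ≤ K) (hx : 1 ≤ x)
    (hC0 : 0 ≤ C) (hC : 36864 * S ^ 4 ≤ C * x ^ (δ / 2)) (hd : (6 * q + 7 : ℝ) ≤ δ * d / 2)
    (hx2 : K * (28 * C ^ d) < x) :
    K * (28 * x ^ (6 * q + 6) * (36864 * S ^ 4 * x ^ (-δ)) ^ d) < 1 := by
  have hx0 : 0 < x := by linarith
  have h1 : 36864 * S ^ 4 * x ^ (-δ) ≤ C * x ^ (-(δ / 2)) := by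
    calc 36864 * S ^ 4 * x ^ (-δ) ≤ C * x ^ (δ / 2) * x ^ (-δ) :=
          mul_le_mul_of_nonneg_right hC (Real.rpow_nonneg hx0.le _)
      _ = C * x ^ (-(δ / 2)) := by
          rw [mul_assoc, ← Real.rpow_add hx0]
          congr 2
          ring
  have h2 : (36864 * S ^ 4 * x ^ (-δ)) ^ d ≤ C ^ d * x ^ (-(6 * q + 7 : ℝ)) := by
    calc (36864 * S ^ 4 * x ^ (-δ)) ^ d ≤ (C * x ^ (-(δ / 2))) ^ d :=
          pow_le_pow_left₀ (by positivity) h1 d
      _ = C ^ d * x ^ (-(δ * d / 2)) := by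
          rw [mul_pow, ← Real.rpow_natCast (x ^ (-(δ / 2))) d, ← Real.rpow_mul hx0.le]
          congr 2
          ring
      _ ≤ C ^ d * x ^ (-(6 * q + 7 : ℝ)) := by
          apply mul_le_mul_of_nonneg_left _ (by positivity)
          exact Real.rpow_le_rpow_of_exponent_le hx (by linarith)
  have h3 : x ^ (6 * q + 6) * x ^ (-(6 * q + 7 : ℝ)) = x⁻¹ := by
    rw [← Real.rpow_natCast x (6 * q + 6), ← Real.rpow_add hx0, ← Real.rpow_neg_one]
    congr 1
    push_cast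
    ring
  calc K * (28 * x ^ (6 * q + 6) * (36864 * S ^ 4 * x ^ (-δ)) ^ d) ≤
        K * (28 * x ^ (6 * q + 6) * (C ^ d * x ^ (-(6 * q + 7 : ℝ)))) :=
        mul_le_mul_of_nonneg_left (mul_le_mul_of_nonneg_left h2 (by positivity)) hK
    _ = K * (28 * C ^ d) * (x ^ (6 * q + 6) * x ^ (-(6 * q + 7 : ℝ))) := by ring
    _ = K * (28 * C ^ d) / x := by rw [h3, div_eq_mul_inv]
    _ < 1 := by rwa [div_lt_one hx0]

theorem numeric (b q K : ℕ) (hb : 1 ≤ b) (hq : 1 ≤ q) (hK : 1 ≤ K) (δ : ℝ) (hδ : 0 < δ) (hδ1 : δ ≤ 1 / 4) :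
    ∃ d n₀ : ℕ, ∀ n : ℕ, n₀ ≤ n → ∃ s w κ T0 t : ℕ,
      1 ≤ s ∧ b * 2 ^ s + 4 * s * q * w ≤ n ∧ 1 ≤ w ∧ 1 ≤ t ∧ 8 * (1 + 8 * t) ≤ T0 ^ 2 ∧
      2 * s * q + 1 ≤ 2 ^ κ ∧
      ∀ L : ℕ, (L : ℝ) < (n : ℝ) ^ (6 - 4 * δ) → ∀ M : ℕ, M * t ≤ 6 * L + t →
        K * (M * (4 * 8 ^ (2 * s * q) * (3 ^ κ * (2 * T0)) ^ d)) < (w * w) ^ d ∧
        K * (M * (2 * s * q + 1) ^ d + 2 * (2 * s * q)) < 2 ^ (2 * s) := by
  have hKR : (1 : ℝ) ≤ K := by exact_mod_cast hK
  have hK0 : (0 : ℝ) < K := by linarith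
  obtain ⟨d, hd⟩ : ∃ d : ℕ, (6 * q + 7 : ℝ) ≤ δ * d / 2 := by
    obtain ⟨d, hd⟩ := exists_nat_ge ((6 * q + 7 : ℝ) * 2 / δ)
    refine ⟨d, ?_⟩
    rw [div_le_iff₀ hδ] at hd
    linarith
  have hqR : (1 : ℝ) ≤ q := by exact_mod_cast hq
  have hd1 : 1 ≤ d := by
    by_contra hcon
    have : d = 0 := by omega
    rw [this] at hd
    norm_num at hd
    linarith
  have hdR : (1 : ℝ) ≤ d := by exact_mod_cast hd1
  set C : ℝ := 36864 * (16 * q / δ) ^ 4 with hC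
  set C' : ℝ := (12 * q * d / δ) ^ d with hC'
  have hCpos : 0 < C := by positivity
  have hC'pos : 0 < C' := by positivity
  have hev : ∀ᶠ n : ℕ in atTop, (4 * b : ℝ) ≤ n ∧ (128 * q / δ) ^ 2 ≤ (n : ℝ) ∧ (9 : ℝ) ≤ n ∧
      K * (28 * C ^ d) < n ∧ K * (867 * 16 * (b : ℝ) ^ 2 * C') < (n : ℝ) ^ δ := by
    have h1 := tendsto_natCast_atTop_atTop (R := ℝ)
    have h2 := (tendsto_rpow_atTop hδ).comp h1
    exact (h1.eventually_ge_atTop _).and ((h1.eventually_ge_atTop _).and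
      ((h1.eventually_ge_atTop _).and ((h1.eventually_gt_atTop _).and (h2.eventually_gt_atTop _))))
  obtain ⟨n₀, hn₀⟩ := eventually_atTop.1 hev
  refine ⟨d, n₀, fun n hn => ?_⟩
  obtain ⟨hA, hB, hnine, hD, hE⟩ := hn₀ n hn
  set x : ℝ := (n : ℝ) with hx
  have hx1 : 1 ≤ x := by linarith
  have hx0 : 0 < x := by linarith
  have hAn : 4 * b ≤ n := by
    rw [hx] at hA
    exact_mod_cast hA
  -- the parameter `s`
  set s := Nat.log 2 (n / (2 * b)) with hs
  have hna : 2 ≤ n / (2 * b) := (Nat.le_div_iff_mul_le (by omega)).2 (by omega)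
  have h1 : 2 ^ s ≤ n / (2 * b) := Nat.pow_log_le_self 2 (by omega)
  have h2 : n / (2 * b) < 2 ^ (s + 1) := Nat.lt_pow_succ_log_self (by norm_num) _
  have hs1 : 1 ≤ s := by
    by_contra hcon
    have : 2 ^ (s + 1) ≤ 2 ^ 1 := Nat.pow_le_pow_right (by norm_num) (by omega)
    omega
  have h3 : 2 * b * 2 ^ s ≤ n := by
    have := Nat.mul_le_mul_left (2 * b) h1
    exact this.trans (Nat.mul_div_le n (2 * b))
  have h4 : n < 4 * b * 2 ^ s := by
    rw [Nat.div_lt_iff_lt_mul (by omega)] at h2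
    calc n < 2 ^ (s + 1) * (2 * b) := h2
      _ = 4 * b * 2 ^ s := by rw [pow_succ]; ring
  have h2n : 2 ^ s ≤ n := h1.trans (Nat.div_le_self _ _)
  have hslog : (s : ℝ) ≤ 2 * Real.log x := by
    have h11 : (s : ℝ) * Real.log 2 ≤ Real.log x := by
      rw [← Real.log_pow]
      apply Real.log_le_log (by positivity)
      rw [hx]
      exact_mod_cast h2n
    have h12 : (1 : ℝ) / 2 ≤ Real.log 2 := by
      have := Real.log_two_gt_d9
      linarith
    nlinarith [Nat.cast_nonneg (α := ℝ) s]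
  have hSη : ∀ η : ℝ, 0 < η → (s * q : ℝ) ≤ 2 * q / η * x ^ η := by
    intro η hη
    have h5 := Real.log_le_rpow_div hx0.le hη
    calc (s * q : ℝ) ≤ 2 * Real.log x * q := mul_le_mul_of_nonneg_right hslog (by linarith)
      _ ≤ 2 * (x ^ η / η) * q := by gcongr
      _ = 2 * q / η * x ^ η := by ring
  have hsR : (1 : ℝ) ≤ s := by exact_mod_cast hs1
  have hS1 : (1 : ℝ) ≤ s * q := by nlinarith
  have hS0 : (0 : ℝ) < s * q := by linarith
  have hsq1 : 1 ≤ s * q := Nat.mul_pos hs1 hq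
  -- `8 s q ≤ n`
  have h8 : 8 * s * q ≤ n := by
    have h5 := hSη (δ / 8) (by positivity)
    have h6 : x ^ (δ / 8) ≤ x ^ (1 / 2 : ℝ) := Real.rpow_le_rpow_of_exponent_le hx1 (by linarith)
    have h7 : 128 * q / δ ≤ x ^ (1 / 2 : ℝ) := by
      rw [← Real.sqrt_eq_rpow]
      exact Real.le_sqrt_of_sq_le hB
    have h8 : x ^ (1 / 2 : ℝ) * x ^ (1 / 2 : ℝ) = x := by
      rw [← Real.rpow_add hx0]
      norm_num
    have h9 : (8 * s * q : ℝ) ≤ x := by
      calc (8 * s * q : ℝ) = 8 * (s * q) := by ring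
        _ ≤ 8 * (2 * q / (δ / 8) * x ^ (δ / 8)) := by linarith
        _ = 128 * q / δ * x ^ (δ / 8) := by
            field_simp
            ring
        _ ≤ x ^ (1 / 2 : ℝ) * x ^ (1 / 2 : ℝ) := by
            apply mul_le_mul h7 h6 (by positivity) (by positivity)
        _ = x := h8
    rw [hx] at h9
    exact_mod_cast h9
  -- the parameter `w`
  set w := n / (8 * s * q) with hw
  have h8pos : 0 < 8 * s * q := by
    have : 8 * s * q = 8 * (s * q) := by ring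
    omega
  have hw1 : 1 ≤ w := (Nat.one_le_div_iff h8pos).2 h8
  have hw2 : 8 * s * q * w ≤ n := Nat.mul_div_le n _
  have hw3 : n ≤ 16 * s * q * w := by
    have h5 := Nat.div_add_mod n (8 * s * q)
    have h6 := Nat.mod_lt n h8pos
    have h7 : 8 * s * q ≤ 8 * s * q * w := Nat.le_mul_of_pos_right _ hw1
    have h9 : 16 * s * q * w = 8 * s * q * w + 8 * s * q * w := by ring
    rw [← hw] at h5
    omega
  have hwR : x / (16 * (s * q)) ≤ w := by
    rw [div_le_iff₀ (by positivity)]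
    have : x ≤ 16 * s * q * w := by
      rw [hx]
      exact_mod_cast hw3
    linarith
  -- the parameter `κ`
  set κ := Nat.clog 2 (2 * s * q + 1) with hκ
  have hκ1 : 2 * s * q + 1 ≤ 2 ^ κ := Nat.le_pow_clog (by norm_num) _
  have hκ2 : 2 ^ κ ≤ 6 * (s * q) := by
    have h5 : 1 < 2 * s * q + 1 := by
      have : 2 * s * q = 2 * (s * q) := by ring
      omega
    have h6 := Nat.pow_pred_clog_lt_self (b := 2) (by norm_num) h5
    rw [← hκ] at h6
    have h7 : 0 < κ := Nat.clog_pos (by norm_num) h5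
    obtain ⟨κ', hκ'⟩ : ∃ κ', κ = κ' + 1 := ⟨κ - 1, by omega⟩
    rw [hκ'] at h6 ⊢
    simp only [Nat.pred_succ] at h6
    have h9 : 2 * s * q = 2 * (s * q) := by ring
    rw [pow_succ]
    omega
  have h3κ : 3 ^ κ ≤ 36 * (s * q) ^ 2 := by
    calc 3 ^ κ ≤ 4 ^ κ := Nat.pow_le_pow_left (by norm_num) _
      _ = (2 ^ κ) ^ 2 := by rw [← pow_mul, mul_comm, pow_mul]; norm_num
      _ ≤ (6 * (s * q)) ^ 2 := Nat.pow_le_pow_left hκ2 2
      _ = 36 * (s * q) ^ 2 := by ring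
  -- the parameters `T0` and `t`
  set T0 := ⌈x ^ (2 - δ)⌉₊ with hT0
  have hy1 : 9 ≤ x ^ (2 - δ) := by
    calc (9 : ℝ) ≤ x := hnine
      _ = x ^ (1 : ℝ) := (Real.rpow_one x).symm
      _ ≤ x ^ (2 - δ) := Real.rpow_le_rpow_of_exponent_le hx1 (by linarith)
  have hT1 : x ^ (2 - δ) ≤ T0 := Nat.le_ceil _
  have hT2 : (T0 : ℝ) ≤ 2 * x ^ (2 - δ) := by
    have := (Nat.ceil_lt_add_one (by positivity : 0 ≤ x ^ (2 - δ))).le
    linarith
  have hT3 : 9 ≤ T0 := by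
    have : (9 : ℝ) ≤ T0 := hy1.trans hT1
    exact_mod_cast this
  set t := T0 ^ 2 / 72 with ht
  have hT4 : 81 ≤ T0 ^ 2 := by nlinarith
  have ht1 : 1 ≤ t := (Nat.one_le_div_iff (by norm_num)).2 (by omega)
  have ht2 : 72 * t ≤ T0 ^ 2 := Nat.mul_div_le _ _
  have ht3 : T0 ^ 2 ≤ 144 * t := by omega
  have htR : x ^ (4 - 2 * δ) ≤ 144 * t := by
    have h5 : x ^ (4 - 2 * δ) = (x ^ (2 - δ)) ^ 2 := by
      rw [← Real.rpow_natCast (x ^ (2 - δ)) 2, ← Real.rpow_mul hx0.le]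
      congr 1
      push_cast
      ring
    rw [h5]
    calc (x ^ (2 - δ)) ^ 2 ≤ (T0 : ℝ) ^ 2 := pow_le_pow_left₀ (by positivity) hT1 2
      _ ≤ 144 * t := by exact_mod_cast ht3
  refine ⟨s, w, κ, T0, t, hs1, ?_, hw1, ht1, by omega, hκ1, fun L hL M hM => ⟨?_, ?_⟩⟩
  · have h5 : 2 * (4 * s * q * w) = 8 * s * q * w := by ring
    have h6 : 2 * b * 2 ^ s = 2 * (b * 2 ^ s) := by ring
    omega
  · -- the first inequality
    have hM1 : M ≤ 6 * L + 1 := by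
      have : M * t ≤ (6 * L + 1) * t := by
        have h5 : 6 * L ≤ 6 * L * t := Nat.le_mul_of_pos_right _ ht1
        calc M * t ≤ 6 * L + t := hM
          _ ≤ (6 * L + 1) * t := by
              rw [add_mul, one_mul]
              omega
      exact Nat.le_of_mul_le_mul_right this ht1
    have hL6 : (L : ℝ) ≤ x ^ 6 := by
      refine hL.le.trans ?_
      rw [← Real.rpow_natCast x 6]
      exact Real.rpow_le_rpow_of_exponent_le hx1 (by push_cast; linarith)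
    have hx6 : (1 : ℝ) ≤ x ^ 6 := one_le_pow₀ hx1
    have hMR : (M : ℝ) ≤ 7 * x ^ 6 := by
      have h5 : (M : ℝ) ≤ 6 * L + 1 := by exact_mod_cast hM1
      linarith
    have h8R : ((8 : ℝ)) ^ (2 * s * q) ≤ x ^ (6 * q) := by
      have h5 : (8 : ℝ) ^ (2 * s * q) = (2 ^ s) ^ (6 * q) := by
        rw [show (8 : ℝ) = 2 ^ 3 by norm_num, ← pow_mul, ← pow_mul]
        congr 1
        ring
      rw [h5]
      apply pow_le_pow_left₀ (by positivity)
      rw [hx]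
      exact_mod_cast h2n
    have hDR : ((3 : ℝ) ^ κ * (2 * T0)) ≤ 144 * (s * q) ^ 2 * x ^ (2 - δ) := by
      have h5 : (3 : ℝ) ^ κ ≤ 36 * (s * q) ^ 2 := by exact_mod_cast h3κ
      calc ((3 : ℝ) ^ κ * (2 * T0)) ≤ 36 * (s * q) ^ 2 * (2 * (2 * x ^ (2 - δ))) := by gcongr
        _ = 144 * (s * q) ^ 2 * x ^ (2 - δ) := by ring
    have hCx : 36864 * (s * q : ℝ) ^ 4 ≤ C * x ^ (δ / 2) := by
      have h5 := hSη (δ / 8) (by positivity)
      have h6 : (s * q : ℝ) ^ 4 ≤ (16 * q / δ * x ^ (δ / 8)) ^ 4 := by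
        apply pow_le_pow_left₀ hS0.le
        refine h5.trans (le_of_eq ?_)
        field_simp
        ring
      have h7 : (x ^ (δ / 8)) ^ 4 = x ^ (δ / 2) := by
        rw [← Real.rpow_natCast (x ^ (δ / 8)) 4, ← Real.rpow_mul hx0.le]
        congr 1
        push_cast
        ring
      rw [mul_pow (16 * q / δ) (x ^ (δ / 8)) 4, h7] at h6
      calc 36864 * (s * q : ℝ) ^ 4 ≤ 36864 * ((16 * q / δ) ^ 4 * x ^ (δ / 2)) := by linarith
        _ = C * x ^ (δ / 2) := by rw [hC]; ring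
    have hsm := small_aux x (s * q) δ K q d C hK0.le hx1 hCpos.le hCx hd hD
    -- assemble
    have hlhs : ((K * (M * (4 * 8 ^ (2 * s * q) * (3 ^ κ * (2 * T0)) ^ d)) : ℕ) : ℝ) ≤
        K * (28 * x ^ (6 * q + 6) * (144 * (s * q) ^ 2 * x ^ (2 - δ)) ^ d) := by
      push_cast
      calc (K : ℝ) * ((M : ℝ) * (4 * 8 ^ (2 * s * q) * (3 ^ κ * (2 * T0)) ^ d)) ≤
            K * (7 * x ^ 6 * (4 * x ^ (6 * q) * (144 * (s * q) ^ 2 * x ^ (2 - δ)) ^ d)) := by
            gcongr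
        _ = K * (28 * x ^ (6 * q + 6) * (144 * (s * q) ^ 2 * x ^ (2 - δ)) ^ d) := by
            rw [pow_add]
            ring
    have hrhs : (x ^ 2 / (256 * (s * q) ^ 2)) ^ d ≤ (((w * w) ^ d : ℕ) : ℝ) := by
      push_cast
      apply pow_le_pow_left₀ (by positivity)
      calc x ^ 2 / (256 * (s * q) ^ 2) = (x / (16 * (s * q))) * (x / (16 * (s * q))) := by
            field_simp
            ring
        _ ≤ w * w := mul_le_mul hwR hwR (by positivity) (by positivity)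
    have hmid : K * (28 * x ^ (6 * q + 6) * (144 * (s * q : ℝ) ^ 2 * x ^ (2 - δ)) ^ d) <
        (x ^ 2 / (256 * (s * q) ^ 2)) ^ d := by
      have h5 : 144 * (s * q : ℝ) ^ 2 * x ^ (2 - δ) =
          36864 * (s * q : ℝ) ^ 4 * x ^ (-δ) * (x ^ 2 / (256 * (s * q) ^ 2)) := by
        have h6 : x ^ (2 - δ) = x ^ 2 * x ^ (-δ) := by
          rw [← Real.rpow_natCast x 2, ← Real.rpow_add hx0]
          congr 1
        rw [h6]
        field_simp
        ring
      rw [h5, mul_pow]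
      have h7 : 0 < (x ^ 2 / (256 * (s * q : ℝ) ^ 2)) ^ d := by positivity
      calc K * (28 * x ^ (6 * q + 6) * ((36864 * (s * q : ℝ) ^ 4 * x ^ (-δ)) ^ d *
            (x ^ 2 / (256 * (s * q) ^ 2)) ^ d)) =
            K * (28 * x ^ (6 * q + 6) * (36864 * (s * q : ℝ) ^ 4 * x ^ (-δ)) ^ d) *
            (x ^ 2 / (256 * (s * q) ^ 2)) ^ d := by ring
        _ < 1 * (x ^ 2 / (256 * (s * q) ^ 2)) ^ d := mul_lt_mul_of_pos_right hsm h7
        _ = _ := one_mul _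
    exact_mod_cast hlhs.trans_lt (hmid.trans_le hrhs)
  · -- the second inequality
    have ht0 : (0 : ℝ) < t := by exact_mod_cast ht1
    have hMR : (M : ℝ) ≤ 864 * x ^ (2 - 2 * δ) + 1 := by
      have h5 : (M : ℝ) * t ≤ 6 * L + t := by exact_mod_cast hM
      have h6 : (6 * L : ℝ) ≤ 864 * x ^ (2 - 2 * δ) * t := by
        calc (6 * L : ℝ) ≤ 6 * x ^ (6 - 4 * δ) := by linarith
          _ = 6 * (x ^ (2 - 2 * δ) * x ^ (4 - 2 * δ)) := by
              rw [← Real.rpow_add hx0]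
              congr 2
              ring
          _ ≤ 6 * (x ^ (2 - 2 * δ) * (144 * t)) := by gcongr
          _ = 864 * x ^ (2 - 2 * δ) * t := by ring
      have h7 : (M : ℝ) * t ≤ (864 * x ^ (2 - 2 * δ) + 1) * t := by linarith
      exact le_of_mul_le_mul_right h7 ht0
    have hP : ((2 * s * q + 1 : ℕ) : ℝ) ^ d ≤ C' * x ^ (δ / 2) := by
      have h5 := hSη (δ / (2 * d)) (by positivity)
      have h6 : ((2 * s * q + 1 : ℕ) : ℝ) ≤ 12 * q * d / δ * x ^ (δ / (2 * d)) := by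
        push_cast
        calc (2 * s * q + 1 : ℝ) ≤ 3 * (s * q) := by linarith
          _ ≤ 3 * (2 * q / (δ / (2 * d)) * x ^ (δ / (2 * d))) := by linarith
          _ = 12 * q * d / δ * x ^ (δ / (2 * d)) := by
              field_simp
              ring
      calc ((2 * s * q + 1 : ℕ) : ℝ) ^ d ≤ (12 * q * d / δ * x ^ (δ / (2 * d))) ^ d :=
            pow_le_pow_left₀ (by positivity) h6 d
        _ = C' * x ^ (δ / 2) := by
            rw [mul_pow, ← Real.rpow_natCast (x ^ (δ / (2 * d))) d, ← Real.rpow_mul hx0.le]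
            congr 2
            field_simp
    have hP1 : (1 : ℝ) ≤ ((2 * s * q + 1 : ℕ) : ℝ) := by
      push_cast
      have : (0 : ℝ) ≤ 2 * s * q := by positivity
      linarith
    have hP2 : ((2 * s * q + 1 : ℕ) : ℝ) ≤ ((2 * s * q + 1 : ℕ) : ℝ) ^ d := by
      calc ((2 * s * q + 1 : ℕ) : ℝ) = ((2 * s * q + 1 : ℕ) : ℝ) ^ 1 := (pow_one _).symm
        _ ≤ _ := pow_le_pow_right₀ hP1 hd1
    have hlhs : ((M * (2 * s * q + 1) ^ d + 2 * (2 * s * q) : ℕ) : ℝ) ≤ 867 * C' * x ^ (2 - δ) := by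
      have h5 : (1 : ℝ) ≤ x ^ (2 - 2 * δ) := Real.one_le_rpow hx1 (by linarith)
      calc ((M * (2 * s * q + 1) ^ d + 2 * (2 * s * q) : ℕ) : ℝ) =
            M * ((2 * s * q + 1 : ℕ) : ℝ) ^ d + 2 * (2 * s * q) := by push_cast; ring
        _ ≤ M * ((2 * s * q + 1 : ℕ) : ℝ) ^ d + 2 * ((2 * s * q + 1 : ℕ) : ℝ) ^ d := by
            have : (2 * s * q : ℝ) ≤ ((2 * s * q + 1 : ℕ) : ℝ) := by
              push_cast
              linarith
            linarith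
        _ = (M + 2) * ((2 * s * q + 1 : ℕ) : ℝ) ^ d := by ring
        _ ≤ (864 * x ^ (2 - 2 * δ) + 1 + 2) * (C' * x ^ (δ / 2)) :=
            mul_le_mul (by linarith) hP (by positivity) (by positivity)
        _ ≤ (867 * x ^ (2 - 2 * δ)) * (C' * x ^ (δ / 2)) := by
            apply mul_le_mul_of_nonneg_right _ (by positivity)
            linarith
        _ = 867 * C' * (x ^ (2 - 2 * δ) * x ^ (δ / 2)) := by ring
        _ = 867 * C' * x ^ (2 - 2 * δ + δ / 2) := by rw [← Real.rpow_add hx0]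
        _ ≤ 867 * C' * x ^ (2 - δ) := by
            apply mul_le_mul_of_nonneg_left _ (by positivity)
            exact Real.rpow_le_rpow_of_exponent_le hx1 (by linarith)
    have hrhs : x ^ 2 / (16 * (b : ℝ) ^ 2) ≤ ((2 ^ (2 * s) : ℕ) : ℝ) := by
      have h5 : x ≤ 4 * b * 2 ^ s := by
        rw [hx]
        exact_mod_cast h4.le
      rw [div_le_iff₀ (by positivity)]
      push_cast
      calc x ^ 2 ≤ (4 * b * 2 ^ s) ^ 2 := pow_le_pow_left₀ hx0.le h5 2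
        _ = 2 ^ (2 * s) * (16 * (b : ℝ) ^ 2) := by
            rw [mul_comm 2 s, pow_mul]
            ring
    have hmid : K * (867 * C' * x ^ (2 - δ)) < x ^ 2 / (16 * (b : ℝ) ^ 2) := by
      rw [lt_div_iff₀ (by positivity)]
      have h6 : x ^ 2 = x ^ (2 - δ) * x ^ δ := by
        rw [← Real.rpow_natCast x 2, ← Real.rpow_add hx0]
        congr 1
        push_cast
        ring
      rw [h6]
      have h7 : 0 < x ^ (2 - δ) := by positivity
      calc K * (867 * C' * x ^ (2 - δ)) * (16 * (b : ℝ) ^ 2) =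
            x ^ (2 - δ) * (K * (867 * 16 * (b : ℝ) ^ 2 * C')) := by ring
        _ < x ^ (2 - δ) * x ^ δ := mul_lt_mul_of_pos_left hE h7
    have hfin : (K : ℝ) * ((M * (2 * s * q + 1) ^ d + 2 * (2 * s * q) : ℕ) : ℝ) < ((2 ^ (2 * s) : ℕ) : ℝ) :=
      (mul_le_mul_of_nonneg_left hlhs hK0.le).trans_lt (hmid.trans_le hrhs)
    exact_mod_cast hfin

end Pool.Agent.Helper97.DM
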