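import Mathlib

/-!
# De Morgan formulas
-/

set_option autoImplicit false

namespace Pool.Agent.Helper97.DM

/-- De Morgan formulas: Boolean formulas with AND, OR and NOT gates. -/
inductive DFormula (V : Type) : Type
  | const : Bool → DFormula V
  | var : V → DFormula V
  | neg : DFormula V → DFormula V
  | and : DFormula V → DFormula V → DFormula V
  | or : DFormula V → DFormula V → DFormula V

namespace DFormula

variable {V W : Type}

/-- The value of a formula. -/
def eval (X : V → Bool) : DFormula V → Bool
  | const b => b
  | var v => X v
  | neg a => !(a.eval X)
  | and a b => a.eval X && b.eval X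
  | or a b => a.eval X || b.eval X

/-- The size of a formula: the number of its leaves that are labelled by variables. -/
def size : DFormula V → ℕ
  | const _ => 0
  | var _ => 1
  | neg a => a.size
  | and a b => a.size + b.size
  | or a b => a.size + b.size

/-- Substitution of variables or constants for the variables. -/
def subst (σ : V → W ⊕ Bool) : DFormula V → DFormula W
  | const b => const b
  | var v => (σ v).elim var const
  | neg a => neg (a.subst σ)
  | and a b => and (a.subst σ) (b.subst σ)
  | or a b => or (a.subst σ) (b.subst σ)

theorem eval_subst (σ : V → W ⊕ Bool) (Y : W → Bool) (φ : DFormula V) :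
    (φ.subst σ).eval Y = φ.eval fun v => (σ v).elim Y id := by
  induction φ with
  | const b => rfl
  | var v =>
    show ((σ v).elim var const : DFormula W).eval Y = (σ v).elim Y id
    rcases σ v with w | b
    · rfl
    · rfl
  | neg a iha => simp only [subst, eval, iha]
  | and a b iha ihb => simp only [subst, eval, iha, ihb]
  | or a b iha ihb => simp only [subst, eval, iha, ihb]

theorem size_subst (σ : V → W ⊕ Bool) (φ : DFormula V) : (φ.subst σ).size ≤ φ.size := by
  induction φ with
  | const b => exact le_refl _
  | var v =>
    show ((σ v).elim var const : DFormula W).size ≤ 1
    rcases σ v with w | b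
    · exact le_refl _
    · exact Nat.zero_le _
  | neg a iha => exact iha
  | and a b iha ihb => exact add_le_add iha ihb
  | or a b iha ihb => exact add_le_add iha ihb

/-- A formula without variables computes a constant. -/
theorem eval_const (φ : DFormula V) (h : φ.size = 0) (X Y : V → Bool) :
    φ.eval X = φ.eval Y := by
  induction φ with
  | const c => rfl
  | var v => simp [size] at h
  | neg a iha =>
    simp only [size] at h
    simp only [eval, iha h]
  | and a b iha ihb =>
    simp only [size] at h
    simp only [eval, iha (by omega), ihb (by omega)]
  | or a b iha ihb =>
    simp only [size] at h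
    simp only [eval, iha (by omega), ihb (by omega)]

end DFormula

end Pool.Agent.Helper97.DM
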