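import Pool.Agent.Helper97.Form.Moebius

/-!
# Elimination of vertices in permanents
-/

set_option autoImplicit false
set_option linter.unusedSectionVars false

namespace Pool.Agent.Helper97.DM

open Finset Pool.Agent.Helper97.Form

section One

variable {ι A : Type} [Fintype ι] [DecidableEq ι] [CommRing A]

theorem prod_affine {B : Type} [CommRing B] {κ : Type} [DecidableEq κ] (s : Finset κ) (a u : κ → B) :
    ∃ Q : B, ∀ y : B, y * y = 0 → ∏ i ∈ s, (a i + u i * y) = ∏ i ∈ s, a i + y * Q := by
  induction s using Finset.induction_on with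
  | empty => exact ⟨0, fun y _ => by simp⟩
  | insert i s hi ih =>
    obtain ⟨Q, hQ⟩ := ih
    refine ⟨a i * Q + u i * ∏ i ∈ s, a i, fun y hy => ?_⟩
    rw [prod_insert hi, prod_insert hi, hQ y hy]
    linear_combination (u i * Q) * hy

theorem elim_one (M M' : Matrix ι ι A) (v j0 : ι) (hv : v ≠ j0) (w : A)
    (h1 : M v v = 1) (h2 : M v j0 = w) (h3 : ∀ j, j ≠ v → j ≠ j0 → M v j = 0)
    (h1' : M' v v = 1) (h2' : ∀ j, j ≠ v → M' v j = 0) (h3' : ∀ i, i ≠ v → M' i v = 0)
    (h4' : ∀ i, i ≠ v → M' i j0 = M i j0 + M i v * w)
    (h5' : ∀ i j, i ≠ v → j ≠ v → j ≠ j0 → M' i j = M i j) : M.permanent = M'.permanent := by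
  apply perm_of_forms
  intro B _ f x hx
  rw [← perm_forms f M' x hx]
  -- the rows
  let a : ι → B := fun i => ∑ j ∈ univ.erase v, f (M i j) * x j
  have r1 : ∀ i, ∑ j, f (M i j) * x j = a i + f (M i v) * x v := by
    intro i
    rw [← add_sum_erase univ _ (mem_univ v), add_comm]
  have hj0 : j0 ∈ univ.erase v := mem_erase.2 ⟨hv.symm, mem_univ _⟩
  have r2 : ∀ i, i ≠ v → ∑ j, f (M' i j) * x j = a i + f (M i v) * (f w * x j0) := by
    intro i hi
    rw [← add_sum_erase univ _ (mem_univ v), h3' i hi, map_zero, zero_mul, zero_add,
      ← add_sum_erase _ _ hj0, h4' i hi]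
    show _ = (∑ j ∈ univ.erase v, f (M i j) * x j) + _
    rw [← add_sum_erase (univ.erase v) (fun j => f (M i j) * x j) hj0]
    have : ∑ j ∈ (univ.erase v).erase j0, f (M' i j) * x j =
        ∑ j ∈ (univ.erase v).erase j0, f (M i j) * x j := by
      refine sum_congr rfl fun j hj => ?_
      rw [mem_erase, mem_erase] at hj
      rw [h5' i j hi hj.2.1 hj.1]
    rw [this, map_add, map_mul]
    ring
  have r3 : a v = f w * x j0 := by
    show ∑ j ∈ univ.erase v, f (M v j) * x j = _
    rw [Finset.sum_eq_single j0, h2]
    · intro j hj hj'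
      rw [mem_erase] at hj
      rw [h3 j hj.1 hj', map_zero, zero_mul]
    · intro h
      exact absurd hj0 h
  have r4 : ∑ j, f (M' v j) * x j = x v := by
    rw [Finset.sum_eq_single v, h1', map_one, one_mul]
    · intro j _ hj
      rw [h2' j hj, map_zero, zero_mul]
    · intro h
      exact absurd (mem_univ _) h
  rw [← mul_prod_erase univ (fun i => ∑ j, f (M i j) * x j) (mem_univ v),
    ← mul_prod_erase univ (fun i => ∑ j, f (M' i j) * x j) (mem_univ v)]
  rw [r4, r1 v, r3, h1, map_one, one_mul]
  obtain ⟨Q, hQ⟩ := prod_affine (univ.erase v) a fun i => f (M i v)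
  have e1 : ∏ i ∈ univ.erase v, ∑ j, f (M i j) * x j = ∏ i ∈ univ.erase v, (a i + f (M i v) * x v) :=
    prod_congr rfl fun i _ => r1 i
  have e2 : ∏ i ∈ univ.erase v, ∑ j, f (M' i j) * x j =
      ∏ i ∈ univ.erase v, (a i + f (M i v) * (f w * x j0)) :=
    prod_congr rfl fun i hi => r2 i (ne_of_mem_erase hi)
  have hy : f w * x j0 * (f w * x j0) = 0 := by
    linear_combination (f w * f w) * hx j0
  rw [e1, e2, hQ _ (hx v), hQ _ hy]
  -- too many forms
  have hz : x j0 * ∏ i ∈ univ.erase v, a i = 0 := by
    let N : Matrix ι ι A := Matrix.of fun i j => if i = v then (if j = j0 then 1 else 0) else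
      if j = v then 0 else M i j
    have hN : N.permanent = 0 := by
      unfold Matrix.permanent
      refine sum_eq_zero fun σ _ => prod_eq_zero (mem_univ v) ?_
      show (if σ v = v then (if v = j0 then (1 : A) else 0) else if v = v then 0 else M (σ v) v) = 0
      rw [if_neg hv, if_pos rfl]
      split_ifs <;> rfl
    have h6 := perm_forms f N x hx
    rw [hN, map_zero, zero_mul, ← mul_prod_erase univ _ (mem_univ v)] at h6
    have h7 : ∑ j, f (N v j) * x j = x j0 := by
      have : ∀ j, f (N v j) * x j = if j = j0 then x j else 0 := by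
        intro j
        show f (if v = v then (if j = j0 then 1 else 0) else _) * x j = _
        rw [if_pos rfl]
        split_ifs
        · rw [map_one, one_mul]
        · rw [map_zero, zero_mul]
      rw [sum_congr rfl fun j _ => this j, sum_ite_eq' univ j0, if_pos (mem_univ _)]
    have h8 : ∏ i ∈ univ.erase v, ∑ j, f (N i j) * x j = ∏ i ∈ univ.erase v, a i := by
      refine prod_congr rfl fun i hi => ?_
      have hi' := ne_of_mem_erase hi
      rw [← add_sum_erase univ _ (mem_univ v)]
      have h9 : f (N i v) * x v = 0 := by
        show f (if i = v then _ else if v = v then 0 else M i v) * x v = 0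
        rw [if_neg hi', if_pos rfl, map_zero, zero_mul]
      rw [h9, zero_add]
      refine sum_congr rfl fun j hj => ?_
      show f (if i = v then _ else if j = v then 0 else M i j) * x j = _
      rw [if_neg hi', if_neg (ne_of_mem_erase hj)]
    rwa [h7, h8] at h6
  linear_combination (f w) * hz + Q * hx v

end One

section Fam

variable {ι κ A : Type} [Fintype ι] [DecidableEq ι] [Fintype κ] [DecidableEq κ] [CommRing A]

/-- the matrix in which the vertices of `s` are not yet eliminated -/
def stage (M : ι → ι → A) (U : ι → κ → A) (jj : κ → ι) (w : κ → A) (s : Finset κ) :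
    Matrix (ι ⊕ κ) (ι ⊕ κ) A := Matrix.of fun i j => match i, j with
  | Sum.inl i, Sum.inl j => M i j + ∑ v ∈ sᶜ, if jj v = j then U i v * w v else 0
  | Sum.inl i, Sum.inr v => if v ∈ s then U i v else 0
  | Sum.inr v, Sum.inl j => if v ∈ s then (if jj v = j then w v else 0) else 0
  | Sum.inr v, Sum.inr v' => if v = v' then 1 else 0

theorem stage_perm (M : ι → ι → A) (U : ι → κ → A) (jj : κ → ι) (w : κ → A) (s : Finset κ) :
    (stage M U jj w s).permanent = (stage M U jj w ∅).permanent := by
  induction s using Finset.induction_on with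
  | empty => rfl
  | insert v s hv ih =>
    rw [← ih]
    refine elim_one _ _ (Sum.inr v) (Sum.inl (jj v)) (by simp) (w v) ?_ ?_ ?_ ?_ ?_ ?_ ?_ ?_
    · show (if v = v then (1 : A) else 0) = 1
      exact if_pos rfl
    · show (if v ∈ insert v s then (if jj v = jj v then w v else 0) else 0) = w v
      rw [if_pos (mem_insert_self _ _), if_pos rfl]
    · rintro (j | v') h1 h2
      · show (if v ∈ insert v s then (if jj v = j then w v else 0) else 0) = 0
        rw [if_pos (mem_insert_self _ _), if_neg]
        rintro rfl
        exact h2 rfl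
      · show (if v = v' then (1 : A) else 0) = 0
        rw [if_neg]
        rintro rfl
        exact h1 rfl
    · show (if v = v then (1 : A) else 0) = 1
      exact if_pos rfl
    · rintro (j | v') h1
      · show (if v ∈ s then (if jj v = j then w v else 0) else 0) = 0
        rw [if_neg hv]
      · show (if v = v' then (1 : A) else 0) = 0
        rw [if_neg]
        rintro rfl
        exact h1 rfl
    · rintro (i | v') h1
      · show (if v ∈ s then U i v else 0) = 0
        rw [if_neg hv]
      · show (if v' = v then (1 : A) else 0) = 0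
        rw [if_neg]
        rintro rfl
        exact h1 rfl
    · have hc : sᶜ = insert v (insert v s)ᶜ := by
        ext u
        simp only [mem_compl, mem_insert, not_or]
        constructor
        · intro hu
          by_cases h : u = v
          · exact Or.inl h
          · exact Or.inr ⟨h, hu⟩
        · rintro (rfl | h)
          · exact hv
          · exact h.2
      rintro (i | v') h1
      · show M i (jj v) + (∑ u ∈ sᶜ, if jj u = jj v then U i u * w u else 0) =
          M i (jj v) + (∑ u ∈ (insert v s)ᶜ, if jj u = jj v then U i u * w u else 0) +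
            (if v ∈ insert v s then U i v else 0) * w v
        rw [hc, sum_insert (by simp), if_pos rfl, if_pos (mem_insert_self _ _)]
        ring
      · have h2 : v' ≠ v := by
          rintro rfl
          exact h1 rfl
        show (if v' ∈ s then (if jj v' = jj v then w v' else 0) else 0) =
          (if v' ∈ insert v s then (if jj v' = jj v then w v' else 0) else 0) +
            (if v' = v then (1 : A) else 0) * w v
        rw [if_neg h2, zero_mul, add_zero]
        simp only [mem_insert, h2, false_or]
    · have hc : sᶜ = insert v (insert v s)ᶜ := by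
        ext u
        simp only [mem_compl, mem_insert, not_or]
        constructor
        · intro hu
          by_cases h : u = v
          · exact Or.inl h
          · exact Or.inr ⟨h, hu⟩
        · rintro (rfl | h)
          · exact hv
          · exact h.2
      rintro (i | v') (j | u) h1 h2 h3
      · have hj : jj v ≠ j := by
          rintro rfl
          exact h3 rfl
        show M i j + (∑ u ∈ sᶜ, if jj u = j then U i u * w u else 0) =
          M i j + ∑ u ∈ (insert v s)ᶜ, if jj u = j then U i u * w u else 0
        rw [hc, sum_insert (by simp), if_neg hj, zero_add]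
      · have h4 : u ≠ v := by
          rintro rfl
          exact h2 rfl
        show (if u ∈ s then U i u else 0) = if u ∈ insert v s then U i u else 0
        simp only [mem_insert, h4, false_or]
      · have h4 : v' ≠ v := by
          rintro rfl
          exact h1 rfl
        show (if v' ∈ s then (if jj v' = j then w v' else 0) else 0) =
          if v' ∈ insert v s then (if jj v' = j then w v' else 0) else 0
        simp only [mem_insert, h4, false_or]
      · rfl

/-- Elimination of a family of vertices. -/
theorem elim_fam (M : ι → ι → A) (U : ι → κ → A) (jj : κ → ι) (w : κ → A)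
    (F : Matrix (ι ⊕ κ) (ι ⊕ κ) A) (h1 : ∀ i j, F (Sum.inl i) (Sum.inl j) = M i j)
    (h2 : ∀ i v, F (Sum.inl i) (Sum.inr v) = U i v)
    (h3 : ∀ v j, F (Sum.inr v) (Sum.inl j) = if jj v = j then w v else 0)
    (h4 : ∀ v v', F (Sum.inr v) (Sum.inr v') = if v = v' then 1 else 0) :
    F.permanent =
      (Matrix.of fun i j => M i j + ∑ v, if jj v = j then U i v * w v else 0 : Matrix ι ι A).permanent := by
  have e1 : F = stage M U jj w univ := by
    ext (i | v) (j | v')
    · rw [h1]
      show M i j = M i j + ∑ v ∈ univᶜ, if jj v = j then U i v * w v else 0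
      rw [compl_univ, sum_empty, add_zero]
    · rw [h2]
      exact (if_pos (mem_univ _)).symm
    · rw [h3]
      exact (if_pos (mem_univ _)).symm
    · exact h4 v v'
  rw [e1, stage_perm]
  have e2 : stage M U jj w ∅ = padM κ (Matrix.of fun i j => M i j + ∑ v, if jj v = j then
      U i v * w v else 0 : Matrix ι ι A) := by
    ext (i | v) (j | v')
    · show M i j + (∑ v ∈ ∅ᶜ, if jj v = j then U i v * w v else 0) =
        M i j + ∑ v, if jj v = j then U i v * w v else 0
      rw [compl_empty]
    · show (if v' ∈ (∅ : Finset κ) then U i v' else 0) = 0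
      exact if_neg (notMem_empty _)
    · show (if v ∈ (∅ : Finset κ) then (if jj v = j then w v else 0) else 0) = 0
      exact if_neg (notMem_empty _)
    · rfl
  rw [e2, padM_permanent]

end Fam

end Pool.Agent.Helper97.DM
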