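import Pool.Agent.Helper97.DM.Defs

/-!
# A formula of size `L` is a fixed function of about `6 L / t` formulas of size at most `t`
-/

set_option autoImplicit false

namespace Pool.Agent.Helper97.DM

open DFormula

variable {V : Type}

/-- `f` is a fixed function of `M` formulas of size at most `t`. -/
def Dec (t M : ℕ) (f : (V → Bool) → Bool) : Prop :=
  ∃ (g : Fin M → DFormula V) (Ψ : (Fin M → Bool) → Bool), (∀ i, (g i).size ≤ t) ∧
    ∀ X, f X = Ψ fun i => (g i).eval X

theorem dec_one {t : ℕ} (φ : DFormula V) (h : φ.size ≤ t) : Dec t 1 (fun X => φ.eval X) :=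
  ⟨fun _ => φ, fun x => x 0, fun _ => h, fun _ => rfl⟩

theorem dec_op {t M M' : ℕ} {f f' : (V → Bool) → Bool} (op : Bool → Bool → Bool) (h : Dec t M f)
    (h' : Dec t M' f') : Dec t (M + M') (fun X => op (f X) (f' X)) := by
  obtain ⟨g, Ψ, hg, hf⟩ := h
  obtain ⟨g', Ψ', hg', hf'⟩ := h'
  refine ⟨Fin.append g g', fun x => op (Ψ fun i => x (Fin.castAdd M' i))
    (Ψ' fun i => x (Fin.natAdd M i)), ?_, ?_⟩
  · intro i
    refine Fin.addCases (fun i => ?_) (fun i => ?_) i
    · rw [Fin.append_left]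
      exact hg i
    · rw [Fin.append_right]
      exact hg' i
  · intro X
    simp only [Fin.append_left, Fin.append_right]
    rw [hf, hf']

theorem dec_map {t M : ℕ} {f : (V → Bool) → Bool} (u : Bool → Bool) (h : Dec t M f) :
    Dec t M (fun X => u (f X)) := by
  obtain ⟨g, Ψ, hg, hf⟩ := h
  exact ⟨g, fun x => u (Ψ x), hg, fun X => congrArg u (hf X)⟩

/-- A heavy formula: a context of size `s` around a function of `M` small formulas. -/
def Hv (t s M : ℕ) (φ : DFormula V) : Prop :=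
  ∃ h : (V → Bool) → Bool, Dec t M h ∧ ∃ g1 g0 : DFormula V, g1.size ≤ s ∧ g0.size ≤ s ∧
    ∀ X, φ.eval X = if h X = true then g1.eval X else g0.eval X

theorem Hv.close {t s M : ℕ} {φ : DFormula V} (hs : s ≤ t) (h : Hv t s M φ) :
    Dec t (M + 2) (fun X => φ.eval X) := by
  obtain ⟨h, hd, g1, g0, h1, h0, hφ⟩ := h
  obtain ⟨g, Ψ, hg, hf⟩ := hd
  refine ⟨Fin.append g ![g1, g0], fun x => if (Ψ fun i => x (Fin.castAdd 2 i)) = true then
    x (Fin.natAdd M 0) else x (Fin.natAdd M 1), ?_, ?_⟩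
  · intro i
    refine Fin.addCases (fun i => ?_) (fun i => ?_) i
    · rw [Fin.append_left]
      exact hg i
    · rw [Fin.append_right]
      fin_cases i
      · exact h1.trans hs
      · exact h0.trans hs
  · intro X
    simp only [Fin.append_left, Fin.append_right]
    rw [hφ, hf]
    rfl

theorem split_op {t : ℕ} (mk : DFormula V → DFormula V → DFormula V) (op : Bool → Bool → Bool)
    (hev : ∀ a b X, (mk a b).eval X = op (a.eval X) (b.eval X))
    (hsz : ∀ a b, (mk a b).size = a.size + b.size) (a b : DFormula V)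
    (iha : a.size ≤ t ∨ ∃ s M, s ≤ t ∧ M * t + 4 * t + 6 * s ≤ 6 * a.size ∧ Hv t s M a)
    (ihb : b.size ≤ t ∨ ∃ s M, s ≤ t ∧ M * t + 4 * t + 6 * s ≤ 6 * b.size ∧ Hv t s M b) :
    (mk a b).size ≤ t ∨ ∃ s M, s ≤ t ∧ M * t + 4 * t + 6 * s ≤ 6 * (mk a b).size ∧
      Hv t s M (mk a b) := by
  -- closing the whole formula
  have hclose : ∀ M, Dec t M (fun X => op (a.eval X) (b.eval X)) → Hv t 0 M (mk a b) := by
    intro M hM
    refine ⟨_, hM, const true, const false, le_refl _, le_refl _, fun X => ?_⟩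
    rw [hev]
    cases op (a.eval X) (b.eval X) <;> rfl
  rw [hsz]
  rcases iha with ha | ⟨s, M, hs, hM, hH⟩ <;> rcases ihb with hb | ⟨s', M', hs', hM', hH'⟩
  · by_cases h : a.size + b.size ≤ t
    · exact Or.inl h
    · exact Or.inr ⟨0, 1 + 1, Nat.zero_le _, by omega,
        hclose _ (dec_op op (dec_one a ha) (dec_one b hb))⟩
  · right
    by_cases h : s' + a.size ≤ t
    · obtain ⟨h', hd, g1, g0, h1, h0, hφ⟩ := hH'
      refine ⟨s' + a.size, M', h, by omega, h', hd, mk a g1, mk a g0, by rw [hsz]; omega,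
        by rw [hsz]; omega, fun X => ?_⟩
      rw [hev, hφ, hev, hev]
      split_ifs <;> rfl
    · refine ⟨0, 1 + (M' + 2), Nat.zero_le _, ?_, hclose _ (dec_op op (dec_one a ha) (hH'.close hs'))⟩
      have : (1 + (M' + 2)) * t = M' * t + 3 * t := by ring
      omega
  · right
    by_cases h : s + b.size ≤ t
    · obtain ⟨h', hd, g1, g0, h1, h0, hφ⟩ := hH
      refine ⟨s + b.size, M, h, by omega, h', hd, mk g1 b, mk g0 b, by rw [hsz]; omega,
        by rw [hsz]; omega, fun X => ?_⟩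
      rw [hev, hφ, hev, hev]
      split_ifs <;> rfl
    · refine ⟨0, M + 2 + 1, Nat.zero_le _, ?_, hclose _ (dec_op op (hH.close hs) (dec_one b hb))⟩
      have : (M + 2 + 1) * t = M * t + 3 * t := by ring
      omega
  · right
    refine ⟨0, M + 2 + (M' + 2), Nat.zero_le _, ?_, hclose _ (dec_op op (hH.close hs) (hH'.close hs'))⟩
    have : (M + 2 + (M' + 2)) * t = M * t + M' * t + 4 * t := by ring
    omega

theorem split {t : ℕ} (ht : 1 ≤ t) (φ : DFormula V) : φ.size ≤ t ∨ ∃ s M, s ≤ t ∧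
    M * t + 4 * t + 6 * s ≤ 6 * φ.size ∧ Hv t s M φ := by
  induction φ with
  | const b => exact Or.inl (Nat.zero_le _)
  | var v => exact Or.inl ht
  | neg a iha =>
    rcases iha with ha | ⟨s, M, hs, hM, h, hd, g1, g0, h1, h0, hφ⟩
    · exact Or.inl ha
    · refine Or.inr ⟨s, M, hs, hM, h, hd, neg g1, neg g0, h1, h0, fun X => ?_⟩
      show (!(a.eval X)) = _
      rw [hφ]
      split_ifs <;> rfl
  | and a b iha ihb =>
    exact split_op DFormula.and (fun x y => x && y) (fun _ _ _ => rfl) (fun _ _ => rfl) a b iha ihb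
  | or a b iha ihb =>
    exact split_op DFormula.or (fun x y => x || y) (fun _ _ _ => rfl) (fun _ _ => rfl) a b iha ihb

/-- The decomposition. -/
theorem exists_dec {t : ℕ} (ht : 1 ≤ t) (φ : DFormula V) :
    ∃ M, M * t ≤ 6 * φ.size + t ∧ Dec t M (fun X => φ.eval X) := by
  rcases split ht φ with h | ⟨s, M, hs, hM, hH⟩
  · exact ⟨1, by omega, dec_one φ h⟩
  · refine ⟨M + 2, ?_, hH.close hs⟩
    have : (M + 2) * t = M * t + 2 * t := by ring
    omega

end Pool.Agent.Helper97.DM
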