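import Pool.Agent.Helper97.DM.Res
import Pool.Agent.Helper97.DM.Split

/-!
# The counting argument
-/

set_option autoImplicit false
set_option linter.unusedSectionVars false

namespace Pool.Agent.Helper97.DM

open Finset

section Low

variable {Γ : Type} [Fintype Γ] [DecidableEq Γ]

/-- A function of degree less than `d` is determined by its values on the sets of less than `d`
elements. -/
theorem det_low (F F' : Finset Γ → Bool) (d : ℕ)
    (hF : ∀ T : Finset Γ, d ≤ T.card →
      ∑ U ∈ T.powerset, (-1 : ℤ) ^ U.card * (if F U = true then 1 else 0) = 0)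
    (hF' : ∀ T : Finset Γ, d ≤ T.card →
      ∑ U ∈ T.powerset, (-1 : ℤ) ^ U.card * (if F' U = true then 1 else 0) = 0)
    (h : ∀ U : Finset Γ, U.card < d → F U = F' U) (U : Finset Γ) : F U = F' U := by
  induction U using Finset.strongInduction with
  | H U ih =>
    rcases Nat.lt_or_ge U.card d with hU | hU
    · exact h U hU
    · have h1 := hF U hU
      have h2 := hF' U hU
      rw [← add_sum_erase _ _ (mem_powerset_self U)] at h1 h2
      have h3 : ∑ W ∈ U.powerset.erase U, (-1 : ℤ) ^ W.card * (if F W = true then 1 else 0) =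
          ∑ W ∈ U.powerset.erase U, (-1 : ℤ) ^ W.card * (if F' W = true then 1 else 0) := by
        refine sum_congr rfl fun W hW => ?_
        rw [mem_erase, mem_powerset] at hW
        rw [ih W ((ssubset_iff_subset_ne).2 ⟨hW.2, hW.1⟩)]
      rw [h3] at h1
      have h4 : (-1 : ℤ) ^ U.card * (if F U = true then 1 else 0) =
          (-1 : ℤ) ^ U.card * (if F' U = true then 1 else 0) := by
        linarith
      have h5 : (if F U = true then (1 : ℤ) else 0) = if F' U = true then 1 else 0 :=
        mul_left_cancel₀ (pow_ne_zero _ (by norm_num)) h4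
      cases h6 : F U <;> cases h7 : F' U
      · rfl
      · rw [h6, h7] at h5
        simp at h5
      · rw [h6, h7] at h5
        simp at h5
      · rfl

theorem card_small (d : ℕ) : Fintype.card {U : Finset Γ // U.card < d} ≤ (Fintype.card Γ + 1) ^ d := by
  rw [Fintype.card_subtype]
  have h1 : (univ.filter fun U : Finset Γ => U.card < d).card =
      ∑ i ∈ range d, ((univ.filter fun U : Finset Γ => U.card < d).filter fun U => U.card = i).card := by
    apply card_eq_sum_card_fiberwise
    intro U hU
    exact mem_coe.2 (mem_range.2 (mem_filter.1 hU).2)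
  rw [h1, add_pow, sum_range_succ]
  refine le_trans (sum_le_sum fun i hi => ?_) (Nat.le_add_right _ _)
  rw [mem_range] at hi
  have h2 : ((univ.filter fun U : Finset Γ => U.card < d).filter fun U => U.card = i) ⊆
      powersetCard i univ := by
    intro U hU
    rw [mem_powersetCard]
    exact ⟨subset_univ _, (mem_filter.1 hU).2⟩
  refine (card_le_card h2).trans ?_
  rw [card_powersetCard, card_univ, one_pow, mul_one]
  calc (Fintype.card Γ).choose i ≤ Fintype.card Γ ^ i := Nat.choose_le_pow _ _
    _ ≤ Fintype.card Γ ^ i * d.choose i := Nat.le_mul_of_pos_right _ (Nat.choose_pos hi.le)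

end Low

section Hard

variable {V C : Type} [Fintype C] [DecidableEq C]

/-- the number of ones of a group -/
def ones {k q : ℕ} (β : (Fin k × Fin q) × C → Bool) (i : Fin k) : ℕ :=
  ∑ r : Fin q, ∑ c : C, if β ((i, r), c) = true then 1 else 0

theorem mod_aux (q b r s : ℕ) (hq : 0 < q) (hb : b < q) (hs : s % q = r % q) :
    ((q + b - r % q) % q + s) % q = b := by
  have h4 : r % q < q := Nat.mod_lt _ hq
  calc ((q + b - r % q) % q + s) % q = (q + b - r % q + s % q) % q := by
        rw [Nat.mod_add_mod, Nat.add_mod_mod]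
    _ = (q + b) % q := by
        rw [hs]
        congr 1
        omega
    _ = b := by
        rw [Nat.add_mod_left]
        exact Nat.mod_eq_of_lt hb

theorem hard [Nonempty C] (φ : DFormula V) (k q d t T0 κ : ℕ) (hq : 2 ≤ q) (ht : 1 ≤ t)
    (hinst : ∀ h : (Fin k → Bool) → Bool, ∃ σ : V → ((Fin k × Fin q) × C) ⊕ Bool,
      ∀ (β : (Fin k × Fin q) × C → Bool) (ζ : Fin k → Bool),
        (∀ i, ones β i % q = if ζ i = true then 1 else 0) →
          φ.eval (fun v => (σ v).elim β id) = h ζ)
    (hT0 : 8 * (1 + 8 * t) ≤ T0 ^ 2) (hκ : k * q + 1 ≤ 2 ^ κ)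
    (hsmall : ∀ M, M * t ≤ 6 * φ.size + t →
      M * (4 * 8 ^ (k * q) * (3 ^ κ * (2 * T0)) ^ d) < Fintype.card C ^ d) :
    ∃ M, M * t ≤ 6 * φ.size + t ∧ 2 ^ k ≤ M * (k * q + 1) ^ d + 2 * (k * q) := by
  classical
  obtain ⟨M, hM, g, Ψ, hg, hφ⟩ := exists_dec ht φ
  refine ⟨M, hM, ?_⟩
  choose σ hσ using hinst
  let Γ : Type := Fin k × Fin q
  have hΓ : Fintype.card Γ = k * q := by
    show Fintype.card (Fin k × Fin q) = _
    rw [Fintype.card_prod, Fintype.card_fin, Fintype.card_fin]
  -- good restrictions
  have hgood : ∀ h : (Fin k → Bool) → Bool, ∃ x : (Γ → C) × (Γ × C → Bool),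
      ∀ i, ¬ bad d ((g i).subst (σ h)) x := by
    intro h
    by_contra hcon
    push Not at hcon
    have h1 : Fintype.card ((Γ → C) × (Γ × C → Bool)) ≤
        ∑ i : Fin M, (univ.filter fun x : (Γ → C) × (Γ × C → Bool) => bad d ((g i).subst (σ h)) x).card := by
      rw [← card_univ]
      refine le_trans (card_le_card ?_) card_biUnion_le
      intro x _
      obtain ⟨i, hi⟩ := hcon x
      exact mem_biUnion.2 ⟨i, mem_univ _, mem_filter.2 ⟨mem_univ _, hi⟩⟩
    have h2 : ∀ i : Fin M, (univ.filter fun x : (Γ → C) × (Γ × C → Bool) =>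
        bad d ((g i).subst (σ h)) x).card * Fintype.card C ^ d ≤
          4 * 8 ^ (k * q) * (3 ^ κ * (2 * T0)) ^ d * Fintype.card ((Γ → C) × (Γ × C → Bool)) := by
      intro i
      have h3 := bad_count d ((g i).subst (σ h)) t T0 κ ((DFormula.size_subst _ _).trans (hg i)) hT0
        (by rw [show Fintype.card (Fin k × Fin q) = k * q from hΓ]; exact hκ)
      rw [Nat.card_eq_fintype_card, Fintype.card_subtype] at h3
      rw [show Fintype.card (Fin k × Fin q) = k * q from hΓ] at h3
      have h4 : Fintype.card ((Γ → C) × (Γ × C → Bool)) =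
          Fintype.card C ^ (k * q) * 2 ^ Fintype.card (Γ × C) := by
        rw [Fintype.card_prod, Fintype.card_fun, Fintype.card_fun, Fintype.card_bool, hΓ]
      rw [h4]
      exact h3
    have h5 : Fintype.card ((Γ → C) × (Γ × C → Bool)) * Fintype.card C ^ d ≤
        M * (4 * 8 ^ (k * q) * (3 ^ κ * (2 * T0)) ^ d) * Fintype.card ((Γ → C) × (Γ × C → Bool)) := by
      calc Fintype.card ((Γ → C) × (Γ × C → Bool)) * Fintype.card C ^ d ≤
            (∑ i : Fin M, (univ.filter fun x : (Γ → C) × (Γ × C → Bool) =>
              bad d ((g i).subst (σ h)) x).card) * Fintype.card C ^ d := Nat.mul_le_mul_right _ h1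
        _ = ∑ i : Fin M, (univ.filter fun x : (Γ → C) × (Γ × C → Bool) =>
              bad d ((g i).subst (σ h)) x).card * Fintype.card C ^ d := sum_mul _ _ _
        _ ≤ ∑ _i : Fin M, 4 * 8 ^ (k * q) * (3 ^ κ * (2 * T0)) ^ d *
              Fintype.card ((Γ → C) × (Γ × C → Bool)) := sum_le_sum fun i _ => h2 i
        _ = _ := by
            rw [sum_const, card_univ, Fintype.card_fin, smul_eq_mul]
            ring
    have h6 : 0 < Fintype.card ((Γ → C) × (Γ × C → Bool)) := Fintype.card_pos
    rw [mul_comm] at h5
    have h7 := Nat.le_of_mul_le_mul_right h5 h6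
    exact absurd (hsmall M hM) (not_lt.2 h7)
  choose x hx using hgood
  -- the code
  let val : ((Fin k → Bool) → Bool) → Fin M → Finset Γ → Bool := fun h i U =>
    ((g i).subst (σ h)).eval (flip (x h).1 U (x h).2)
  let rest : ((Fin k → Bool) → Bool) → Fin k → ℕ := fun h i =>
    ∑ r : Fin q, ∑ c ∈ univ.erase ((x h).1 (i, r)), if (x h).2 ((i, r), c) = true then 1 else 0
  have hq0 : 0 < q := by omega
  let code : ((Fin k → Bool) → Bool) → (Fin M → {U : Finset Γ // U.card < d} → Bool) × (Γ → Bool) ×
      (Fin k → Fin q) := fun h =>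
    (fun i U => val h i U.1, fun γ => (x h).2 (γ, (x h).1 γ), fun i => ⟨rest h i % q, Nat.mod_lt _ hq0⟩)
  have hcode : Function.Injective code := by
    intro h h' hh
    have e1 : ∀ i U, val h i U = val h' i U := by
      intro i
      have hlow : ∀ h, ∀ T : Finset Γ, d ≤ T.card →
          ∑ U ∈ T.powerset, (-1 : ℤ) ^ U.card * (if val h i U = true then 1 else 0) = 0 := by
        intro h T hT
        by_contra hne
        exact hx h i ⟨T, hT, hne⟩
      apply det_low (val h i) (val h' i) d (hlow h) (hlow h')
      intro U hU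
      have := congrFun (congrFun (congrArg Prod.fst hh) i) ⟨U, hU⟩
      exact this
    have e2 : ∀ γ, (x h).2 (γ, (x h).1 γ) = (x h').2 (γ, (x h').1 γ) := by
      intro γ
      exact congrFun (congrArg (fun p => p.2.1) hh) γ
    have e3 : ∀ i, rest h i % q = rest h' i % q := by
      intro i
      exact congrArg Fin.val (congrFun (congrArg (fun p => p.2.2) hh) i)
    funext ζ
    -- the flipped groups
    let e : Fin k → ℕ := fun i => (q + (if ζ i = true then 1 else 0) - rest h i % q) % q
    let ζ' : Γ → Bool := fun γ => decide (γ.2.val < e γ.1)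
    let U : Finset Γ := univ.filter fun γ => ζ' γ ≠ (x h).2 (γ, (x h).1 γ)
    have hval : ∀ h1, (∀ γ, (x h).2 (γ, (x h).1 γ) = (x h1).2 (γ, (x h1).1 γ)) →
        (∀ i, rest h i % q = rest h1 i % q) → h1 ζ = Ψ fun i => val h1 i U := by
      intro h1 hb hr
      have hfl : ∀ γ c, flip (x h1).1 U (x h1).2 (γ, c) =
          if c = (x h1).1 γ then ζ' γ else (x h1).2 (γ, c) := by
        intro γ c
        unfold flip
        show (if γ ∈ U ∧ c = (x h1).1 γ then !((x h1).2 (γ, c)) else (x h1).2 (γ, c)) = _
        by_cases hc : c = (x h1).1 γ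
        · subst hc
          rw [if_pos rfl]
          by_cases hU : γ ∈ U
          · rw [if_pos ⟨hU, rfl⟩]
            have h2 := (mem_filter.1 hU).2
            rw [hb] at h2
            revert h2
            cases ζ' γ <;> cases (x h1).2 (γ, (x h1).1 γ) <;> simp
          · rw [if_neg (fun h => hU h.1)]
            have h2 : ¬ (ζ' γ ≠ (x h).2 (γ, (x h).1 γ)) := fun h3 => hU (mem_filter.2 ⟨mem_univ _, h3⟩)
            push Not at h2
            rw [h2, hb]
        · rw [if_neg (fun h => hc h.2), if_neg hc]
      have hones : ∀ i, ones (flip (x h1).1 U (x h1).2) i % q = if ζ i = true then 1 else 0 := by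
        intro i
        have h2 : ones (flip (x h1).1 U (x h1).2) i = e i + rest h1 i := by
          unfold ones
          have h3 : ∀ r : Fin q, (∑ c : C, if flip (x h1).1 U (x h1).2 ((i, r), c) = true then 1 else 0) =
              (if r.val < e i then 1 else 0) +
                ∑ c ∈ univ.erase ((x h1).1 (i, r)), if (x h1).2 ((i, r), c) = true then 1 else 0 := by
            intro r
            rw [← add_sum_erase univ _ (mem_univ ((x h1).1 (i, r)))]
            congr 1
            · rw [hfl, if_pos rfl]
              show (if decide (r.val < e i) = true then 1 else 0) = _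
              simp
            · refine sum_congr rfl fun c hc => ?_
              rw [hfl, if_neg (ne_of_mem_erase hc)]
          rw [sum_congr rfl fun r _ => h3 r, sum_add_distrib]
          congr 1
          rw [← card_filter]
          have h4 : e i < q := Nat.mod_lt _ hq0
          have h5 : (univ.filter fun r : Fin q => r.val < e i).card = e i := by
            have h6 := Fin.card_filter_val_lt (n := q) (m := e i)
            rw [h6]
            omega
          exact h5
        rw [h2]
        apply mod_aux q _ _ _ hq0 _ (hr i).symm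
        split_ifs
        · omega
        · omega
      rw [← hσ h1 _ ζ hones]
      refine (hφ _).trans ?_
      congr 1
      funext i
      exact (DFormula.eval_subst _ _ _).symm
    rw [hval h (fun _ => rfl) (fun _ => rfl), hval h' e2 e3]
    congr 1
    funext i
    exact e1 i U
  -- counting the codes
  have hle := Fintype.card_le_of_injective code hcode
  rw [Fintype.card_fun, Fintype.card_bool, Fintype.card_fun, Fintype.card_bool, Fintype.card_fin,
    Fintype.card_prod, Fintype.card_prod, Fintype.card_fun, Fintype.card_fun, Fintype.card_fun,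
    Fintype.card_fun, Fintype.card_bool, Fintype.card_fin, Fintype.card_fin, Fintype.card_fin, hΓ] at hle
  have hsm := card_small (Γ := Γ) d
  rw [hΓ] at hsm
  have h1 : q ^ k ≤ 2 ^ (k * q) := by
    rw [mul_comm, pow_mul]
    exact Nat.pow_le_pow_left Nat.lt_two_pow_self.le _
  have h2 : (2 ^ Fintype.card {U : Finset Γ // U.card < d}) ^ M ≤ 2 ^ ((k * q + 1) ^ d * M) := by
    rw [← pow_mul]
    exact Nat.pow_le_pow_right (by norm_num) (Nat.mul_le_mul_right _ hsm)
  have h3 : 2 ^ 2 ^ k ≤ 2 ^ ((k * q + 1) ^ d * M + (k * q + k * q)) := by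
    rw [pow_add, pow_add]
    exact hle.trans (Nat.mul_le_mul h2 (Nat.mul_le_mul_left _ h1))
  have h4 := (Nat.pow_le_pow_iff_right (by norm_num : 1 < 2)).1 h3
  calc 2 ^ k ≤ (k * q + 1) ^ d * M + (k * q + k * q) := h4
    _ = M * (k * q + 1) ^ d + 2 * (k * q) := by ring

end Hard

end Pool.Agent.Helper97.DM
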