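import Pool.Agent.Helper97.DM.Elim
import Pool.Agent.Helper97.DM.Hard
import Pool.Agent.Helper97.Form.ModMany

/-!
# The permanent modulo `m` contains all functions of sums of many entries
-/

set_option autoImplicit false
set_option linter.unusedSectionVars false

namespace Pool.Agent.Helper97.DM

open Finset Pool.Agent.Helper97.Form Pool.Agent.Helper97.Boo

section Affine

variable {ι A : Type} [Fintype ι] [DecidableEq ι] [CommRing A] {t : ℕ}

theorem plug_update (N : Matrix ι ι A) (r c : Fin t → ι) (z : Fin t → A) (k : Fin t) :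
    plug N r c z = addE (plug N r c (Function.update z k 0)) (r k) (c k) (z k) := by
  ext i j
  show N i j + (∑ e, if r e = i ∧ c e = j then z e else 0) =
    N i j + (∑ e, if r e = i ∧ c e = j then Function.update z k 0 e else 0) +
      if i = r k ∧ j = c k then z k else 0
  rw [← add_sum_erase univ (fun e => if r e = i ∧ c e = j then z e else 0) (mem_univ k),
    ← add_sum_erase univ (fun e => if r e = i ∧ c e = j then Function.update z k 0 e else 0) (mem_univ k),
    Function.update_self]
  have h1 : ∑ e ∈ univ.erase k, (if r e = i ∧ c e = j then Function.update z k 0 e else 0) =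
      ∑ e ∈ univ.erase k, if r e = i ∧ c e = j then z e else 0 := by
    refine sum_congr rfl fun e he => ?_
    rw [Function.update_of_ne (ne_of_mem_erase he)]
  rw [h1]
  have h2 : (if r k = i ∧ c k = j then z k else 0) = if i = r k ∧ j = c k then z k else 0 := by
    by_cases h : r k = i ∧ c k = j
    · rw [if_pos h, if_pos ⟨h.1.symm, h.2.symm⟩]
    · rw [if_neg h, if_neg fun h' => h ⟨h'.1.symm, h'.2.symm⟩]
  have h3 : (if r k = i ∧ c k = j then (0 : A) else 0) = 0 := by
    split_ifs <;> rfl
  rw [h2, h3]
  ring

/-- Two multi-affine functions which agree on the cube agree everywhere. -/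
theorem affine_ext (N : Matrix ι ι A) (r c : Fin t → ι) (G : (Fin t → A) → A)
    (hG : ∀ z k, G z = (1 - z k) * G (Function.update z k 0) + z k * G (Function.update z k 1))
    (h01 : ∀ ζ : Fin t → Bool, (plug N r c fun k => if ζ k = true then 1 else 0).permanent =
      G fun k => if ζ k = true then 1 else 0) (z : Fin t → A) : (plug N r c z).permanent = G z := by
  classical
  have hP : ∀ (z : Fin t → A) k, (plug N r c z).permanent =
      (1 - z k) * (plug N r c (Function.update z k 0)).permanent +
        z k * (plug N r c (Function.update z k 1)).permanent := by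
    intro z k
    have h1 := plug_update N r c z k
    have h2 := plug_update N r c (Function.update z k 1) k
    rw [Function.update_idem, Function.update_self] at h2
    rw [h1, h2, permanent_addE, permanent_addE]
    ring
  have key : ∀ (s : Finset (Fin t)) (z : Fin t → A), (∀ k, k ∉ s → z k = 0 ∨ z k = 1) →
      (plug N r c z).permanent = G z := by
    intro s
    induction s using Finset.induction_on with
    | empty =>
      intro z hz
      have e : z = fun k => if decide (z k = 1) = true then 1 else 0 := by
        funext k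
        rcases hz k (notMem_empty k) with h | h
        · by_cases h' : z k = 1
          · simp [h']
          · simp only [h', decide_false, Bool.false_eq_true, if_false]
            exact h
        · simp [h]
      rw [e]
      exact h01 _
    | insert k s hk ih =>
      intro z hz
      rw [hP z k, hG z k, ih, ih]
      · intro k' hk'
        by_cases h : k' = k
        · subst h
          rw [Function.update_self]
          exact Or.inr rfl
        · rw [Function.update_of_ne h]
          exact hz k' (by simp [h, hk'])
      · intro k' hk'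
        by_cases h : k' = k
        · subst h
          rw [Function.update_self]
          exact Or.inl rfl
        · rw [Function.update_of_ne h]
          exact hz k' (by simp [h, hk'])
  exact key univ z fun k hk => absurd (mem_univ k) hk

end Affine

section Net

variable {n0 t q w : ℕ}

/-- The index type of the big matrix. -/
abbrev WW (n0 t q w rest : ℕ) : Type :=
  ((Fin n0 ⊕ (Fin t × (Fin q × Fin w))) ⊕ (Fin t × Fin w)) ⊕ Fin rest

/-- The entries of the big matrix: variables or constants. -/
def sig (N : Fin n0 × Fin n0 → Bool) (r c : Fin t → Fin n0) (rest : ℕ) :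
    WW n0 t q w rest → WW n0 t q w rest → ((Fin t × Fin q) × (Fin w × Fin w)) ⊕ Bool
  | Sum.inl (Sum.inl (Sum.inl p)), Sum.inl (Sum.inl (Sum.inl p')) => Sum.inr (N (p, p'))
  | Sum.inl (Sum.inl (Sum.inl p)), Sum.inl (Sum.inl (Sum.inr v)) => Sum.inr (decide (r v.1 = p))
  | Sum.inl (Sum.inl (Sum.inl _)), Sum.inl (Sum.inr _) => Sum.inr false
  | Sum.inl (Sum.inl (Sum.inl _)), Sum.inr _ => Sum.inr false
  | Sum.inl (Sum.inl (Sum.inr _)), Sum.inl (Sum.inl (Sum.inl _)) => Sum.inr false
  | Sum.inl (Sum.inl (Sum.inr v)), Sum.inl (Sum.inl (Sum.inr v')) => Sum.inr (decide (v = v'))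
  | Sum.inl (Sum.inl (Sum.inr v)), Sum.inl (Sum.inr u) =>
      if v.1 = u.1 then Sum.inl ((v.1, v.2.1), (v.2.2, u.2)) else Sum.inr false
  | Sum.inl (Sum.inl (Sum.inr _)), Sum.inr _ => Sum.inr false
  | Sum.inl (Sum.inr u), Sum.inl (Sum.inl (Sum.inl p')) => Sum.inr (decide (c u.1 = p'))
  | Sum.inl (Sum.inr _), Sum.inl (Sum.inl (Sum.inr _)) => Sum.inr false
  | Sum.inl (Sum.inr u), Sum.inl (Sum.inr u') => Sum.inr (decide (u = u'))
  | Sum.inl (Sum.inr _), Sum.inr _ => Sum.inr false
  | Sum.inr _, Sum.inl _ => Sum.inr false
  | Sum.inr x, Sum.inr x' => Sum.inr (decide (x = x'))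

/-- value of a bit -/
def bv {A : Type} [CommRing A] (b : Bool) : A := if b = true then 1 else 0

theorem bv_decide {A : Type} [CommRing A] (P : Prop) [Decidable P] :
    (bv (decide P) : A) = if P then 1 else 0 := by
  unfold bv
  simp

theorem big_perm {A : Type} [CommRing A] (N : Fin n0 × Fin n0 → Bool) (r c : Fin t → Fin n0)
    (rest : ℕ) (β : (Fin t × Fin q) × (Fin w × Fin w) → Bool) :
    (Matrix.of fun i j : WW n0 t q w rest => (bv ((sig N r c rest i j).elim β id) : A)).permanent =
      (plug (Matrix.of fun i j => (bv (N (i, j)) : A)) r c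
        fun k => ((ones β k : ℕ) : A)).permanent := by
  classical
  -- remove the identity block
  have e1 : (Matrix.of fun i j : WW n0 t q w rest => (bv ((sig N r c rest i j).elim β id) : A)) =
      padM (Fin rest) (Matrix.of fun i j : (Fin n0 ⊕ (Fin t × (Fin q × Fin w))) ⊕ (Fin t × Fin w) =>
        (bv ((sig N r c rest (Sum.inl i) (Sum.inl j)).elim β id) : A)) := by
    ext (i | x) (j | x')
    · rfl
    · rcases i with (p | v) | u
      · rfl
      · rfl
      · rfl
    · rfl
    · exact bv_decide _
  rw [e1, padM_permanent]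
  -- first elimination
  rw [elim_fam (fun i j => bv ((sig N r c rest (Sum.inl (Sum.inl i)) (Sum.inl (Sum.inl j))).elim β id))
    (fun i u => bv ((sig N r c rest (Sum.inl (Sum.inl i)) (Sum.inl (Sum.inr u))).elim β id))
    (fun u => Sum.inl (c u.1)) (fun _ => 1) _ (fun i j => rfl) (fun i u => rfl)]
  rotate_left
  · rintro u (p' | v')
    · show (bv (decide (c u.1 = p')) : A) = _
      rw [bv_decide]
      simp only [Sum.inl.injEq]
    · show (0 : A) = _
      rw [if_neg (by simp)]
  · intro u u'
    exact bv_decide _
  -- second elimination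
  rw [elim_fam (fun i j => bv (N (i, j))) (fun i v => if r v.1 = i then 1 else 0) (fun v => c v.1)
    (fun v => ∑ b : Fin w, bv (β ((v.1, v.2.1), (v.2.2, b))))]
  · -- the result
    congr 1
    ext i j
    show bv (N (i, j)) + (∑ v : Fin t × (Fin q × Fin w), if c v.1 = j then (if r v.1 = i then (1 : A) else 0) *
      ∑ b : Fin w, bv (β ((v.1, v.2.1), (v.2.2, b))) else 0) =
        bv (N (i, j)) + ∑ k, if r k = i ∧ c k = j then ((ones β k : ℕ) : A) else 0
    congr 1
    rw [Fintype.sum_prod_type]
    refine sum_congr rfl fun k _ => ?_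
    by_cases h : r k = i ∧ c k = j
    · rw [if_pos h]
      obtain ⟨h1, h2⟩ := h
      simp only [h1, h2, if_true, one_mul]
      unfold ones
      push_cast
      rw [Fintype.sum_prod_type]
      refine sum_congr rfl fun ρ _ => ?_
      rw [Fintype.sum_prod_type]
      rfl
    · rw [if_neg h]
      refine sum_eq_zero fun x _ => ?_
      by_cases h2 : c k = j
      · have h1 : r k ≠ i := fun h1 => h ⟨h1, h2⟩
        simp only [h1, if_false, zero_mul, ite_self]
      · simp only [h2, if_false]
  · intro i j
    show bv (N (i, j)) + (∑ u : Fin t × Fin w, if Sum.inl (c u.1) = (Sum.inl j : Fin n0 ⊕ (Fin t × (Fin q × Fin w)))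
      then (0 : A) * 1 else 0) = bv (N (i, j))
    simp
  · intro i v
    show bv (decide (r v.1 = i)) + (∑ u : Fin t × Fin w, if Sum.inl (c u.1) =
      (Sum.inr v : Fin n0 ⊕ (Fin t × (Fin q × Fin w))) then (0 : A) * 1 else 0) = if r v.1 = i then 1 else 0
    rw [bv_decide]
    simp
  · intro v j
    show (0 : A) + (∑ u : Fin t × Fin w, if Sum.inl (c u.1) = (Sum.inl j : Fin n0 ⊕ (Fin t × (Fin q × Fin w)))
      then bv ((sig N r c rest (Sum.inl (Sum.inl (Sum.inr v))) (Sum.inl (Sum.inr u))).elim β id) * 1 else 0) =
        if c v.1 = j then ∑ b : Fin w, bv (β ((v.1, v.2.1), (v.2.2, b))) else 0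
    rw [zero_add, Fintype.sum_prod_type, Finset.sum_eq_single v.1]
    · by_cases h : c v.1 = j
      · rw [if_pos h]
        refine sum_congr rfl fun b _ => ?_
        rw [if_pos (by rw [h])]
        show bv (Sum.elim β id (if v.1 = v.1 then Sum.inl ((v.1, v.2.1), (v.2.2, b)) else Sum.inr false)) * 1 = _
        rw [if_pos rfl, mul_one]
        rfl
      · rw [if_neg h]
        refine sum_eq_zero fun b _ => ?_
        rw [if_neg]
        intro h'
        exact h (Sum.inl_injective h')
    · intro k _ hk
      refine sum_eq_zero fun b _ => ?_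
      have : bv (A := A) (Sum.elim β id (sig N r c rest (Sum.inl (Sum.inl (Sum.inr v))) (Sum.inl (Sum.inr (k, b))))) = 0 := by
        show bv (Sum.elim β id (if v.1 = k then Sum.inl ((v.1, v.2.1), (v.2.2, b)) else Sum.inr false)) = 0
        rw [if_neg (Ne.symm hk)]
        rfl
      rw [this, zero_mul, ite_self]
    · intro h
      exact absurd (mem_univ _) h
  · intro v v'
    show bv (decide (v = v')) + (∑ u : Fin t × Fin w, if Sum.inl (c u.1) =
      (Sum.inr v' : Fin n0 ⊕ (Fin t × (Fin q × Fin w)))
      then bv ((sig N r c rest (Sum.inl (Sum.inl (Sum.inr v))) (Sum.inl (Sum.inr u))).elim β id) * 1 else 0) =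
        if v = v' then (1 : A) else 0
    rw [bv_decide]
    simp

end Net

end Pool.Agent.Helper97.DM
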