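import Pool.Agent.Helper97.DM.Gad

/-!
# The instance
-/

set_option autoImplicit false
set_option linter.unusedSectionVars false

namespace Pool.Agent.Helper97.DM

open Finset Pool.Agent.Helper97.Form Pool.Agent.Helper97.Boo

/-- the value of the controls -/
def ctrl {A : Type} [CommSemiring A] {t L : ℕ} (keep : Fin t → QQ L) (y : RC L → Bool) (z : Fin t → A) : A :=
  ∑ rc : RC L, (if y rc = true then 1 else 0) * ∏ k ∈ kept keep rc, (1 + z k)

theorem ctrl_cast {A : Type} [CommRing A] {t L : ℕ} (keep : Fin t → QQ L) (y : RC L → Bool)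
    (z : Fin t → ℕ) : ((ctrl keep y z : ℕ) : A) = ctrl keep y fun k => ((z k : ℕ) : A) := by
  unfold ctrl
  push_cast
  rfl

theorem ctrl_affine {A : Type} [CommRing A] {t L : ℕ} (keep : Fin t → QQ L) (y : RC L → Bool)
    (z : Fin t → A) (k : Fin t) : ctrl keep y z = (1 - z k) * ctrl keep y (Function.update z k 0) +
      z k * ctrl keep y (Function.update z k 1) := by
  unfold ctrl
  rw [mul_sum, mul_sum, ← sum_add_distrib]
  refine sum_congr rfl fun rc _ => ?_
  have h1 : ∏ i ∈ kept keep rc, (1 + z i) =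
      (1 - z k) * ∏ i ∈ kept keep rc, (1 + Function.update z k 0 i) +
        z k * ∏ i ∈ kept keep rc, (1 + Function.update z k 1 i) := by
    by_cases hk : k ∈ kept keep rc
    · rw [← mul_prod_erase _ _ hk, ← mul_prod_erase (kept keep rc) (fun i => 1 + Function.update z k 0 i) hk,
        ← mul_prod_erase (kept keep rc) (fun i => 1 + Function.update z k 1 i) hk,
        Function.update_self, Function.update_self]
      have h2 : ∀ u : A, ∏ i ∈ (kept keep rc).erase k, (1 + Function.update z k u i) =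
          ∏ i ∈ (kept keep rc).erase k, (1 + z i) := by
        intro u
        refine prod_congr rfl fun i hi => ?_
        rw [Function.update_of_ne (ne_of_mem_erase hi)]
      rw [h2, h2]
      ring
    · have h2 : ∀ u : A, ∏ i ∈ kept keep rc, (1 + Function.update z k u i) =
          ∏ i ∈ kept keep rc, (1 + z i) := by
        intro u
        refine prod_congr rfl fun i hi => ?_
        rw [Function.update_of_ne]
        rintro rfl
        exact hk hi
      rw [h2, h2]
      ring
  rw [h1]
  ring

theorem ctrl_bits {A : Type} [CommRing A] {t L : ℕ} (keep : Fin t → QQ L)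
    (hkeep : Function.Injective keep) (y : RC L → Bool) (ζ : Fin t → Bool) :
    ctrl keep y (fun k => if ζ k = true then (1 : A) else 0) =
      ∑ rc : RC L, (if y rc = true then 1 else 0) *
        ∏ b ∈ UU rc, (1 + if ∃ k, keep k = b ∧ ζ k = true then (1 : A) else 0) := by
  unfold ctrl
  refine sum_congr rfl fun rc _ => ?_
  rw [prod_kept keep hkeep]

theorem inst (q a j s n w : ℕ) (hq : 3 ≤ q) (hodd : q % 2 = 1) (hj : q - 1 ≤ 4 ^ j)
    (hn : 12 * 2 ^ (s + j) * (q - 1) + 2 * a + 2 * s * (q * w) + 2 * s * w ≤ n)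
    (h : (Fin (2 * s) → Bool) → Bool) :
    ∃ σ : Fin n × Fin n → ((Fin (2 * s) × Fin q) × (Fin w × Fin w)) ⊕ Bool,
      ∀ (β : (Fin (2 * s) × Fin q) × (Fin w × Fin w) → Bool) (ζ : Fin (2 * s) → Bool),
        (∀ i, ones β i % q = if ζ i = true then 1 else 0) →
          decide (2 ^ a * q ∣ perm01 n fun v => (σ v).elim β id) = h ζ := by
  classical
  have : NeZero q := ⟨by omega⟩
  have : Fact (1 < q) := ⟨by omega⟩
  set n0 := 12 * 2 ^ (s + j) * (q - 1) + 2 * a with hn0
  -- the positions
  have h2s : 2 * s ≤ n0 := by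
    have h1 : s + j < 2 ^ (s + j) := Nat.lt_two_pow_self
    have h2 : 12 * 2 ^ (s + j) ≤ 12 * 2 ^ (s + j) * (q - 1) := Nat.le_mul_of_pos_right _ (by omega)
    omega
  let r : Fin (2 * s) → Fin n0 := fun k => ⟨k.val, by have := k.2; omega⟩
  have hr : Function.Injective r := by
    intro k k' e
    have h' : (r k).val = (r k').val := by rw [e]
    exact Fin.ext h'
  let keep : Fin (2 * s) → QQ (s + j) := fun k => ⟨k.val, by have := k.2; omega⟩
  have hkeep : Function.Injective keep := by
    intro k k' h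
    have h' : (keep k).val = (keep k').val := by rw [h]
    exact Fin.ext h'
  obtain ⟨X, hX1, hX2, hX3⟩ := placedMod q a (s + j) n0 (2 * s) hq hodd le_rfl keep hkeep r r hr hr
  obtain ⟨y, hy⟩ := exists_pattern q j s hq hj keep hkeep fun B => h fun k => decide (k ∈ B)
  let N : Fin n0 × Fin n0 → Bool := X y fun _ => false
  -- the value of the controls
  let G : (Fin (2 * s) → ZMod (2 ^ a * q)) → ZMod (2 ^ a * q) := fun z => 2 ^ a * ctrl keep y z
  have hGaff : ∀ (z : Fin (2 * s) → ZMod (2 ^ a * q)) k, G z = (1 - z k) * G (Function.update z k 0) +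
      z k * G (Function.update z k 1) := by
    intro z k
    show 2 ^ a * ctrl keep y z = (1 - z k) * (2 ^ a * ctrl keep y (Function.update z k 0)) +
      z k * (2 ^ a * ctrl keep y (Function.update z k 1))
    rw [ctrl_affine keep y z k]
    ring
  have hG1 : ∀ z : Fin (2 * s) → ℕ, G (fun k => ((z k : ℕ) : ZMod (2 ^ a * q))) =
      ((2 ^ a * ctrl keep y z : ℕ) : ZMod (2 ^ a * q)) := by
    intro z
    rw [Nat.cast_mul, ctrl_cast, Nat.cast_pow, Nat.cast_ofNat]
  -- agreement on the cube
  have h01 : ∀ ζ : Fin (2 * s) → Bool, (plug (Matrix.of fun i j => (bv (N (i, j)) : ZMod (2 ^ a * q))) r r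
      fun k => if ζ k = true then 1 else 0).permanent = G fun k => if ζ k = true then 1 else 0 := by
    intro ζ
    obtain ⟨T, hT1, hT2⟩ := hX3 y ζ
    have e1 : (plug (Matrix.of fun i j => (bv (N (i, j)) : ZMod (2 ^ a * q))) r r fun k => if ζ k = true then 1 else 0) =
        Matrix.of fun i j => (((if X y ζ (i, j) = true then 1 else 0 : ℕ)) : ZMod (2 ^ a * q)) := by
      ext i j
      show (bv (N (i, j)) : ZMod (2 ^ a * q)) + (∑ e, if r e = i ∧ r e = j then (if ζ e = true then (1 : ZMod (2 ^ a * q)) else 0) else 0) =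
        ((if X y ζ (i, j) = true then 1 else 0 : ℕ) : ZMod (2 ^ a * q))
      push_cast
      by_cases hp : ∃ k, i = r k ∧ j = r k
      · obtain ⟨k, rfl, rfl⟩ := hp
        have h1 : N (r k, r k) = false := hX1 y (fun _ => false) k
        rw [h1, hX1 y ζ k, Finset.sum_eq_single k]
        · simp [bv]
        · intro k' _ hk'
          rw [if_neg fun h => hk' (hr h.1)]
        · intro h
          exact absurd (mem_univ _) h
      · have h1 : N (i, j) = X y ζ (i, j) := hX2 y _ _ _ fun k hk => by
          rw [Prod.mk.injEq] at hk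
          exact hp ⟨k, hk⟩
        rw [h1, sum_eq_zero, add_zero]
        · rfl
        · intro k _
          rw [if_neg]
          rintro ⟨h2, h3⟩
          exact hp ⟨k, h2.symm, h3.symm⟩
    have e2 : (Matrix.of fun i j => (((if X y ζ (i, j) = true then 1 else 0 : ℕ)) : ZMod (2 ^ a * q))).permanent =
        ((perm01 n0 (X y ζ) : ℕ) : ZMod (2 ^ a * q)) := by
      unfold perm01
      rw [cast_permanent]
      rfl
    have e3 : (fun k => if ζ k = true then (1 : ZMod (2 ^ a * q)) else 0) =
        fun k => (((if ζ k = true then 1 else 0 : ℕ)) : ZMod (2 ^ a * q)) := by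
      funext k
      push_cast
      rfl
    rw [e1, e2, e3, hG1, hT1]
    have e4 : (T : ZMod q) = ((ctrl keep y (fun k => if ζ k = true then 1 else 0) : ℕ) : ZMod q) := by
      rw [hT2, ctrl_cast, ← ctrl_bits keep hkeep]
      congr 1
      funext k
      push_cast
      rfl
    rw [ZMod.natCast_eq_natCast_iff] at e4
    show ((2 ^ a * T : ℕ) : ZMod (2 ^ a * q)) = _
    rw [ZMod.natCast_eq_natCast_iff]
    exact Nat.ModEq.mul_left' _ e4
  -- the big matrix
  have hcard : Fintype.card (Fin n) =
      Fintype.card (WW n0 (2 * s) q w (n - (n0 + 2 * s * (q * w) + 2 * s * w))) := by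
    simp only [Fintype.card_sum, Fintype.card_prod, Fintype.card_fin]
    omega
  let e : Fin n ≃ WW n0 (2 * s) q w (n - (n0 + 2 * s * (q * w) + 2 * s * w)) :=
    Fintype.equivOfCardEq hcard
  refine ⟨fun v => sig N r r _ (e v.1) (e v.2), fun β ζ hζ => ?_⟩
  have hperm : ((perm01 n (fun v => (sig N r r _ (e v.1) (e v.2)).elim β id) : ℕ) : ZMod (2 ^ a * q)) =
      ((2 ^ a * ctrl keep y (fun k => ones β k) : ℕ) : ZMod (2 ^ a * q)) := by
    have e5 : ((perm01 n (fun v => (sig N r r _ (e v.1) (e v.2)).elim β id) : ℕ) : ZMod (2 ^ a * q)) =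
        (Matrix.of fun i j => (bv ((sig N r r (n - (n0 + 2 * s * (q * w) + 2 * s * w)) i j).elim β id) : ZMod (2 ^ a * q))).permanent := by
      unfold perm01
      rw [cast_permanent, ← permanent_reindex e e]
      congr 1
      ext i j
      show ((if Sum.elim β id (sig N r r _ (e i) (e j)) = true then 1 else 0 : ℕ) : ZMod (2 ^ a * q)) =
        bv (Sum.elim β id (sig N r r _ (e i) (e j)))
      unfold bv
      push_cast
      rfl
    rw [e5, big_perm, affine_ext _ _ _ G hGaff h01, hG1]
  have hG2 : ((ctrl keep y (fun k => ones β k) : ℕ) : ZMod q) = if h ζ = true then 0 else 1 := by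
    have h1 := hy ζ
    have h2 : (fun k => decide (k ∈ univ.filter fun k => ζ k = true)) = ζ := by
      funext k
      simp
    rw [h2] at h1
    rw [← h1, ← ctrl_bits keep hkeep, ctrl_cast]
    congr 1
    funext k
    have h3 : ((ones β k : ℕ) : ZMod q) = ((ones β k % q : ℕ) : ZMod q) := (ZMod.natCast_mod _ _).symm
    rw [h3, hζ k]
    push_cast
    rfl
  have hdvd : 2 ^ a * q ∣ perm01 n (fun v => (sig N r r _ (e v.1) (e v.2)).elim β id) ↔ h ζ = true := by
    rw [← ZMod.natCast_eq_zero_iff]
    show ((perm01 n (fun v => (sig N r r _ (e v.1) (e v.2)).elim β id) : ℕ) : ZMod (2 ^ a * q)) = 0 ↔ _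
    rw [hperm]
    show ((2 ^ a * ctrl keep y (fun k => ones β k) : ℕ) : ZMod (2 ^ a * q)) = 0 ↔ _
    rw [ZMod.natCast_eq_zero_iff, Nat.mul_dvd_mul_iff_left (by positivity), ← ZMod.natCast_eq_zero_iff, hG2]
    by_cases h5 : h ζ = true
    · simp [h5]
    · simp [h5]
  rw [Bool.eq_iff_iff, decide_eq_true_eq]
  exact hdvd

end Pool.Agent.Helper97.DM
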