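import Pool.Agent.Helper97.DM.Inst
import Pool.Agent.Helper97.DM.Num
import Pool.Agent.Helper97.Form.BoolBlocks

/-!
# De Morgan formulas for the divisibility of the permanent by `m` have size at least `n ^ (6 - ε)`
-/

set_option autoImplicit false

namespace Pool.Agent.Helper97.DM

open Finset Pool.Agent.Helper97.Form Pool.Agent.Helper97.Boo

theorem large (m : ℕ) (hm : m ≠ 0) (hm2 : ∀ k : ℕ, m ≠ 2 ^ k) (δ : ℝ) (hδ : 0 < δ) (hδ1 : δ ≤ 1 / 4) :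
    ∃ n₀ : ℕ, ∀ n : ℕ, n₀ ≤ n → ∀ φ : DFormula (Fin n × Fin n),
      (∀ X, φ.eval X = decide (m ∣ perm01 n X)) → (n : ℝ) ^ (6 - 4 * δ) ≤ φ.size := by
  obtain ⟨a, q, hq, rfl⟩ := Nat.exists_eq_two_pow_mul_odd hm
  have hq1 : q ≠ 1 := by
    rintro rfl
    exact hm2 a (mul_one _)
  obtain ⟨q', hq'⟩ := hq
  have hq3 : 3 ≤ q := by omega
  obtain ⟨j, hj⟩ : ∃ j, q - 1 ≤ 4 ^ j := ⟨q - 1, (Nat.lt_pow_self (by norm_num)).le⟩
  obtain ⟨d, n₀, H⟩ := numeric (12 * 2 ^ j * (q - 1) + 2 * a + 1) q 1 (by omega) (by omega) le_rfl δ hδ hδ1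
  refine ⟨n₀, fun n hn φ hφ => ?_⟩
  obtain ⟨s, w, κ, T0, t, -, h1, h2, h3, h4, h5, h6⟩ := H n hn
  simp only [one_mul] at h6
  by_contra hcon
  push Not at hcon
  have h7 := h6 φ.size hcon
  have hC : Fintype.card (Fin w × Fin w) = w * w := by
    rw [Fintype.card_prod, Fintype.card_fin]
  have : Nonempty (Fin w × Fin w) := ⟨(⟨0, h2⟩, ⟨0, h2⟩)⟩
  obtain ⟨M, hM1, hM2⟩ := hard (C := Fin w × Fin w) φ (2 * s) q d t T0 κ (by omega) h3 (by
      intro h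
      obtain ⟨σ, hσ⟩ := inst q a j s n w hq3 (by omega) hj (by
        refine le_trans ?_ h1
        have e1 : 12 * 2 ^ (s + j) * (q - 1) = 12 * 2 ^ j * (q - 1) * 2 ^ s := by
          rw [pow_add]
          ring
        have e2 : 2 * a ≤ 2 * a * 2 ^ s := Nat.le_mul_of_pos_right _ (by positivity)
        have e3 : (12 * 2 ^ j * (q - 1) + 2 * a + 1) * 2 ^ s =
            12 * 2 ^ j * (q - 1) * 2 ^ s + 2 * a * 2 ^ s + 2 ^ s := by ring
        have e4 : 2 * s * (q * w) + 2 * s * w ≤ 4 * s * q * w := by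
          have e5 : 2 * s * w ≤ 2 * s * w * q := Nat.le_mul_of_pos_right _ (by omega)
          calc 2 * s * (q * w) + 2 * s * w ≤ 2 * s * (q * w) + 2 * s * w * q := by omega
            _ = 4 * s * q * w := by ring
        have e6 : 1 ≤ 2 ^ s := Nat.one_le_two_pow
        rw [e1, e3]
        omega) h
      refine ⟨σ, fun β ζ hζ => ?_⟩
      rw [hφ]
      exact hσ β ζ hζ) h4 h5 (by
      intro M hM
      rw [hC]
      exact (h7 M hM).1)
  exact absurd (h7 M hM1).2 (not_lt.2 hM2)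

theorem main (m : ℕ) (hm : m ≠ 0) (hm2 : ∀ k : ℕ, m ≠ 2 ^ k) (ε : ℝ) (hε : 0 < ε) :
    ∃ c : ℝ, 0 < c ∧ ∀ n : ℕ, 1 ≤ n → ∀ φ : DFormula (Fin n × Fin n),
      (∀ X, φ.eval X = decide (m ∣ perm01 n X)) → c * (n : ℝ) ^ (6 - ε) ≤ φ.size := by
  obtain ⟨n₀, H⟩ := large m hm hm2 (min ε 1 / 4) (by positivity) (by
    have := min_le_right ε 1
    linarith)
  refine ⟨1 / ((n₀ : ℝ) + 1) ^ 6, by positivity, fun n hn φ hφ => ?_⟩
  have hn1 : (1 : ℝ) ≤ n := by exact_mod_cast hn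
  have hm1 : ¬ (m ∣ 1) := by
    intro h
    exact hm2 0 (Nat.dvd_one.1 h)
  have hsz : 1 ≤ φ.size := by
    by_contra hcon
    have h1 := DFormula.eval_const φ (by omega) (fun _ => false) fun v => decide (v.1 = v.2)
    rw [hφ, hφ, perm01_zero n hn, perm01_one] at h1
    simp [hm1] at h1
  rcases Nat.lt_or_ge n n₀ with h | h
  · have h1 : (n : ℝ) ^ (6 - ε) ≤ ((n₀ : ℝ) + 1) ^ 6 := by
      calc (n : ℝ) ^ (6 - ε) ≤ (n : ℝ) ^ ((6 : ℕ) : ℝ) :=
            Real.rpow_le_rpow_of_exponent_le hn1 (by push_cast; linarith)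
        _ = (n : ℝ) ^ 6 := Real.rpow_natCast _ _
        _ ≤ ((n₀ : ℝ) + 1) ^ 6 := by
            apply pow_le_pow_left₀ (by positivity)
            have : (n : ℝ) ≤ n₀ := by exact_mod_cast h.le
            linarith
    have h2 : (1 : ℝ) ≤ φ.size := by exact_mod_cast hsz
    calc 1 / ((n₀ : ℝ) + 1) ^ 6 * (n : ℝ) ^ (6 - ε) ≤ 1 / ((n₀ : ℝ) + 1) ^ 6 * ((n₀ : ℝ) + 1) ^ 6 :=
          mul_le_mul_of_nonneg_left h1 (by positivity)
      _ = 1 := by field_simp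
      _ ≤ φ.size := h2
  · have h1 := H n h φ hφ
    have h2 : (n : ℝ) ^ (6 - ε) ≤ (n : ℝ) ^ (6 - 4 * (min ε 1 / 4)) :=
      Real.rpow_le_rpow_of_exponent_le hn1 (by
        have := min_le_left ε 1
        linarith)
    have h3 : (1 : ℝ) / ((n₀ : ℝ) + 1) ^ 6 ≤ 1 := by
      rw [div_le_one (by positivity)]
      exact one_le_pow₀ (by linarith [Nat.cast_nonneg (α := ℝ) n₀])
    calc 1 / ((n₀ : ℝ) + 1) ^ 6 * (n : ℝ) ^ (6 - ε) ≤ 1 * (n : ℝ) ^ (6 - ε) :=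
          mul_le_mul_of_nonneg_right h3 (by positivity)
      _ = (n : ℝ) ^ (6 - ε) := one_mul _
      _ ≤ φ.size := h2.trans h1

end Pool.Agent.Helper97.DM
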