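import Pool.Agent.Helper97.DM.Defs

/-!
# Every De Morgan formula is a network with flows and potentials of small energy
-/

set_option autoImplicit false

namespace Pool.Agent.Helper97.DM

open Finset

variable {V : Type}

/-- The function `f` is given by a subspace of `ℝ × ℝ ^ E`: the inputs with value `true` have a
vector in the subspace (a flow) and the others a vector orthogonal to it (a potential), both with
small energy. -/
def Net (L : ℕ) (f : (V → Bool) → Bool) : Prop :=
  ∃ (E : Type) (_ : Fintype E) (lab : E → V × Bool), Fintype.card E = L ∧ ∀ t : ℝ, 0 < t →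
    ∃ K : Submodule ℝ (Option E → ℝ),
      (∀ X, f X = true → ∃ w ∈ K, w none = 1 ∧ (∀ e, X (lab e).1 ≠ (lab e).2 → w (some e) = 0) ∧
        ∑ e, w (some e) ^ 2 ≤ t) ∧
      (∀ X, f X = false → ∃ w : Option E → ℝ, (∀ u ∈ K, ∑ i, w i * u i = 0) ∧ w none = 1 ∧
        (∀ e, X (lab e).1 = (lab e).2 → w (some e) = 0) ∧ ∑ e, w (some e) ^ 2 ≤ L / t)

theorem Net.congr {L : ℕ} {f g : (V → Bool) → Bool} (h : Net L f) (hfg : ∀ X, f X = g X) :
    Net L g := by
  have : f = g := funext hfg
  rwa [← this]

theorem Net.const (b : Bool) : Net 0 (fun _ : V → Bool => b) := by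
  refine ⟨Empty, inferInstance, fun e => e.elim, by simp, fun t ht => ?_⟩
  cases b
  · refine ⟨⊥, fun X h => by simp at h, fun X _ => ⟨fun _ => 1, ?_, rfl, fun e => e.elim, by simp⟩⟩
    intro u hu
    rw [Submodule.mem_bot] at hu
    simp [hu]
  · exact ⟨⊤, fun X _ => ⟨fun _ => 1, Submodule.mem_top, rfl, fun e => e.elim, by simp [ht.le]⟩,
      fun X h => by simp at h⟩

theorem Net.var (v : V) : Net 1 (fun X : V → Bool => X v) := by
  refine ⟨Unit, inferInstance, fun _ => (v, true), by simp, fun t ht => ?_⟩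
  have hs : 0 < Real.sqrt t := Real.sqrt_pos.2 ht
  have hss : Real.sqrt t * Real.sqrt t = t := Real.mul_self_sqrt ht.le
  let w0 : Option Unit → ℝ := fun i => i.elim 1 fun _ => Real.sqrt t
  refine ⟨Submodule.span ℝ {w0}, ?_, ?_⟩
  · intro X hX
    refine ⟨w0, Submodule.mem_span_singleton_self _, rfl, fun e he => absurd hX he, ?_⟩
    rw [Fintype.sum_unique]
    show Real.sqrt t ^ 2 ≤ t
    rw [sq, hss]
  · intro X hX
    refine ⟨fun i => i.elim 1 fun _ => -(Real.sqrt t)⁻¹, ?_, rfl, ?_, ?_⟩
    · intro u hu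
      obtain ⟨c, rfl⟩ := Submodule.mem_span_singleton.1 hu
      rw [Fintype.sum_option, Fintype.sum_unique]
      show 1 * (c * 1) + -(Real.sqrt t)⁻¹ * (c * Real.sqrt t) = 0
      field_simp
      ring
    · intro e he
      have h1 : X v = true := he
      have h2 : X v = false := hX
      rw [h1] at h2
      exact absurd h2 (by decide)
    · rw [Fintype.sum_unique]
      show (-(Real.sqrt t)⁻¹) ^ 2 ≤ ((1 : ℕ) : ℝ) / t
      rw [neg_sq, inv_pow, sq, hss, Nat.cast_one, one_div]

theorem Net.neg {L : ℕ} {f : (V → Bool) → Bool} (h : Net L f) : Net L (fun X => !(f X)) := by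
  obtain ⟨E, _, lab, hcard, h⟩ := h
  refine ⟨E, inferInstance, fun e => ((lab e).1, !(lab e).2), hcard, fun t ht => ?_⟩
  -- the orthogonal complement
  have key : ∀ K : Submodule ℝ (Option E → ℝ), ∃ K' : Submodule ℝ (Option E → ℝ),
      ∀ w, w ∈ K' ↔ ∀ u ∈ K, ∑ i, w i * u i = 0 := by
    intro K
    refine ⟨{ carrier := {w | ∀ u ∈ K, ∑ i, w i * u i = 0}
              add_mem' := ?_
              zero_mem' := ?_
              smul_mem' := ?_ }, fun w => Iff.rfl⟩
    · intro a b ha hb u hu
      simp only [Pi.add_apply, add_mul, sum_add_distrib]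
      rw [ha u hu, hb u hu, add_zero]
    · intro u _
      simp
    · intro c w hw u hu
      simp only [Pi.smul_apply, smul_eq_mul, mul_assoc]
      rw [← mul_sum, hw u hu, mul_zero]
  -- the good energy parameter
  obtain ⟨t', ht', h1, h2⟩ : ∃ t' : ℝ, 0 < t' ∧ ((L : ℝ) = 0 ∨ (L / t' = t ∧ t' = L / t)) ∧ True := by
    rcases Nat.eq_zero_or_pos L with h0 | h0
    · exact ⟨1, one_pos, Or.inl (by exact_mod_cast h0), trivial⟩
    · have hL : (0 : ℝ) < L := by exact_mod_cast h0
      refine ⟨L / t, by positivity, Or.inr ⟨?_, rfl⟩, trivial⟩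
      field_simp
  obtain ⟨K, hK1, hK2⟩ := h t' ht'
  obtain ⟨K', hK'⟩ := key K
  have hzero : (L : ℝ) = 0 → ∀ w : Option E → ℝ, ∑ e, w (some e) ^ 2 = 0 := by
    intro h0 w
    have h0' : L = 0 := by exact_mod_cast h0
    rw [h0'] at hcard
    have := Fintype.card_eq_zero_iff.1 hcard
    rw [Finset.univ_eq_empty, sum_empty]
  refine ⟨K', fun X hX => ?_, fun X hX => ?_⟩
  · have hX' : f X = false := by
      cases h3 : f X
      · rfl
      · simp [h3] at hX
    obtain ⟨w, hw1, hw2, hw3, hw4⟩ := hK2 X hX'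
    refine ⟨w, (hK' w).2 hw1, hw2, fun e he => hw3 e ?_, ?_⟩
    · revert he
      show X (lab e).1 ≠ !(lab e).2 → _
      cases X (lab e).1 <;> cases (lab e).2 <;> simp
    · rcases h1 with h1 | ⟨h1, -⟩
      · rw [hzero h1 w]
        exact ht.le
      · rwa [h1] at hw4
  · have hX' : f X = true := by
      cases h3 : f X
      · simp [h3] at hX
      · rfl
    obtain ⟨w, hw1, hw2, hw3, hw4⟩ := hK1 X hX'
    refine ⟨w, fun u hu => ?_, hw2, fun e he => hw3 e ?_, ?_⟩
    · rw [← (hK' u).1 hu w hw1]
      exact sum_congr rfl fun i _ => mul_comm _ _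
    · revert he
      show X (lab e).1 = !(lab e).2 → _
      cases X (lab e).1 <;> cases (lab e).2 <;> simp
    · rcases h1 with h1 | ⟨-, h1⟩
      · rw [hzero h1 w, h1, zero_div]
      · rwa [← h1]

theorem Net.or {L L' : ℕ} {f f' : (V → Bool) → Bool} (h : Net L f) (h' : Net L' f') :
    Net (L + L') (fun X => f X || f' X) := by
  obtain ⟨E, _, lab, hcard, h⟩ := h
  obtain ⟨E', _, lab', hcard', h'⟩ := h'
  refine ⟨E ⊕ E', inferInstance, Sum.elim lab lab', by rw [Fintype.card_sum, hcard, hcard'],
    fun t ht => ?_⟩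
  obtain ⟨K, hK1, hK2⟩ := h t ht
  obtain ⟨K', hK1', hK2'⟩ := h' t ht
  let Φ : ((Option E → ℝ) × (Option E' → ℝ)) →ₗ[ℝ] (Option (E ⊕ E') → ℝ) :=
    { toFun := fun y i => match i with
        | none => y.1 none + y.2 none
        | some (Sum.inl e) => y.1 (some e)
        | some (Sum.inr e) => y.2 (some e)
      map_add' := by
        intro y z
        funext i
        rcases i with _ | (e | e)
        · show y.1 none + z.1 none + (y.2 none + z.2 none) = y.1 none + y.2 none + (z.1 none + z.2 none)
          ring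
        · rfl
        · rfl
      map_smul' := by
        intro c y
        funext i
        rcases i with _ | (e | e)
        · show c * y.1 none + c * y.2 none = c * (y.1 none + y.2 none)
          ring
        · rfl
        · rfl }
  refine ⟨(K.prod K').map Φ, fun X hX => ?_, fun X hX => ?_⟩
  · have hX2 : f X = true ∨ f' X = true := by simpa using hX
    rcases hX2 with hX2 | hX2
    · obtain ⟨w, hw1, hw2, hw3, hw4⟩ := hK1 X hX2
      refine ⟨Φ (w, 0), Submodule.mem_map_of_mem ⟨hw1, K'.zero_mem⟩, ?_, ?_, ?_⟩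
      · show w none + 0 = 1
        rw [hw2, add_zero]
      · rintro (e | e) he
        · exact hw3 e he
        · rfl
      · rw [Fintype.sum_sum_type]
        have : ∑ e : E', (Φ (w, 0) (some (Sum.inr e))) ^ 2 = 0 := by
          refine sum_eq_zero fun e _ => ?_
          show (0 : ℝ) ^ 2 = 0
          norm_num
        rw [this, add_zero]
        exact hw4
    · obtain ⟨w, hw1, hw2, hw3, hw4⟩ := hK1' X hX2
      refine ⟨Φ (0, w), Submodule.mem_map_of_mem ⟨K.zero_mem, hw1⟩, ?_, ?_, ?_⟩
      · show 0 + w none = 1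
        rw [hw2, zero_add]
      · rintro (e | e) he
        · rfl
        · exact hw3 e he
      · rw [Fintype.sum_sum_type]
        have : ∑ e : E, (Φ (0, w) (some (Sum.inl e))) ^ 2 = 0 := by
          refine sum_eq_zero fun e _ => ?_
          show (0 : ℝ) ^ 2 = 0
          norm_num
        rw [this, zero_add]
        exact hw4
  · have hX2 : f X = false ∧ f' X = false := by simpa using hX
    obtain ⟨w, hw1, hw2, hw3, hw4⟩ := hK2 X hX2.1
    obtain ⟨w', hw1', hw2', hw3', hw4'⟩ := hK2' X hX2.2
    refine ⟨fun i => match i with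
        | none => 1
        | some (Sum.inl e) => w (some e)
        | some (Sum.inr e) => w' (some e), ?_, rfl, ?_, ?_⟩
    · rintro _ ⟨⟨y, z⟩, ⟨hy, hz⟩, rfl⟩
      rw [Fintype.sum_option, Fintype.sum_sum_type]
      have e1 := hw1 y hy
      have e2 := hw1' z hz
      rw [Fintype.sum_option, hw2] at e1
      rw [Fintype.sum_option, hw2'] at e2
      show 1 * (y none + z none) + (∑ e, w (some e) * y (some e) + ∑ e, w' (some e) * z (some e)) = 0
      linarith
    · rintro (e | e) he
      · exact hw3 e he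
      · exact hw3' e he
    · rw [Fintype.sum_sum_type, Nat.cast_add, add_div]
      exact add_le_add hw4 hw4'

theorem Net.and {L L' : ℕ} {f f' : (V → Bool) → Bool} (h : Net L f) (h' : Net L' f') :
    Net (L + L') (fun X => f X && f' X) :=
  (h.neg.or h'.neg).neg.congr fun X => by
    cases f X <;> cases f' X <;> rfl

theorem net (φ : DFormula V) : Net φ.size (fun X => φ.eval X) := by
  induction φ with
  | const b => exact Net.const b
  | var v => exact Net.var v
  | neg a iha => exact iha.neg
  | and a b iha ihb => exact iha.and ihb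
  | or a b iha ihb => exact iha.or ihb

end Pool.Agent.Helper97.DM
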