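import Pool.Agent.Helper97.DM.Net

/-!
# Polynomials on the cube
-/

set_option autoImplicit false

namespace Pool.Agent.Helper97.DM

open Finset

section Refl

/-- The reflection in a subspace of `ℝ ^ ι`. -/
theorem exists_reflection {ι : Type} [Fintype ι] (K : Submodule ℝ (ι → ℝ)) :
    ∃ R : (ι → ℝ) →ₗ[ℝ] (ι → ℝ), (∀ u ∈ K, R u = u) ∧
      (∀ w : ι → ℝ, (∀ u ∈ K, ∑ i, w i * u i = 0) → R w = -w) ∧
      ∀ x y : ι → ℝ, ∑ i, R x i * R y i = ∑ i, x i * y i := by
  let e : EuclideanSpace ℝ ι ≃ₗ[ℝ] (ι → ℝ) := WithLp.linearEquiv 2 ℝ (ι → ℝ)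
  have hinner : ∀ x y : ι → ℝ, inner ℝ (e.symm x) (e.symm y) = ∑ i, x i * y i := by
    intro x y
    rw [PiLp.inner_apply]
    refine sum_congr rfl fun i _ => ?_
    show inner ℝ (x i) (y i) = _
    rw [RCLike.inner_apply, conj_trivial, mul_comm]
  let K' : Submodule ℝ (EuclideanSpace ℝ ι) := K.map (e.symm : (ι → ℝ) →ₗ[ℝ] EuclideanSpace ℝ ι)
  let R : (ι → ℝ) →ₗ[ℝ] (ι → ℝ) :=
    (e : EuclideanSpace ℝ ι →ₗ[ℝ] (ι → ℝ)) ∘ₗ (K'.reflection.toLinearEquiv : EuclideanSpace ℝ ι →ₗ[ℝ] EuclideanSpace ℝ ι) ∘ₗ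
      (e.symm : (ι → ℝ) →ₗ[ℝ] EuclideanSpace ℝ ι)
  have hR : ∀ x, e.symm (R x) = K'.reflection (e.symm x) := by
    intro x
    show e.symm (e (K'.reflection (e.symm x))) = _
    rw [e.symm_apply_apply]
  refine ⟨R, ?_, ?_, ?_⟩
  · intro u hu
    apply e.symm.injective
    rw [hR]
    exact Submodule.reflection_mem_subspace_eq_self (Submodule.mem_map_of_mem hu)
  · intro w hw
    apply e.symm.injective
    rw [hR, map_neg]
    apply Submodule.reflection_mem_subspace_orthogonalComplement_eq_neg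
    rw [Submodule.mem_orthogonal']
    rintro _ ⟨u, hu, rfl⟩
    exact (hinner w u).trans (hw u hu)
  · intro x y
    rw [← hinner, ← hinner, hR, hR, LinearIsometryEquiv.inner_map_map]

end Refl

section Cube

variable {I : Type} [Fintype I] [DecidableEq I]

/-- the sign of a bit -/
def sgn (b : Bool) : ℝ := if b = true then -1 else 1

theorem sgn_mul_self (b : Bool) : sgn b * sgn b = 1 := by
  cases b <;> simp [sgn]

/-- the characters of the cube -/
def chi (S : Finset I) (β : I → Bool) : ℝ := ∏ i ∈ S, sgn (β i)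

theorem chi_eq (S : Finset I) (β : I → Bool) : chi S β = ∏ i, if i ∈ S then sgn (β i) else 1 := by
  rw [prod_ite_mem, univ_inter]
  rfl

theorem chi_mul (S T : Finset I) (β : I → Bool) : chi S β * chi T β = chi (symmDiff S T) β := by
  rw [chi_eq, chi_eq, chi_eq, ← prod_mul_distrib]
  refine prod_congr rfl fun i _ => ?_
  by_cases hS : i ∈ S <;> by_cases hT : i ∈ T <;> simp [mem_symmDiff, hS, hT, sgn_mul_self]

/-- The functions of degree at most `d`. -/
def Deg (I : Type) [Fintype I] [DecidableEq I] (d : ℕ) : Submodule ℝ ((I → Bool) → ℝ) :=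
  Submodule.span ℝ (chi '' {S : Finset I | S.card ≤ d})

theorem chi_mem {S : Finset I} {d : ℕ} (h : S.card ≤ d) : chi S ∈ Deg I d :=
  Submodule.subset_span ⟨S, h, rfl⟩

theorem Deg.mono {d d' : ℕ} (h : d ≤ d') : Deg I d ≤ Deg I d' := by
  apply Submodule.span_mono
  apply Set.image_mono
  intro S hS
  exact le_trans hS h

theorem Deg.one : (1 : (I → Bool) → ℝ) ∈ Deg I 0 := by
  have : (1 : (I → Bool) → ℝ) = chi ∅ := by
    funext β
    simp [chi]
  rw [this]
  exact chi_mem (by simp)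

theorem Deg.const (c : ℝ) (d : ℕ) : (fun _ => c : (I → Bool) → ℝ) ∈ Deg I d := by
  have : (fun _ => c : (I → Bool) → ℝ) = c • (1 : (I → Bool) → ℝ) := by
    funext β
    simp
  rw [this]
  exact Submodule.smul_mem _ _ (Deg.mono (Nat.zero_le d) Deg.one)

theorem Deg.coord (i : I) : (fun β : I → Bool => sgn (β i)) ∈ Deg I 1 := by
  have : (fun β : I → Bool => sgn (β i)) = chi {i} := by
    funext β
    simp [chi]
  rw [this]
  exact chi_mem (by simp)

theorem Deg.mul {d d' : ℕ} {p q : (I → Bool) → ℝ} (hp : p ∈ Deg I d) (hq : q ∈ Deg I d') :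
    (fun β => p β * q β) ∈ Deg I (d + d') := by
  have h1 : p * q ∈ Deg I d * Deg I d' := Submodule.mul_mem_mul hp hq
  have h2 : Deg I d * Deg I d' ≤ Deg I (d + d') := by
    rw [Deg, Deg, Submodule.span_mul_span]
    apply Submodule.span_le.2
    rintro _ ⟨_, ⟨S, hS, rfl⟩, _, ⟨T, hT, rfl⟩, rfl⟩
    have e : chi S * chi T = chi (symmDiff S T) := by
      funext β
      exact chi_mul S T β
    show chi S * chi T ∈ Deg I (d + d')
    rw [e]
    apply chi_mem
    have h3 : (symmDiff S T).card ≤ (S ∪ T).card := by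
      apply card_le_card
      intro i hi
      rw [mem_symmDiff] at hi
      rw [mem_union]
      tauto
    exact h3.trans ((card_union_le S T).trans (add_le_add hS hT))
  exact h2 h1

/-- The expansion in characters. -/
theorem Deg.expand {d : ℕ} {p : (I → Bool) → ℝ} (hp : p ∈ Deg I d) :
    ∃ c : Finset I → ℝ, (∀ S, d < S.card → c S = 0) ∧ ∀ β, p β = ∑ S, c S * chi S β := by
  induction hp using Submodule.span_induction with
  | mem x hx =>
    obtain ⟨S, hS, rfl⟩ := hx
    refine ⟨fun T => if T = S then 1 else 0, fun T hT => if_neg ?_, fun β => ?_⟩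
    · rintro rfl
      exact absurd hS (not_le.2 hT)
    · simp
  | zero => exact ⟨0, fun _ _ => rfl, fun β => by simp⟩
  | add x y _ _ ihx ihy =>
    obtain ⟨c, hc, hx⟩ := ihx
    obtain ⟨c', hc', hy⟩ := ihy
    refine ⟨c + c', fun S hS => ?_, fun β => ?_⟩
    · rw [Pi.add_apply, hc S hS, hc' S hS, add_zero]
    · rw [Pi.add_apply, hx, hy, ← sum_add_distrib]
      refine sum_congr rfl fun S _ => ?_
      rw [Pi.add_apply]
      ring
  | smul a x _ ihx =>
    obtain ⟨c, hc, hx⟩ := ihx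
    refine ⟨a • c, fun S hS => ?_, fun β => ?_⟩
    · rw [Pi.smul_apply, hc S hS, smul_zero]
    · rw [Pi.smul_apply, hx, smul_eq_mul, mul_sum]
      refine sum_congr rfl fun S _ => ?_
      rw [Pi.smul_apply, smul_eq_mul]
      ring

theorem sum_chi (S : Finset I) (hS : S.Nonempty) : ∑ β : I → Bool, chi S β = 0 := by
  obtain ⟨i, hi⟩ := hS
  have h2 := prod_univ_sum (fun _ : I => (univ : Finset Bool))
    (fun (j : I) (b : Bool) => if j ∈ S then sgn b else 1)
  rw [Fintype.piFinset_univ] at h2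
  rw [sum_congr rfl fun β _ => chi_eq S β, ← h2]
  apply prod_eq_zero (mem_univ i)
  simp [hi, sgn]

/-- Parseval. -/
theorem parseval (c : Finset I → ℝ) :
    ∑ β : I → Bool, (∑ S, c S * chi S β) ^ 2 = 2 ^ Fintype.card I * ∑ S, c S ^ 2 := by
  have h1 : ∀ β : I → Bool, (∑ S, c S * chi S β) ^ 2 =
      ∑ S, ∑ T, c S * c T * chi (symmDiff S T) β := by
    intro β
    rw [sq, sum_mul_sum]
    refine sum_congr rfl fun S _ => sum_congr rfl fun T _ => ?_
    rw [← chi_mul]
    ring
  rw [sum_congr rfl fun β _ => h1 β, sum_comm, mul_sum]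
  refine sum_congr rfl fun S _ => ?_
  rw [sum_comm, Finset.sum_eq_single S]
  · rw [← mul_sum, symmDiff_self]
    have : ∀ β : I → Bool, chi (⊥ : Finset I) β = 1 := fun β => by simp [chi]
    rw [sum_congr rfl fun β _ => this β, sum_const, card_univ, Fintype.card_fun, Fintype.card_bool,
      nsmul_eq_mul]
    push_cast
    ring
  · intro T _ hT
    rw [← mul_sum, sum_chi, mul_zero]
    rw [nonempty_iff_ne_empty]
    intro h
    exact hT (symmDiff_eq_bot.1 h).symm
  · intro h
    exact absurd (mem_univ _) h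

end Cube

end Pool.Agent.Helper97.DM
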