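import Pool.Agent.Helper97.DM.Main
import Pool.Agent.Helper97.DM.Avg

/-!
# Randomised De Morgan formulas with two-sided error for the divisibility of the permanent
-/

set_option autoImplicit false

namespace Pool.Agent.Helper97.DM

open Finset Pool.Agent.Helper97.Form Pool.Agent.Helper97.Boo Pool.Agent.Helper71.Cliq

theorem exp_aux (η N : ℝ) (B K : ℕ) (hη : 0 < η) (hη1 : η ≤ 1) (hK : 1 / η ^ 3 ≤ K) (hB : 1 ≤ B)
    (hN : (K : ℝ) * B < N) : (2 : ℝ) ^ B * Real.exp (-(2 * η ^ 2 * N)) ≤ η := by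
  have hK0 : 0 < (K : ℝ) := lt_of_lt_of_le (by positivity) hK
  have hBR : (1 : ℝ) ≤ B := by exact_mod_cast hB
  have hη3 : 0 < η ^ 3 := by positivity
  have h1 : (B : ℝ) ≤ η ^ 3 * N := by
    have h2 : 1 ≤ K * η ^ 3 := by
      rwa [div_le_iff₀ hη3] at hK
    have h3 : (B : ℝ) * 1 ≤ B * (K * η ^ 3) := mul_le_mul_of_nonneg_left h2 (by linarith)
    nlinarith
  have hN0 : 1 / η ^ 3 ≤ N := by
    have : (K : ℝ) ≤ K * B := le_mul_of_one_le_right hK0.le hBR
    linarith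
  have hNpos : 0 < N := lt_of_lt_of_le (by positivity) hN0
  have h4 : (2 : ℝ) ^ B ≤ Real.exp B := by
    calc (2 : ℝ) ^ B ≤ Real.exp 1 ^ B := by
          apply pow_le_pow_left₀ (by norm_num)
          have := Real.add_one_le_exp (1 : ℝ)
          linarith
      _ = Real.exp B := by rw [← Real.exp_nat_mul, mul_one]
  have h5 : η ^ 3 * N ≤ η ^ 2 * N := by
    apply mul_le_mul_of_nonneg_right _ hNpos.le
    nlinarith [sq_nonneg η, pow_pos hη 2]
  have h6 : 1 / η ≤ η ^ 2 * N := by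
    rw [div_le_iff₀ hη3] at hN0
    rw [div_le_iff₀ hη]
    nlinarith
  calc (2 : ℝ) ^ B * Real.exp (-(2 * η ^ 2 * N)) ≤ Real.exp B * Real.exp (-(2 * η ^ 2 * N)) :=
        mul_le_mul_of_nonneg_right h4 (Real.exp_pos _).le
    _ = Real.exp (B - 2 * η ^ 2 * N) := by rw [← Real.exp_add, sub_eq_add_neg]
    _ ≤ Real.exp (-(η ^ 2 * N)) := Real.exp_le_exp.2 (by linarith)
    _ = (Real.exp (η ^ 2 * N))⁻¹ := Real.exp_neg _
    _ ≤ (1 / η)⁻¹ := by
        apply inv_anti₀ (by positivity)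
        have := Real.add_one_le_exp (η ^ 2 * N)
        linarith
    _ = η := by rw [one_div, inv_inv]

theorem rand_large (m : ℕ) (hm : m ≠ 0) (hm2 : ∀ k : ℕ, m ≠ 2 ^ k) (ρ : ℝ) (hρ : 0 < ρ)
    (hρ1 : ρ ≤ 1 / 4) (δ : ℝ) (hδ : 0 < δ) (hδ1 : δ ≤ 1) :
    ∃ n₀ : ℕ, ∀ n : ℕ, n₀ ≤ n → ∀ (Ω : Type) [Fintype Ω] (w : Ω → ℝ)
      (F : Ω → DFormula (Fin n × Fin n)), (∀ ω, 0 ≤ w ω) → ∑ ω, w ω = 1 →
      (∀ X, 1 / 2 + δ ≤ ∑ ω, w ω * (if (F ω).eval X = decide (m ∣ perm01 n X) then 1 else 0)) →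
      δ / 4 * (n : ℝ) ^ (6 - 4 * ρ) ≤ ∑ ω, w ω * ((F ω).size : ℝ) := by
  classical
  obtain ⟨a, q, hq, rfl⟩ := Nat.exists_eq_two_pow_mul_odd hm
  have hq1 : q ≠ 1 := by
    rintro rfl
    exact hm2 a (mul_one _)
  obtain ⟨q', hq'⟩ := hq
  have hq3 : 3 ≤ q := by omega
  obtain ⟨j, hj⟩ : ∃ j, q - 1 ≤ 4 ^ j := ⟨q - 1, (Nat.lt_pow_self (by norm_num)).le⟩
  set η := δ / 4 with hη
  have hη0 : 0 < η := by positivity
  have hη1 : η ≤ 1 := by
    rw [hη]
    linarith
  obtain ⟨K', hK'⟩ := exists_nat_ge (1 / η ^ 3)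
  set K := K' + 1 with hKdef
  have hK : 1 / η ^ 3 ≤ (K : ℝ) := by
    rw [hKdef]
    push_cast
    linarith
  obtain ⟨d, n₀, H⟩ := numeric (12 * 2 ^ j * (q - 1) + 2 * a + 1) q K (by omega) (by omega) (by omega)
    ρ hρ hρ1
  refine ⟨n₀, fun n hn Ω _ w F hw hw1 hF => ?_⟩
  obtain ⟨s, v, κ, T0, t, hs1, h1, h2, h3, h4, h5, h6⟩ := H n hn
  have hC : Fintype.card (Fin v × Fin v) = v * v := by
    rw [Fintype.card_prod, Fintype.card_fin]
  have : Nonempty (Fin v × Fin v) := ⟨(⟨0, h2⟩, ⟨0, h2⟩)⟩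
  have hinst : ∀ T : (Fin (2 * s) → Bool) → Bool,
      ∃ σ : Fin n × Fin n → ((Fin (2 * s) × Fin q) × (Fin v × Fin v)) ⊕ Bool,
      ∀ (β : (Fin (2 * s) × Fin q) × (Fin v × Fin v) → Bool) (ζ : Fin (2 * s) → Bool),
        (∀ i, ones β i % q = if ζ i = true then 1 else 0) →
          decide (2 ^ a * q ∣ perm01 n fun u => (σ u).elim β id) = T ζ := by
    intro T
    refine inst q a j s n v hq3 (by omega) hj ?_ T
    refine le_trans ?_ h1
    have e1 : 12 * 2 ^ (s + j) * (q - 1) = 12 * 2 ^ j * (q - 1) * 2 ^ s := by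
      rw [pow_add]
      ring
    have e2 : 2 * a ≤ 2 * a * 2 ^ s := Nat.le_mul_of_pos_right _ (by positivity)
    have e3 : (12 * 2 ^ j * (q - 1) + 2 * a + 1) * 2 ^ s =
        12 * 2 ^ j * (q - 1) * 2 ^ s + 2 * a * 2 ^ s + 2 ^ s := by ring
    have e4 : 2 * s * (q * v) + 2 * s * v ≤ 4 * s * q * v := by
      have e5 : 2 * s * v ≤ 2 * s * v * q := Nat.le_mul_of_pos_right _ (by omega)
      calc 2 * s * (q * v) + 2 * s * v ≤ 2 * s * (q * v) + 2 * s * v * q := by omega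
        _ = 4 * s * q * v := by ring
    have e6 : 1 ≤ 2 ^ s := Nat.one_le_two_pow
    rw [e1, e3]
    omega
  choose σ hσ using hinst
  set X : Type := ((Fin (2 * s) × Fin q) → Fin v × Fin v) ×
    ((Fin (2 * s) × Fin q) × (Fin v × Fin v) → Bool) with hX
  -- the agreement of a formula
  let AG : DFormula (Fin n × Fin n) → ℝ := fun φ => ∑ x : X, ∑ T : (Fin (2 * s) → Bool) → Bool,
    (agr (fun ζ => φ.eval fun u => (σ T u).elim (inp x ζ) id) T : ℝ)
  set R : ℝ := Fintype.card X * (2 ^ 2 ^ (2 * s) * 2 ^ (2 * s)) with hR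
  have hXpos : (0 : ℝ) < Fintype.card X := by
    have : 0 < Fintype.card X := Fintype.card_pos
    exact_mod_cast this
  have hRpos : 0 < R := by positivity
  have hcardA : Fintype.card (Fin (2 * s) → Bool) = 2 ^ (2 * s) := by
    rw [Fintype.card_fun, Fintype.card_bool, Fintype.card_fin]
  have hsmallφ : ∀ φ : DFormula (Fin n × Fin n), (φ.size : ℝ) < (n : ℝ) ^ (6 - 4 * ρ) →
      AG φ ≤ R * (1 / 2 + 3 * η) := by
    intro φ hφ
    have h7 := h6 φ.size hφ
    have h8 := avg_agr (k := 2 * s) (q := q) (C := Fin v × Fin v) φ d t T0 κ (by omega) h3 η hη0 σ h4 h5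
      (by
        intro M hM
        obtain ⟨h9, h10⟩ := h7 M hM
        have hK1 : (1 : ℝ) ≤ K := by
          rw [hKdef]
          push_cast
          linarith [Nat.cast_nonneg (α := ℝ) K']
        have hηK : 1 ≤ η * K := by
          rw [div_le_iff₀ (by positivity)] at hK
          have h11 : η ^ 3 ≤ η := by nlinarith [sq_nonneg η, pow_pos hη0 2]
          nlinarith
        constructor
        · rw [hC]
          have h9R : (K : ℝ) * ((M : ℝ) * (4 * 8 ^ (2 * s * q) * (3 ^ κ * (2 * T0)) ^ d)) <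
              ((v * v : ℕ) : ℝ) ^ d := by exact_mod_cast h9
          have h12 : 0 ≤ (M : ℝ) * (4 * 8 ^ (2 * s * q) * (3 ^ κ * (2 * T0)) ^ d) := by positivity
          calc (M : ℝ) * (4 * 8 ^ (2 * s * q) * (3 ^ κ * (2 * T0)) ^ d) ≤
                (η * K) * ((M : ℝ) * (4 * 8 ^ (2 * s * q) * (3 ^ κ * (2 * T0)) ^ d)) :=
                le_mul_of_one_le_left h12 hηK
            _ = η * (K * ((M : ℝ) * (4 * 8 ^ (2 * s * q) * (3 ^ κ * (2 * T0)) ^ d))) := by ring
            _ ≤ η * ((v * v : ℕ) : ℝ) ^ d := mul_le_mul_of_nonneg_left h9R.le hη0.le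
        · apply exp_aux η _ _ K hη0 hη1 hK
          · have : 1 ≤ 2 * s * q := Nat.mul_pos (by omega) (by omega)
            omega
          · exact_mod_cast h10)
    refine h8.trans (le_of_eq ?_)
    rw [hR]
    ring
  have hallφ : ∀ φ : DFormula (Fin n × Fin n), AG φ ≤ R := by
    intro φ
    calc AG φ ≤ ∑ _x : X, ∑ _T : (Fin (2 * s) → Bool) → Bool, (2 : ℝ) ^ (2 * s) := by
          refine sum_le_sum fun x _ => sum_le_sum fun T _ => ?_
          have := agr_le (fun ζ => φ.eval fun u => (σ T u).elim (inp x ζ) id) T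
          rw [hcardA] at this
          exact_mod_cast this
      _ = R := by
          rw [sum_const, sum_const, card_univ, card_univ, Fintype.card_fun, Fintype.card_bool, hcardA,
            nsmul_eq_mul, nsmul_eq_mul]
          push_cast
          rfl
  -- total agreement
  have htot : R * (1 / 2 + δ) ≤ ∑ ω, w ω * AG (F ω) := by
    have h7 : ∑ _x : X, ∑ _T : (Fin (2 * s) → Bool) → Bool, ∑ _ζ : Fin (2 * s) → Bool, (1 / 2 + δ) ≤
        ∑ x : X, ∑ T : (Fin (2 * s) → Bool) → Bool, ∑ ζ : Fin (2 * s) → Bool,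
          ∑ ω, w ω * (if (F ω).eval (fun u => (σ T u).elim (inp x ζ) id) = T ζ then 1 else 0) := by
      refine sum_le_sum fun x _ => sum_le_sum fun T _ => sum_le_sum fun ζ _ => ?_
      have h8 := hF fun u => (σ T u).elim (inp x ζ) id
      rw [hσ T (inp x ζ) ζ fun i => ones_inp (by omega) x ζ i] at h8
      exact h8
    rw [sum_const, sum_const, sum_const, card_univ, card_univ, card_univ, Fintype.card_fun,
      Fintype.card_bool, hcardA, nsmul_eq_mul, nsmul_eq_mul, nsmul_eq_mul] at h7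
    push_cast at h7
    have e1 : (Fintype.card X : ℝ) * (2 ^ 2 ^ (2 * s) * (2 ^ (2 * s) * (1 / 2 + δ))) = R * (1 / 2 + δ) := by
      rw [hR]
      ring
    rw [e1] at h7
    refine h7.trans (le_of_eq ?_)
    have h9 : ∀ (x : X) (T : (Fin (2 * s) → Bool) → Bool), ∑ ζ : Fin (2 * s) → Bool,
        ∑ ω, w ω * (if (F ω).eval (fun u => (σ T u).elim (inp x ζ) id) = T ζ then (1 : ℝ) else 0) =
        ∑ ω, w ω * (agr (fun ζ => (F ω).eval fun u => (σ T u).elim (inp x ζ) id) T : ℝ) := by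
      intro x T
      rw [sum_comm]
      refine sum_congr rfl fun ω _ => ?_
      rw [← mul_sum, agr, sum_boole]
    simp_rw [h9]
    have h10 : ∀ x : X, ∑ T : (Fin (2 * s) → Bool) → Bool,
        ∑ ω, w ω * (agr (fun ζ => (F ω).eval fun u => (σ T u).elim (inp x ζ) id) T : ℝ) =
        ∑ ω, ∑ T : (Fin (2 * s) → Bool) → Bool,
          w ω * (agr (fun ζ => (F ω).eval fun u => (σ T u).elim (inp x ζ) id) T : ℝ) := fun x => sum_comm
    simp_rw [h10]
    rw [sum_comm]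
    refine sum_congr rfl fun ω _ => ?_
    show _ = w ω * ∑ x : X, ∑ T : (Fin (2 * s) → Bool) → Bool, _
    rw [mul_sum]
    refine sum_congr rfl fun x _ => ?_
    rw [mul_sum]
  set Lg : Finset Ω := univ.filter fun ω => (n : ℝ) ^ (6 - 4 * ρ) ≤ (F ω).size with hLg
  have hub : ∀ ω, w ω * AG (F ω) ≤ R * (w ω * (1 / 2 + 3 * η) + if ω ∈ Lg then w ω else 0) := by
    intro ω
    by_cases hω : ω ∈ Lg
    · rw [if_pos hω]
      have h7 := mul_le_mul_of_nonneg_left (hallφ (F ω)) (hw ω)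
      have h8 : 0 ≤ R * (w ω * (1 / 2 + 3 * η)) :=
        mul_nonneg hRpos.le (mul_nonneg (hw ω) (by positivity))
      linarith
    · rw [if_neg hω]
      have h7 : ((F ω).size : ℝ) < (n : ℝ) ^ (6 - 4 * ρ) := by
        by_contra hcon
        exact hω (mem_filter.2 ⟨mem_univ _, not_lt.1 hcon⟩)
      have h8 := mul_le_mul_of_nonneg_left (hsmallφ (F ω) h7) (hw ω)
      linarith
  have hW : δ / 4 ≤ ∑ ω ∈ Lg, w ω := by
    have h7 := htot.trans (sum_le_sum fun ω _ => hub ω)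
    rw [← mul_sum, sum_add_distrib, ← sum_mul, hw1, sum_ite_mem, univ_inter] at h7
    have h8 := le_of_mul_le_mul_left h7 hRpos
    rw [hη] at h8
    linarith
  have hn0 : 0 ≤ (n : ℝ) ^ (6 - 4 * ρ) := Real.rpow_nonneg (Nat.cast_nonneg _) _
  calc δ / 4 * (n : ℝ) ^ (6 - 4 * ρ) ≤ (∑ ω ∈ Lg, w ω) * (n : ℝ) ^ (6 - 4 * ρ) :=
        mul_le_mul_of_nonneg_right hW hn0
    _ = ∑ ω ∈ Lg, w ω * (n : ℝ) ^ (6 - 4 * ρ) := by rw [sum_mul]
    _ ≤ ∑ ω ∈ Lg, w ω * ((F ω).size : ℝ) :=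
        sum_le_sum fun ω hω => mul_le_mul_of_nonneg_left (mem_filter.1 hω).2 (hw ω)
    _ ≤ ∑ ω, w ω * ((F ω).size : ℝ) :=
        sum_le_sum_of_subset_of_nonneg (subset_univ _)
          fun ω _ _ => mul_nonneg (hw ω) (Nat.cast_nonneg _)

/-- Randomised formulas with two-sided error. -/
theorem rand_main (m : ℕ) (hm : m ≠ 0) (hm2 : ∀ k : ℕ, m ≠ 2 ^ k) (ε δ : ℝ) (hε : 0 < ε)
    (hδ : 0 < δ) : ∃ c : ℝ, 0 < c ∧ ∀ n : ℕ, 1 ≤ n → ∀ (Ω : Type) [Fintype Ω] (w : Ω → ℝ)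
      (F : Ω → DFormula (Fin n × Fin n)), (∀ ω, 0 ≤ w ω) → ∑ ω, w ω = 1 →
      (∀ X, 1 / 2 + δ ≤ ∑ ω, w ω * (if (F ω).eval X = decide (m ∣ perm01 n X) then 1 else 0)) →
      c * (n : ℝ) ^ (6 - ε) ≤ ∑ ω, w ω * ((F ω).size : ℝ) := by
  classical
  obtain ⟨n₀, H⟩ := rand_large m hm hm2 (min ε 1 / 4) (by positivity) (by
    have := min_le_right ε 1
    linarith) (min δ 1) (by positivity) (min_le_right _ _)
  refine ⟨min δ 1 / 4 / ((n₀ : ℝ) + 1) ^ 6, by positivity, fun n hn Ω _ w F hw hw1 hF => ?_⟩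
  have hn1 : (1 : ℝ) ≤ n := by exact_mod_cast hn
  have hm1 : ¬ (m ∣ 1) := by
    intro h
    exact hm2 0 (Nat.dvd_one.1 h)
  have hδ' : 0 < min δ 1 := by positivity
  rcases Nat.lt_or_ge n n₀ with h | h
  · -- small `n`
    have h1 : (n : ℝ) ^ (6 - ε) ≤ ((n₀ : ℝ) + 1) ^ 6 := by
      calc (n : ℝ) ^ (6 - ε) ≤ (n : ℝ) ^ ((6 : ℕ) : ℝ) :=
            Real.rpow_le_rpow_of_exponent_le hn1 (by push_cast; linarith)
        _ = (n : ℝ) ^ 6 := Real.rpow_natCast _ _
        _ ≤ ((n₀ : ℝ) + 1) ^ 6 := by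
            apply pow_le_pow_left₀ (by positivity)
            have : (n : ℝ) ≤ n₀ := by exact_mod_cast h.le
            linarith
    have h2 : 2 * δ ≤ ∑ ω, w ω * ((F ω).size : ℝ) := by
      have e0 := hF fun _ => false
      have e1 := hF fun v => decide (v.1 = v.2)
      rw [perm01_zero n hn] at e0
      rw [perm01_one] at e1
      have e2 : ∀ ω, w ω * (if (F ω).eval (fun _ => false) = decide (m ∣ 0) then (1 : ℝ) else 0) +
          w ω * (if (F ω).eval (fun v => decide (v.1 = v.2)) = decide (m ∣ 1) then 1 else 0) ≤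
            w ω + w ω * ((F ω).size : ℝ) := by
        intro ω
        have h3 := hw ω
        rcases Nat.eq_zero_or_pos (F ω).size with h0 | h0
        · have h4 := DFormula.eval_const (F ω) h0 (fun _ => false) fun v => decide (v.1 = v.2)
          rw [h4, h0]
          have h5 : decide (m ∣ 0) = true := by simp
          have h6 : decide (m ∣ 1) = false := by simp [hm1]
          rw [h5, h6]
          cases (F ω).eval (fun v => decide (v.1 = v.2)) <;> simp
        · have h7 : (1 : ℝ) ≤ (F ω).size := by exact_mod_cast h0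
          have h8 : w ω * (if (F ω).eval (fun _ => false) = decide (m ∣ 0) then (1 : ℝ) else 0) ≤ w ω := by
            split_ifs
            · rw [mul_one]
            · rw [mul_zero]
              exact h3
          have h9 : w ω * (if (F ω).eval (fun v => decide (v.1 = v.2)) = decide (m ∣ 1) then (1 : ℝ) else 0) ≤
              w ω := by
            split_ifs
            · rw [mul_one]
            · rw [mul_zero]
              exact h3
          have h10 : w ω * 1 ≤ w ω * ((F ω).size : ℝ) := mul_le_mul_of_nonneg_left h7 h3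
          linarith
      have e3 := sum_le_sum fun ω (_ : ω ∈ univ) => e2 ω
      rw [sum_add_distrib, sum_add_distrib, hw1] at e3
      linarith
    have h3 : min δ 1 ≤ δ := min_le_left _ _
    calc min δ 1 / 4 / ((n₀ : ℝ) + 1) ^ 6 * (n : ℝ) ^ (6 - ε) ≤
          min δ 1 / 4 / ((n₀ : ℝ) + 1) ^ 6 * ((n₀ : ℝ) + 1) ^ 6 :=
          mul_le_mul_of_nonneg_left h1 (by positivity)
      _ = min δ 1 / 4 := by field_simp
      _ ≤ 2 * δ := by linarith
      _ ≤ _ := h2
  · -- large `n`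
    have h1 := H n h Ω w F hw hw1 fun X => by
      have := hF X
      have h2 : min δ 1 ≤ δ := min_le_left _ _
      linarith
    have h2 : (n : ℝ) ^ (6 - ε) ≤ (n : ℝ) ^ (6 - 4 * (min ε 1 / 4)) :=
      Real.rpow_le_rpow_of_exponent_le hn1 (by
        have := min_le_left ε 1
        linarith)
    have h3 : min δ 1 / 4 / ((n₀ : ℝ) + 1) ^ 6 ≤ min δ 1 / 4 := by
      apply div_le_self (by positivity)
      exact one_le_pow₀ (by linarith [Nat.cast_nonneg (α := ℝ) n₀])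
    have h4 : 0 ≤ (n : ℝ) ^ (6 - ε) := Real.rpow_nonneg (Nat.cast_nonneg _) _
    calc min δ 1 / 4 / ((n₀ : ℝ) + 1) ^ 6 * (n : ℝ) ^ (6 - ε) ≤ min δ 1 / 4 * (n : ℝ) ^ (6 - ε) :=
          mul_le_mul_of_nonneg_right h3 h4
      _ ≤ min δ 1 / 4 * (n : ℝ) ^ (6 - 4 * (min ε 1 / 4)) :=
          mul_le_mul_of_nonneg_left h2 (by positivity)
      _ ≤ _ := h1

end Pool.Agent.Helper97.DM
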