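import Pool.Agent.Helper97.DM.Approx

/-!
# Restrictions: a small formula becomes a function of small degree
-/

set_option autoImplicit false
set_option linter.unusedSectionVars false

namespace Pool.Agent.Helper97.DM

open Finset

variable {Γ C : Type} [Fintype Γ] [DecidableEq Γ] [Fintype C] [DecidableEq C]

/-- Flip the bits at the stars of the groups in `U`. -/
def flip (st : Γ → C) (U : Finset Γ) (β : Γ × C → Bool) : Γ × C → Bool := fun v =>
  if v.1 ∈ U ∧ v.2 = st v.1 then !(β v) else β v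

theorem sgn_not (b : Bool) : sgn (!b) = -1 * sgn b := by
  cases b <;> simp [sgn]

theorem chi_flip (st : Γ → C) (U : Finset Γ) (β : Γ × C → Bool) (S : Finset (Γ × C)) :
    chi S (flip st U β) = (∏ γ ∈ U, if (γ, st γ) ∈ S then (-1 : ℝ) else 1) * chi S β := by
  have h1 : ∀ v : Γ × C, sgn (flip st U β v) =
      (if v.1 ∈ U ∧ v.2 = st v.1 then (-1 : ℝ) else 1) * sgn (β v) := by
    intro v
    unfold flip
    split_ifs
    · exact sgn_not _
    · rw [one_mul]
  unfold chi
  rw [prod_congr rfl fun v _ => h1 v, prod_mul_distrib]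
  congr 1
  have h2 : ∏ v ∈ S, (if v.1 ∈ U ∧ v.2 = st v.1 then (-1 : ℝ) else 1) =
      ∏ v ∈ U.image (fun γ => (γ, st γ)), if v ∈ S then (-1 : ℝ) else 1 := by
    rw [← prod_filter, ← prod_filter]
    congr 1
    ext ⟨γ, c⟩
    simp only [mem_filter, mem_image, Prod.mk.injEq]
    constructor
    · rintro ⟨h3, h4, h5⟩
      exact ⟨⟨γ, h4, rfl, h5.symm⟩, h3⟩
    · rintro ⟨⟨γ', h4, rfl, h5⟩, h3⟩
      exact ⟨h3, h4, h5.symm⟩
  rw [h2, prod_image]
  intro γ _ γ' _ h
  exact congrArg Prod.fst h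

/-- The iterated difference at the stars of the groups in `T`. -/
def diff (f : (Γ × C → Bool) → ℝ) (st : Γ → C) (T : Finset Γ) (β : Γ × C → Bool) : ℝ :=
  ∑ U ∈ T.powerset, (-1) ^ U.card * f (flip st U β)

theorem diff_chi (st : Γ → C) (T : Finset Γ) (β : Γ × C → Bool) (S : Finset (Γ × C)) :
    diff (chi S) st T β = (if ∀ γ ∈ T, (γ, st γ) ∈ S then 2 ^ T.card else 0) * chi S β := by
  unfold diff
  have h1 : ∀ U : Finset Γ, (-1 : ℝ) ^ U.card * chi S (flip st U β) =
      (∏ γ ∈ U, -(if (γ, st γ) ∈ S then (-1 : ℝ) else 1)) * chi S β := by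
    intro U
    rw [chi_flip, prod_neg]
    ring
  rw [sum_congr rfl fun U _ => h1 U, ← sum_mul, ← prod_one_add]
  congr 1
  split_ifs with h
  · rw [prod_congr rfl fun γ hγ => by rw [if_pos (h γ hγ)]]
    norm_num
  · push Not at h
    obtain ⟨γ, hγ, hS⟩ := h
    apply prod_eq_zero hγ
    rw [if_neg hS]
    norm_num

theorem diff_sum (c : Finset (Γ × C) → ℝ) (st : Γ → C) (T : Finset Γ) (β : Γ × C → Bool) :
    diff (fun β => ∑ S, c S * chi S β) st T β =
      ∑ S, (if ∀ γ ∈ T, (γ, st γ) ∈ S then 2 ^ T.card * c S else 0) * chi S β := by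
  have h1 : diff (fun β => ∑ S, c S * chi S β) st T β = ∑ S, c S * diff (chi S) st T β := by
    unfold diff
    simp only [mul_sum]
    rw [sum_comm]
    refine sum_congr rfl fun S _ => sum_congr rfl fun U _ => ?_
    ring
  rw [h1]
  refine sum_congr rfl fun S _ => ?_
  rw [diff_chi]
  split_ifs
  · ring
  · ring

/-- The number of star choices which hit a small set in many groups. -/
theorem count_star (S : Finset (Γ × C)) (T : Finset Γ) (d D : ℕ) (hT : d ≤ T.card) (hS : S.card ≤ D) :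
    (univ.filter fun st : Γ → C => ∀ γ ∈ T, (γ, st γ) ∈ S).card * Fintype.card C ^ d ≤
      D ^ d * Fintype.card C ^ Fintype.card Γ := by
  obtain ⟨T', hT', hcard⟩ := exists_subset_card_eq hT
  let A : Γ → Finset C := fun γ => univ.filter fun c => (γ, c) ∈ S
  have hA : ∀ γ, (A γ).card ≤ D := by
    intro γ
    refine le_trans ?_ hS
    apply card_le_card_of_injOn (fun c => (γ, c))
    · intro c hc
      exact (mem_filter.1 hc).2
    · intro c _ c' _ h
      exact congrArg Prod.snd h
  have h1 : (univ.filter fun st : Γ → C => ∀ γ ∈ T, (γ, st γ) ∈ S).card ≤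
      ∏ γ, (if γ ∈ T' then (A γ).card else Fintype.card C) := by
    have h2 : (univ.filter fun st : Γ → C => ∀ γ ∈ T, (γ, st γ) ∈ S) ⊆
        Fintype.piFinset fun γ => if γ ∈ T' then A γ else univ := by
      intro st hst
      rw [mem_filter] at hst
      rw [Fintype.mem_piFinset]
      intro γ
      split_ifs with h
      · exact mem_filter.2 ⟨mem_univ _, hst.2 γ (hT' h)⟩
      · exact mem_univ _
    refine (card_le_card h2).trans ?_
    rw [Fintype.card_piFinset]
    refine le_of_eq (prod_congr rfl fun γ _ => ?_)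
    split_ifs
    · rfl
    · exact card_univ
  have h3 : Fintype.card C ^ d = ∏ γ, if γ ∈ T' then Fintype.card C else 1 := by
    rw [prod_ite_mem, univ_inter, prod_const, hcard]
  have h4 : D ^ d = ∏ γ, if γ ∈ T' then D else 1 := by
    rw [prod_ite_mem, univ_inter, prod_const, hcard]
  have h5 : Fintype.card C ^ Fintype.card Γ = ∏ _γ : Γ, Fintype.card C := by
    rw [prod_const, card_univ]
  calc (univ.filter fun st : Γ → C => ∀ γ ∈ T, (γ, st γ) ∈ S).card * Fintype.card C ^ d ≤
        (∏ γ, if γ ∈ T' then (A γ).card else Fintype.card C) * Fintype.card C ^ d :=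
        Nat.mul_le_mul_right _ h1
    _ = ∏ γ, ((if γ ∈ T' then (A γ).card else Fintype.card C) *
        if γ ∈ T' then Fintype.card C else 1) := by rw [h3, prod_mul_distrib]
    _ ≤ ∏ γ, ((if γ ∈ T' then D else 1) * Fintype.card C) := by
        refine prod_le_prod' fun γ _ => ?_
        split_ifs
        · exact Nat.mul_le_mul_right _ (hA γ)
        · rw [mul_one, one_mul]
    _ = D ^ d * Fintype.card C ^ Fintype.card Γ := by rw [prod_mul_distrib, ← h4, ← h5]

/-- A formula is bad for a restriction if the restricted function has degree at least `d`. -/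
def bad (d : ℕ) (G : DFormula (Γ × C)) (x : (Γ → C) × (Γ × C → Bool)) : Prop :=
  ∃ T : Finset Γ, d ≤ T.card ∧
    ∑ U ∈ T.powerset, (-1 : ℤ) ^ U.card * (if G.eval (flip x.1 U x.2) = true then 1 else 0) ≠ 0

theorem sum_diff_sq (c : Finset (Γ × C) → ℝ) (d D : ℕ) (hD : ∀ S, D < S.card → c S = 0)
    (T : Finset Γ) (hT : d ≤ T.card) :
    (∑ st : Γ → C, ∑ β : Γ × C → Bool, diff (fun β => ∑ S, c S * chi S β) st T β ^ 2) *
        (Fintype.card C : ℝ) ^ d ≤
      4 ^ Fintype.card Γ * (D : ℝ) ^ d * (Fintype.card C : ℝ) ^ Fintype.card Γ *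
        (2 ^ Fintype.card (Γ × C) * ∑ S, c S ^ 2) := by
  classical
  have h1 : ∀ st : Γ → C, ∑ β : Γ × C → Bool, diff (fun β => ∑ S, c S * chi S β) st T β ^ 2 =
      2 ^ Fintype.card (Γ × C) * ∑ S, if ∀ γ ∈ T, (γ, st γ) ∈ S then 4 ^ T.card * c S ^ 2 else 0 := by
    intro st
    rw [sum_congr rfl fun β _ => by rw [diff_sum c st T β],
      parseval fun S => if ∀ γ ∈ T, (γ, st γ) ∈ S then 2 ^ T.card * c S else 0]
    congr 1
    refine sum_congr rfl fun S _ => ?_
    split_ifs
    · rw [mul_pow, ← pow_mul, mul_comm T.card 2, pow_mul]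
      norm_num
    · norm_num
  rw [sum_congr rfl fun st _ => h1 st, ← mul_sum, sum_comm]
  have h2 : ∀ S : Finset (Γ × C), (∑ st : Γ → C, if ∀ γ ∈ T, (γ, st γ) ∈ S then 4 ^ T.card * c S ^ 2
      else 0) * (Fintype.card C : ℝ) ^ d ≤
        4 ^ Fintype.card Γ * (D : ℝ) ^ d * (Fintype.card C : ℝ) ^ Fintype.card Γ * c S ^ 2 := by
    intro S
    rw [← sum_filter, sum_const, nsmul_eq_mul]
    by_cases hS : D < S.card
    · rw [hD S hS]
      simp
    · have h3 := count_star S T d D hT (not_lt.1 hS)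
      have h3R : ((univ.filter fun st : Γ → C => ∀ γ ∈ T, (γ, st γ) ∈ S).card : ℝ) *
          (Fintype.card C : ℝ) ^ d ≤ (D : ℝ) ^ d * (Fintype.card C : ℝ) ^ Fintype.card Γ := by
        exact_mod_cast h3
      have h4 : (4 : ℝ) ^ T.card ≤ 4 ^ Fintype.card Γ :=
        pow_le_pow_right₀ (by norm_num) (card_le_univ _)
      have h5 : (0 : ℝ) ≤ c S ^ 2 := sq_nonneg _
      calc ((univ.filter fun st : Γ → C => ∀ γ ∈ T, (γ, st γ) ∈ S).card : ℝ) *
            (4 ^ T.card * c S ^ 2) * (Fintype.card C : ℝ) ^ d =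
            ((univ.filter fun st : Γ → C => ∀ γ ∈ T, (γ, st γ) ∈ S).card : ℝ) *
            (Fintype.card C : ℝ) ^ d * (4 ^ T.card * c S ^ 2) := by ring
        _ ≤ (D : ℝ) ^ d * (Fintype.card C : ℝ) ^ Fintype.card Γ * (4 ^ Fintype.card Γ * c S ^ 2) := by
            gcongr
        _ = 4 ^ Fintype.card Γ * (D : ℝ) ^ d * (Fintype.card C : ℝ) ^ Fintype.card Γ * c S ^ 2 := by
            ring
  calc 2 ^ Fintype.card (Γ × C) * (∑ S, ∑ st : Γ → C, if ∀ γ ∈ T, (γ, st γ) ∈ S then
        4 ^ T.card * c S ^ 2 else 0) * (Fintype.card C : ℝ) ^ d =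
        2 ^ Fintype.card (Γ × C) * ∑ S, ((∑ st : Γ → C, if ∀ γ ∈ T, (γ, st γ) ∈ S then
        4 ^ T.card * c S ^ 2 else 0) * (Fintype.card C : ℝ) ^ d) := by
        rw [← sum_mul]
        ring
    _ ≤ 2 ^ Fintype.card (Γ × C) * ∑ S, 4 ^ Fintype.card Γ * (D : ℝ) ^ d *
        (Fintype.card C : ℝ) ^ Fintype.card Γ * c S ^ 2 := by
        exact mul_le_mul_of_nonneg_left (sum_le_sum fun S _ => h2 S) (by positivity)
    _ = _ := by
        rw [← mul_sum]
        ring

theorem bad_count (d : ℕ) (G : DFormula (Γ × C)) (L T0 κ : ℕ) (hL : G.size ≤ L)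
    (hT0 : 8 * (1 + 8 * L) ≤ T0 ^ 2) (hκ : Fintype.card Γ + 1 ≤ 2 ^ κ) :
    Nat.card {x : (Γ → C) × (Γ × C → Bool) // bad d G x} * Fintype.card C ^ d ≤
      4 * 8 ^ Fintype.card Γ * (3 ^ κ * (2 * T0)) ^ d *
        (Fintype.card C ^ Fintype.card Γ * 2 ^ Fintype.card (Γ × C)) := by
  classical
  obtain ⟨p, hp, happ⟩ := approx G L T0 κ hL hT0
  obtain ⟨c, hc, hpc⟩ := Deg.expand hp
  set D := 3 ^ κ * (2 * T0) with hD
  have hpc' : p = fun β => ∑ S, c S * chi S β := funext hpc
  -- Parseval for `p`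
  have hnorm : 2 ^ Fintype.card (Γ × C) * ∑ S, c S ^ 2 ≤ (2 : ℝ) ^ Fintype.card (Γ × C) := by
    rw [← parseval]
    calc ∑ β : Γ × C → Bool, (∑ S, c S * chi S β) ^ 2 ≤ ∑ _β : Γ × C → Bool, (1 : ℝ) := by
          refine sum_le_sum fun β _ => ?_
          rw [← hpc]
          have h1 := happ β
          nlinarith [h1.1, h1.2.1]
      _ = 2 ^ Fintype.card (Γ × C) := by
          rw [sum_const, card_univ, Fintype.card_fun, Fintype.card_bool, nsmul_eq_mul, mul_one]
          push_cast
          rfl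
  -- the value of the formula
  let b : (Γ × C → Bool) → ℤ := fun β => if G.eval β = true then 1 else 0
  have hpb : ∀ β, |p β - b β| ≤ (1 / 2) ^ (Fintype.card Γ + 1) := by
    intro β
    obtain ⟨h0, h1, h2, h3⟩ := happ β
    have h4 : ((1 : ℝ) / 2) ^ (2 ^ κ) ≤ (1 / 2) ^ (Fintype.card Γ + 1) :=
      pow_le_pow_of_le_one (by norm_num) (by norm_num) hκ
    rw [abs_le]
    show -_ ≤ p β - ((if G.eval β = true then 1 else 0 : ℤ) : ℝ) ∧
      p β - ((if G.eval β = true then 1 else 0 : ℤ) : ℝ) ≤ _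
    have h6 : (0 : ℝ) ≤ (1 / 2) ^ (Fintype.card Γ + 1) := by positivity
    cases hG : G.eval β
    · have := h3 hG
      simp only [Bool.false_eq_true, if_false, Int.cast_zero, sub_zero]
      constructor <;> linarith
    · have := h2 hG
      simp only [if_true, Int.cast_one]
      constructor <;> linarith
  -- a nonzero difference of the formula gives a large difference of `p`
  have hdiff : ∀ (st : Γ → C) (β : Γ × C → Bool) (T : Finset Γ),
      ∑ U ∈ T.powerset, (-1 : ℤ) ^ U.card * b (flip st U β) ≠ 0 → 1 ≤ 4 * diff p st T β ^ 2 := by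
    intro st β T hne
    have h1 : |((∑ U ∈ T.powerset, (-1 : ℤ) ^ U.card * b (flip st U β) : ℤ) : ℝ)| ≥ 1 := by
      rw [← Int.cast_abs]
      exact_mod_cast Int.one_le_abs hne
    have h2 : |diff p st T β - ((∑ U ∈ T.powerset, (-1 : ℤ) ^ U.card * b (flip st U β) : ℤ) : ℝ)| ≤
        1 / 2 := by
      unfold diff
      push_cast
      rw [← sum_sub_distrib]
      calc |∑ U ∈ T.powerset, ((-1) ^ U.card * p (flip st U β) - (-1) ^ U.card * (b (flip st U β) : ℝ))| ≤
            ∑ U ∈ T.powerset, |(-1) ^ U.card * p (flip st U β) - (-1) ^ U.card * (b (flip st U β) : ℝ)| :=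
            abs_sum_le_sum_abs _ _
        _ ≤ ∑ _U ∈ T.powerset, ((1 : ℝ) / 2) ^ (Fintype.card Γ + 1) := by
            refine sum_le_sum fun U _ => ?_
            rw [← mul_sub, abs_mul, abs_pow, abs_neg, abs_one, one_pow, one_mul]
            exact hpb _
        _ = 2 ^ T.card * (1 / 2) ^ (Fintype.card Γ + 1) := by
            rw [sum_const, card_powerset, nsmul_eq_mul]
            push_cast
            rfl
        _ ≤ 2 ^ Fintype.card Γ * (1 / 2) ^ (Fintype.card Γ + 1) := by
            apply mul_le_mul_of_nonneg_right _ (by positivity)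
            exact pow_le_pow_right₀ (by norm_num) (card_le_univ _)
        _ = 1 / 2 := by
            rw [pow_succ, ← mul_assoc, ← mul_pow]
            norm_num
    have h3 : 1 / 2 ≤ |diff p st T β| := by
      have := abs_sub_abs_le_abs_sub ((∑ U ∈ T.powerset, (-1 : ℤ) ^ U.card * b (flip st U β) : ℤ) : ℝ)
        (diff p st T β)
      rw [abs_sub_comm] at this
      linarith
    have h4 : diff p st T β ^ 2 = |diff p st T β| ^ 2 := (sq_abs _).symm
    rw [h4]
    nlinarith
  -- counting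
  have hcount : ((univ.filter fun x : (Γ → C) × (Γ × C → Bool) => bad d G x).card : ℝ) ≤
      ∑ T ∈ univ.filter (fun T : Finset Γ => d ≤ T.card), ∑ st : Γ → C, ∑ β : Γ × C → Bool,
        4 * diff p st T β ^ 2 := by
    rw [card_filter]
    push_cast
    have h1 : ∀ x : (Γ → C) × (Γ × C → Bool), (if bad d G x then (1 : ℝ) else 0) ≤
        ∑ T ∈ univ.filter (fun T : Finset Γ => d ≤ T.card), 4 * diff p x.1 T x.2 ^ 2 := by
      intro x
      split_ifs with hx
      · obtain ⟨T, hT, hne⟩ := hx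
        refine (hdiff x.1 x.2 T hne).trans ?_
        exact single_le_sum (f := fun T => 4 * diff p x.1 T x.2 ^ 2)
          (fun T _ => by positivity) (mem_filter.2 ⟨mem_univ _, hT⟩)
      · exact sum_nonneg fun T _ => by positivity
    refine (sum_le_sum fun x _ => h1 x).trans (le_of_eq ?_)
    rw [sum_comm]
    refine sum_congr rfl fun T _ => ?_
    rw [Fintype.sum_prod_type]
  have hcount2 : ((univ.filter fun x : (Γ → C) × (Γ × C → Bool) => bad d G x).card : ℝ) *
      (Fintype.card C : ℝ) ^ d ≤ 4 * 8 ^ Fintype.card Γ * (D : ℝ) ^ d *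
        ((Fintype.card C : ℝ) ^ Fintype.card Γ * 2 ^ Fintype.card (Γ × C)) := by
    calc ((univ.filter fun x : (Γ → C) × (Γ × C → Bool) => bad d G x).card : ℝ) *
          (Fintype.card C : ℝ) ^ d ≤ (∑ T ∈ univ.filter (fun T : Finset Γ => d ≤ T.card),
            ∑ st : Γ → C, ∑ β : Γ × C → Bool, 4 * diff p st T β ^ 2) * (Fintype.card C : ℝ) ^ d :=
          mul_le_mul_of_nonneg_right hcount (by positivity)
      _ = ∑ T ∈ univ.filter (fun T : Finset Γ => d ≤ T.card), 4 *
            ((∑ st : Γ → C, ∑ β : Γ × C → Bool, diff p st T β ^ 2) * (Fintype.card C : ℝ) ^ d) := by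
          rw [sum_mul]
          refine sum_congr rfl fun T _ => ?_
          simp only [← mul_sum]
          ring
      _ ≤ ∑ _T ∈ univ.filter (fun T : Finset Γ => d ≤ T.card), 4 *
            (4 ^ Fintype.card Γ * (D : ℝ) ^ d * (Fintype.card C : ℝ) ^ Fintype.card Γ *
              2 ^ Fintype.card (Γ × C)) := by
          refine sum_le_sum fun T hT => ?_
          apply mul_le_mul_of_nonneg_left _ (by norm_num)
          have h1 := sum_diff_sq c d D hc T (mem_filter.1 hT).2
          rw [← hpc'] at h1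
          exact h1.trans (mul_le_mul_of_nonneg_left hnorm (by positivity))
      _ ≤ ∑ _T : Finset Γ, 4 *
            (4 ^ Fintype.card Γ * (D : ℝ) ^ d * (Fintype.card C : ℝ) ^ Fintype.card Γ *
              2 ^ Fintype.card (Γ × C)) :=
          sum_le_sum_of_subset_of_nonneg (filter_subset _ _) fun T _ _ => by positivity
      _ = 4 * 8 ^ Fintype.card Γ * (D : ℝ) ^ d *
            ((Fintype.card C : ℝ) ^ Fintype.card Γ * 2 ^ Fintype.card (Γ × C)) := by
          rw [sum_const, card_univ, Fintype.card_finset, nsmul_eq_mul]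
          push_cast
          have : (8 : ℝ) ^ Fintype.card Γ = 2 ^ Fintype.card Γ * 4 ^ Fintype.card Γ := by
            rw [← mul_pow]
            norm_num
          rw [this]
          ring
  rw [Nat.card_eq_fintype_card, Fintype.card_subtype]
  exact_mod_cast hcount2

end Pool.Agent.Helper97.DM
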