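import Mathlib

/-!
# Binary numbers and digits
-/

set_option autoImplicit false

namespace Pool.Agent.Helper97.DM

open Finset

/-- The number with the binary digits `x 0, x 1, ...`. -/
def num {n : ℕ} (x : Fin n → Bool) : ℕ := ∑ j : Fin n, if x j = true then 2 ^ (j : ℕ) else 0

theorem num_eq_range {n : ℕ} (x : ℕ → Bool) :
    num (fun j : Fin n => x j) = ∑ j ∈ range n, if x j = true then 2 ^ j else 0 := by
  unfold num
  exact Fin.sum_univ_eq_sum_range (fun j => if x j = true then 2 ^ j else 0) n

theorem range_bits (n c : ℕ) (hc : c < 2 ^ n) :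
    ∑ j ∈ range n, (if c.testBit j = true then 2 ^ j else 0) = c := by
  induction n generalizing c with
  | zero =>
    rw [range_zero, sum_empty]
    omega
  | succ n ih =>
    rw [sum_range_succ']
    have h1 : ∀ j, (if c.testBit (j + 1) = true then 2 ^ (j + 1) else 0) =
        2 * (if (c / 2).testBit j = true then 2 ^ j else 0) := by
      intro j
      rw [Nat.testBit_succ]
      split_ifs
      · rw [pow_succ, mul_comm]
      · rfl
    rw [sum_congr rfl fun j _ => h1 j, ← mul_sum, ih (c / 2) (by rw [pow_succ] at hc; omega)]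
    rw [Nat.testBit_zero]
    rcases Nat.mod_two_eq_zero_or_one c with h | h
    · simp [h]
      omega
    · simp [h]
      omega

theorem exists_bits (n c : ℕ) (hc : c < 2 ^ n) : ∃ b : Fin n → Bool, num b = c :=
  ⟨fun j => c.testBit j, by rw [num_eq_range fun j => c.testBit j, range_bits n c hc]⟩

/-- A row with constant low bits and with variables at every second high position. -/
theorem exists_row (n off w c : ℕ) (hc : c < 2 ^ off) (hn : off + 2 * w ≤ n) :
    ∃ σ : Fin n → Fin w ⊕ Bool, ∀ x : Fin w → Bool, num (fun p => (σ p).elim x id) =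
      c + 2 ^ off * ∑ b : Fin w, if x b = true then 4 ^ (b : ℕ) else 0 := by
  let τ : ℕ → Fin w ⊕ Bool := fun p => if p < off then Sum.inr (c.testBit p) else
    if h : (p - off) % 2 = 0 ∧ (p - off) / 2 < w then Sum.inl ⟨(p - off) / 2, h.2⟩ else Sum.inr false
  refine ⟨fun p => τ p, fun x => ?_⟩
  rw [num_eq_range fun p => (τ p).elim x id]
  have h1 : n = off + (n - off) := by omega
  rw [h1, sum_range_add]
  congr 1
  · refine Eq.trans (sum_congr rfl fun p hp => ?_) (range_bits off c hc)
    rw [mem_range] at hp
    have : τ p = Sum.inr (c.testBit p) := if_pos hp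
    rw [this]
    rfl
  · -- the variables
    have h2 : ∀ p, τ (off + p) = if h : p % 2 = 0 ∧ p / 2 < w then Sum.inl ⟨p / 2, h.2⟩ else Sum.inr false := by
      intro p
      simp only [τ, Nat.add_sub_cancel_left]
      rw [if_neg (by omega)]
    let g : ℕ → ℕ := fun b => if h : b < w then (if x ⟨b, h⟩ = true then 4 ^ b else 0) else 0
    have h3 : ∀ m, ∑ p ∈ range (2 * m), (if ((τ (off + p)).elim x id) = true then 2 ^ (off + p) else 0) =
        2 ^ off * ∑ b ∈ range m, g b := by
      intro m
      induction m with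
      | zero => simp
      | succ m ih =>
        rw [show 2 * (m + 1) = 2 * m + 1 + 1 by ring, sum_range_succ, sum_range_succ, ih,
          sum_range_succ, mul_add]
        have e1 : (if ((τ (off + (2 * m + 1))).elim x id) = true then 2 ^ (off + (2 * m + 1)) else 0) = 0 := by
          rw [h2, dif_neg (by omega)]
          simp
        have e2 : (if ((τ (off + 2 * m)).elim x id) = true then 2 ^ (off + 2 * m) else 0) = 2 ^ off * g m := by
          rw [h2]
          show _ = 2 ^ off * (if h : m < w then (if x ⟨m, h⟩ = true then 4 ^ m else 0) else 0)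
          by_cases h : m < w
          · rw [dif_pos ⟨by omega, by omega⟩, dif_pos h]
            have e3 : (⟨2 * m / 2, by omega⟩ : Fin w) = ⟨m, h⟩ := Fin.ext (by simp)
            show (if x ⟨2 * m / 2, _⟩ = true then 2 ^ (off + 2 * m) else 0) = _
            rw [e3]
            split_ifs
            · rw [pow_add, pow_mul]
              norm_num
            · rfl
          · rw [dif_neg (by omega), dif_neg h]
            simp
        rw [e1, e2, add_zero]
    have h4 : ∑ p ∈ range (n - off), (if ((τ (off + p)).elim x id) = true then 2 ^ (off + p) else 0) =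
        ∑ p ∈ range (2 * w), (if ((τ (off + p)).elim x id) = true then 2 ^ (off + p) else 0) := by
      symm
      apply sum_subset (range_subset_range.2 (by omega))
      intro p _ hp
      rw [mem_range, not_lt] at hp
      rw [h2, dif_neg (by omega)]
      simp
    rw [h4, h3]
    congr 1
    rw [← Fin.sum_univ_eq_sum_range g w]
    refine sum_congr rfl fun b _ => ?_
    show (if h : b.val < w then (if x ⟨b, h⟩ = true then 4 ^ b.val else 0) else 0) = _
    rw [dif_pos b.2]

theorem digits_unique (D : ℕ) : ∀ (F : ℕ) (x y : Fin F → ℕ), (∀ i, x i < D) → (∀ i, y i < D) →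
    ∑ i, x i * D ^ (i : ℕ) = ∑ i, y i * D ^ (i : ℕ) → x = y
  | 0, x, y, _, _, _ => by
    funext i
    exact i.elim0
  | F + 1, x, y, hx, hy, h => by
    rw [Fin.sum_univ_succ, Fin.sum_univ_succ] at h
    simp only [Fin.val_zero, pow_zero, mul_one, Fin.val_succ, pow_succ] at h
    have e1 : ∀ z : Fin (F + 1) → ℕ, ∑ i : Fin F, z i.succ * (D ^ (i : ℕ) * D) =
        D * ∑ i : Fin F, z i.succ * D ^ (i : ℕ) := by
      intro z
      rw [mul_sum]
      refine sum_congr rfl fun i _ => ?_
      ring
    rw [e1, e1] at h
    have h0 : x 0 = y 0 := by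
      have h2 := congrArg (fun t => t % D) h
      simp only [Nat.add_mul_mod_self_left] at h2
      rwa [Nat.mod_eq_of_lt (hx 0), Nat.mod_eq_of_lt (hy 0)] at h2
    have hD : 0 < D := lt_of_le_of_lt (Nat.zero_le _) (hx 0)
    have h3 : ∑ i : Fin F, x i.succ * D ^ (i : ℕ) = ∑ i : Fin F, y i.succ * D ^ (i : ℕ) := by
      rw [h0] at h
      exact Nat.eq_of_mul_eq_mul_left hD (Nat.add_left_cancel h)
    have h4 := digits_unique D F (fun i => x i.succ) (fun i => y i.succ) (fun i => hx _) (fun i => hy _) h3
    funext i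
    refine Fin.cases h0 (fun i => ?_) i
    exact congrFun h4 i

theorem digits_lt (D : ℕ) : ∀ (F : ℕ) (x : Fin F → ℕ), (∀ i, x i < D) →
    ∑ i, x i * D ^ (i : ℕ) < D ^ F
  | 0, x, _ => by simp
  | F + 1, x, hx => by
    rw [Fin.sum_univ_succ]
    simp only [Fin.val_zero, pow_zero, mul_one, Fin.val_succ, pow_succ]
    have e1 : ∑ i : Fin F, x i.succ * (D ^ (i : ℕ) * D) = D * ∑ i : Fin F, x i.succ * D ^ (i : ℕ) := by
      rw [mul_sum]
      refine sum_congr rfl fun i _ => ?_
      ring
    have h1 := digits_lt D F (fun i => x i.succ) fun i => hx _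
    rw [e1]
    have h2 := hx 0
    have h3 : D * (∑ i : Fin F, x i.succ * D ^ (i : ℕ) + 1) ≤ D * D ^ F := Nat.mul_le_mul_left _ h1
    rw [mul_comm (D ^ F) D]
    rw [mul_add, mul_one] at h3
    omega

end Pool.Agent.Helper97.DM
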