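import Pool.Agent.Helper97.DM.SSLogic
import Pool.Agent.Helper97.DM.SSDigits

/-!
# The system of equations is solvable iff the table is one at the address
-/

set_option autoImplicit false
set_option linter.unusedSectionVars false

namespace Pool.Agent.Helper97.DM

open Finset

theorem unique_of_sum {R : Type} [Fintype R] [DecidableEq R] (f : R → Bool) (h : ∑ r, bt (f r) = 1) :
    ∃ r, f r = true ∧ ∀ g : R → Bool, ∑ r, bt (f r && g r) = bt (g r) := by
  have h1 : ∃ r, f r = true := by
    by_contra hcon
    push Not at hcon
    have : ∑ r, bt (f r) = 0 := sum_eq_zero fun r _ => by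
      have := hcon r
      cases h2 : f r
      · rfl
      · exact absurd h2 this
    omega
  obtain ⟨r, hr⟩ := h1
  refine ⟨r, hr, fun g => ?_⟩
  have h2 : ∀ r', r' ≠ r → f r' = false := by
    intro r' hne
    by_contra hcon
    have h3 : f r' = true := by
      cases h4 : f r'
      · exact absurd h4 hcon
      · rfl
    have h4 : ∑ r'' ∈ ({r, r'} : Finset R), bt (f r'') ≤ ∑ r, bt (f r) :=
      sum_le_sum_of_subset (subset_univ _)
    rw [sum_pair hne.symm, hr, h3, h] at h4
    simp [bt] at h4
  rw [Finset.sum_eq_single r]
  · rw [hr]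
    rfl
  · intro r' _ hne
    rw [h2 r' hne]
    rfl
  · intro h
    exact absurd (mem_univ _) h

variable {s w J : ℕ}

/-- the address made of two halves -/
def join (r j : AA s) : Fin (2 * s) → Bool := fun q =>
  if h : q.val < s then r ⟨q.val, h⟩ else j ⟨q.val - s, by have := q.2; omega⟩

/-- the halves of an address -/
def half1 (ζ : Fin (2 * s) → Bool) : AA s := fun i => ζ ⟨i.val, by have := i.2; omega⟩

/-- the halves of an address -/
def half2 (ζ : Fin (2 * s) → Bool) : AA s := fun i => ζ ⟨s + i.val, by have := i.2; omega⟩

theorem join_half (ζ : Fin (2 * s) → Bool) : join (half1 ζ) (half2 ζ) = ζ := by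
  funext q
  unfold join half1 half2
  split_ifs with h
  · rfl
  · congr 1
    exact Fin.ext (by simp; omega)

theorem link_iff (q : Fin (2 * s)) (r j : AA s) (b : Bool) :
    bt b + (bt (zr q r) + bt (zc q j)) = 1 ↔ join r j q = b := by
  unfold zr zc join
  split_ifs with h
  · cases b <;> cases r ⟨q.val, h⟩ <;> simp [bt]
  · cases b <;> cases j ⟨q.val - s, by have := q.2; omega⟩ <;> simp [bt]

theorem sum_four (w : ℕ) : 3 * ∑ b ∈ range w, 4 ^ b + 1 = 4 ^ w := by
  induction w with
  | zero => simp
  | succ w ih => rw [sum_range_succ, pow_succ, mul_add]; omega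

/-- the total of the variable rows of a block -/
def tot (x : (Fin (2 * s) × Fin 3) × (Fin w × Fin w) → Bool) (q : Fin (2 * s)) : ℕ :=
  ∑ ra : Fin 3 × Fin w, rowval x q ra

theorem tot_le (x : (Fin (2 * s) × Fin 3) × (Fin w × Fin w) → Bool) (q : Fin (2 * s)) :
    tot x q ≤ w * 4 ^ w := by
  have h1 : ∀ ra : Fin 3 × Fin w, rowval x q ra ≤ ∑ b ∈ range w, 4 ^ b := by
    intro ra
    rw [← Fin.sum_univ_eq_sum_range (fun b => 4 ^ b) w]
    unfold rowval
    refine sum_le_sum fun b _ => ?_
    split_ifs
    · exact le_rfl
    · exact Nat.zero_le _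
  have h2 : tot x q ≤ 3 * w * ∑ b ∈ range w, 4 ^ b := by
    unfold tot
    refine (sum_le_sum fun ra _ => h1 ra).trans (le_of_eq ?_)
    rw [sum_const, card_univ, Fintype.card_prod, Fintype.card_fin, Fintype.card_fin, smul_eq_mul]
  have h3 := sum_four w
  calc tot x q ≤ 3 * w * ∑ b ∈ range w, 4 ^ b := h2
    _ = w * (3 * ∑ b ∈ range w, 4 ^ b) := by ring
    _ ≤ w * 4 ^ w := Nat.mul_le_mul_left _ (by omega)

theorem tot_mod (x : (Fin (2 * s) × Fin 3) × (Fin w × Fin w) → Bool) (q : Fin (2 * s)) :
    tot x q % 3 = ones x q % 3 := by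
  have h1 : tot x q ≡ ones x q [MOD 3] := by
    have h2 : ones x q = ∑ ra : Fin 3 × Fin w, ∑ b : Fin w, if x ((q, ra.1), (ra.2, b)) = true then 1 else 0 := by
      unfold ones
      rw [Fintype.sum_prod_type]
      refine sum_congr rfl fun r _ => ?_
      rw [Fintype.sum_prod_type]
    rw [h2]
    unfold tot rowval
    rw [← ZMod.natCast_eq_natCast_iff]
    push_cast
    refine sum_congr rfl fun ra _ => sum_congr rfl fun b _ => ?_
    have h3 : (4 : ZMod 3) = 1 := by decide
    rw [h3, one_pow]
  exact h1

theorem exists_bin (J m : ℕ) (hm : m < 2 ^ J) :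
    ∃ v : Fin J → Bool, ∑ j : Fin J, (if v j = true then 3 * 2 ^ (j : ℕ) else 0) = 3 * m := by
  obtain ⟨b, hb⟩ := exists_bits J m hm
  refine ⟨b, ?_⟩
  rw [← hb]
  unfold num
  rw [mul_sum]
  refine sum_congr rfl fun j _ => ?_
  split_ifs <;> simp

theorem solvable_iff (T : (Fin (2 * s) → Bool) → Bool)
    (x : (Fin (2 * s) × Fin 3) × (Fin w × Fin w) → Bool) (ζ : Fin (2 * s) → Bool)
    (hones : ∀ i, ones x i % 3 = if ζ i = true then 1 else 0) (hJ : w * 4 ^ w + 5 ≤ 3 * 2 ^ J) :
    (∃ u : RR s w J → Bool, Sol (fun r j => T (join r j)) x u) ↔ T ζ = true := by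
  classical
  constructor
  · rintro ⟨u, hu⟩
    have h := (sol_iff _ x u).1 hu
    -- all the variable rows are in the solution
    have hA : ∀ p, u (Sum.inl p) = true := by
      intro p
      by_contra hcon
      have h1 : bt (u (Sum.inl p)) = 0 := by
        cases h2 : u (Sum.inl p)
        · rfl
        · exact absurd h2 hcon
      have h2 := h.eK
      rw [← add_sum_erase univ _ (mem_univ p), h1, zero_add] at h2
      have h3 : ∑ p' ∈ univ.erase p, bt (u (Sum.inl p')) ≤ ∑ _p' ∈ univ.erase p, 1 :=
        sum_le_sum fun _ _ => bt_le _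
      rw [sum_const, card_erase_of_mem (mem_univ p), card_univ, Fintype.card_prod, Fintype.card_prod,
        Fintype.card_fin, Fintype.card_fin, Fintype.card_fin, smul_eq_mul, mul_one, h2] at h3
      have h4 : 0 < 2 * s * (3 * w) := by
        have := p.1.2
        have h5 := p.2.2.2
        have h6 : 0 < 2 * s := by omega
        have h7 : 0 < 3 * w := by omega
        exact Nat.mul_pos h6 h7
      omega
    obtain ⟨r, hr, hr'⟩ := unique_of_sum _ h.eR
    obtain ⟨j, hj, hj'⟩ := unique_of_sum _ h.eC
    -- the claims
    have hclaim : ∀ q, u (Sum.inr (Sum.inr (Sum.inl (q, true)))) = ζ q := by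
      intro q
      have h1 := h.eV q
      have h2 : ∑ ra : Fin 3 × Fin w, (if u (Sum.inl (q, ra)) = true then rowval x q ra else 0) = tot x q :=
        sum_congr rfl fun ra _ => if_pos (hA _)
      have h3 : ∃ m, ∑ j : Fin J, (if u (Sum.inr (Sum.inl (q, j))) = true then 3 * 2 ^ (j : ℕ) else 0) =
          3 * m := by
        refine ⟨∑ j : Fin J, (if u (Sum.inr (Sum.inl (q, j))) = true then 2 ^ (j : ℕ) else 0), ?_⟩
        rw [mul_sum]
        refine sum_congr rfl fun j _ => ?_
        split_ifs <;> simp
      obtain ⟨m, hm⟩ := h3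
      rw [h2, hm] at h1
      have h4 := tot_mod x q
      rw [hones q] at h4
      cases h5 : u (Sum.inr (Sum.inr (Sum.inl (q, true)))) <;> cases h6 : ζ q <;>
        simp only [h5, h6, bt, if_true, Bool.false_eq_true, if_false] at h1 h4 <;>
        first | rfl | (exfalso; omega)
    have haddr : join r j = ζ := by
      funext q
      have h1 := h.eZ q
      rw [hr', hj' (fun j => zc q j), hclaim q] at h1
      exact (link_iff q r j (ζ q)).1 h1
    have hE0 : bt (u (Sum.inr (Sum.inr (Sum.inr (Sum.inr (j, 0)))))) = 0 := by
      have h1 := h.eD j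
      rw [hj] at h1
      simp only [bt, if_true] at h1 ⊢
      omega
    have h1 := h.eY j
    rw [hr', hE0, add_zero] at h1
    beta_reduce at h1
    rw [haddr] at h1
    cases h2 : T ζ
    · rw [h2] at h1
      simp [bt] at h1
    · rfl
  · intro hT
    -- the binary digits of the fillers
    have hm : ∀ q, ∃ v : Fin J → Bool, tot x q +
        (∑ j : Fin J, (if v j = true then 3 * 2 ^ (j : ℕ) else 0) + 2 * bt (ζ q)) = 3 * (2 ^ J - 1) := by
      intro q
      have h1 := tot_le x q
      have h2 := tot_mod x q
      rw [hones q] at h2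
      have h3 : ∃ m, tot x q + 2 * bt (ζ q) = 3 * m := by
        cases h4 : ζ q
        · rw [h4] at h2
          refine ⟨tot x q / 3, ?_⟩
          simp only [bt, Bool.false_eq_true, if_false] at h2 ⊢
          omega
        · rw [h4] at h2
          refine ⟨(tot x q + 2) / 3, ?_⟩
          simp only [bt, if_true] at h2 ⊢
          omega
      obtain ⟨m, hm⟩ := h3
      have h4 := bt_le (ζ q)
      have h5 : m ≤ 2 ^ J - 1 := by omega
      have h6 : 0 < 2 ^ J := by positivity
      obtain ⟨v, hv⟩ := exists_bin J (2 ^ J - 1 - m) (by omega)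
      refine ⟨v, ?_⟩
      rw [hv]
      omega
    choose v hv using hm
    let r := half1 ζ
    let j0 := half2 ζ
    have hrj : join r j0 = ζ := join_half ζ
    let u : RR s w J → Bool := fun ρ => match ρ with
      | Sum.inl _ => true
      | Sum.inr (Sum.inl p) => v p.1 p.2
      | Sum.inr (Sum.inr (Sum.inl p)) => decide (p.2 = ζ p.1)
      | Sum.inr (Sum.inr (Sum.inr (Sum.inl r'))) => decide (r' = r)
      | Sum.inr (Sum.inr (Sum.inr (Sum.inr p))) =>
          if p.1 = j0 then decide (p.2 = 2) else
            if T (join r p.1) = true then decide (p.2 = 1) else decide (p.2 = 0)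
    refine ⟨u, (sol_iff _ x u).2 ?_⟩
    have hsR : ∀ g : AA s → Bool, ∑ r', bt (decide (r' = r) && g r') = bt (g r) := by
      intro g
      rw [Finset.sum_eq_single r]
      · simp
      · intro r' _ hne
        simp [hne, bt]
      · intro h
        exact absurd (mem_univ _) h
    have hu2 : ∀ j, u (Sum.inr (Sum.inr (Sum.inr (Sum.inr (j, 2))))) = decide (j = j0) := by
      intro j
      show (if j = j0 then decide ((2 : Fin 3) = 2) else
            if T (join r j) = true then decide ((2 : Fin 3) = 1) else decide ((2 : Fin 3) = 0)) = _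
      by_cases h : j = j0
      · simp [h]
      · rw [if_neg h]
        split_ifs <;> simp [h]
    have hu1 : ∀ j, u (Sum.inr (Sum.inr (Sum.inr (Sum.inr (j, 1))))) =
        if j = j0 then false else T (join r j) := by
      intro j
      show (if j = j0 then decide ((1 : Fin 3) = 2) else
            if T (join r j) = true then decide ((1 : Fin 3) = 1) else decide ((1 : Fin 3) = 0)) = _
      by_cases h : j = j0
      · simp [h]
      · rw [if_neg h, if_neg h]
        cases T (join r j) <;> simp
    have hu0 : ∀ j, u (Sum.inr (Sum.inr (Sum.inr (Sum.inr (j, 0))))) =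
        if j = j0 then false else !(T (join r j)) := by
      intro j
      show (if j = j0 then decide ((0 : Fin 3) = 2) else
            if T (join r j) = true then decide ((0 : Fin 3) = 1) else decide ((0 : Fin 3) = 0)) = _
      by_cases h : j = j0
      · simp [h]
      · rw [if_neg h, if_neg h]
        cases T (join r j) <;> simp
    have hsC : ∀ g : AA s → Bool, ∑ j, bt (decide (j = j0) && g j) = bt (g j0) := by
      intro g
      rw [Finset.sum_eq_single j0]
      · simp
      · intro r' _ hne
        simp [hne, bt]
      · intro h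
        exact absurd (mem_univ _) h
    exact
      { eK := by
          show ∑ p : Fin (2 * s) × (Fin 3 × Fin w), bt true = 2 * s * (3 * w)
          rw [sum_const, card_univ, Fintype.card_prod, Fintype.card_prod, Fintype.card_fin,
            Fintype.card_fin, Fintype.card_fin, smul_eq_mul, bt_true, mul_one]
        eR := by
          show ∑ r', bt (decide (r' = r)) = 1
          have := hsR fun _ => true
          simp only [Bool.and_true, bt_true] at this
          exact this
        eC := by
          have := hsC fun _ => true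
          simp only [Bool.and_true, bt_true] at this
          rw [← this]
          exact sum_congr rfl fun j _ => by rw [hu2]
        eL := fun q => by
          show bt (decide (false = ζ q)) + bt (decide (true = ζ q)) = 1
          cases ζ q <;> simp [bt]
        eZ := fun q => by
          show bt (decide (true = ζ q)) + (∑ r', bt (decide (r' = r) && zr q r') +
            ∑ j, bt (u (Sum.inr (Sum.inr (Sum.inr (Sum.inr (j, 2))))) && zc q j)) = 1
          have e1 : ∑ j, bt (u (Sum.inr (Sum.inr (Sum.inr (Sum.inr (j, 2))))) && zc q j) = bt (zc q j0) := by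
            rw [← hsC fun j => zc q j]
            exact sum_congr rfl fun j _ => by rw [hu2]
          have e2 : decide (true = ζ q) = ζ q := by cases ζ q <;> simp
          rw [e1, hsR, e2]
          exact (link_iff q r j0 (ζ q)).2 (congrFun hrj q)
        eD := fun j => by
          rw [hu0, hu1, hu2]
          by_cases h : j = j0
          · simp [h, bt]
          · rw [if_neg h, if_neg h]
            cases T (join r j) <;> simp [h, bt]
        eY := fun j => by
          show ∑ r', bt (decide (r' = r) && T (join r' j)) +
            bt (u (Sum.inr (Sum.inr (Sum.inr (Sum.inr (j, 0)))))) = 1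
          rw [hsR fun r' => T (join r' j), hu0]
          by_cases h : j = j0
          · rw [if_pos h, h, hrj, hT]
            rfl
          · rw [if_neg h]
            cases T (join r j) <;> simp [bt]
        eV := fun q => by
          show ∑ ra : Fin 3 × Fin w, (if true = true then rowval x q ra else 0) +
            (∑ j : Fin J, (if v q j = true then 3 * 2 ^ (j : ℕ) else 0) + 2 * bt (decide (true = ζ q))) =
              3 * (2 ^ J - 1)
          have e2 : decide (true = ζ q) = ζ q := by cases ζ q <;> simp
          rw [e2, ← hv q]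
          simp only [if_true]
          rfl }

end Pool.Agent.Helper97.DM
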