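import Pool.Agent.Helper97.DM.SSDigits
import Pool.Agent.Helper97.DM.SSSolve

/-!
# The subset sum instance, in binary
-/

set_option autoImplicit false
set_option linter.unusedSectionVars false
set_option linter.unusedSimpArgs false

namespace Pool.Agent.Helper97.DM

open Finset

/-- SUBSET SUM: `X (some i, j)` is the digit `j` of the number `i`, and `X (none, j)` is the digit `j`
of the target. -/
def SubsetSum (n : ℕ) (X : Option (Fin n) × Fin n → Bool) : Prop :=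
  ∃ S : Finset (Fin n), ∑ i ∈ S, num (fun j => X (some i, j)) = num (fun j => X (none, j))

theorem num_zero {n : ℕ} : num (fun _ : Fin n => false) = 0 := by
  unfold num
  simp

theorem inst_abs {R X : Type} [Fintype R] (n : ℕ) (e : R ↪ Fin n) (N : R → (X → Bool) → ℕ)
    (hN : ∀ ρ, ∃ σ : Fin n → X ⊕ Bool, ∀ x, num (fun p => (σ p).elim x id) = N ρ x)
    (t : ℕ) (ht : t < 2 ^ n) :
    ∃ σ : Option (Fin n) × Fin n → X ⊕ Bool, ∀ x : X → Bool,
      SubsetSum n (fun u => (σ u).elim x id) ↔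
        ∃ u : R → Bool, ∑ ρ, (if u ρ = true then N ρ x else 0) = t := by
  classical
  choose r hr using hN
  obtain ⟨tb, htb⟩ := exists_bits n t ht
  let σ : Option (Fin n) × Fin n → X ⊕ Bool := fun u =>
    match u.1 with
    | none => Sum.inr (tb u.2)
    | some i => if h : ∃ ρ, e ρ = i then r h.choose u.2 else Sum.inr false
  refine ⟨σ, fun x => ?_⟩
  have h1 : ∀ ρ, num (fun j => (σ (some (e ρ), j)).elim x id) = N ρ x := by
    intro ρ
    rw [← hr ρ x]
    have h : ∃ ρ', e ρ' = e ρ := ⟨ρ, rfl⟩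
    have h2 : h.choose = ρ := e.injective h.choose_spec
    have h3 : ∀ j, σ (some (e ρ), j) = r ρ j := by
      intro j
      show (if h : ∃ ρ', e ρ' = e ρ then r h.choose j else Sum.inr false) = r ρ j
      rw [dif_pos h, h2]
    simp only [h3]
  have h0 : ∀ i, (¬ ∃ ρ, e ρ = i) → num (fun j => (σ (some i, j)).elim x id) = 0 := by
    intro i hi
    have h3 : ∀ j, σ (some i, j) = Sum.inr false := by
      intro j
      show (if h : ∃ ρ', e ρ' = i then r h.choose j else Sum.inr false) = Sum.inr false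
      rw [dif_neg hi]
    simp only [h3]
    exact num_zero
  have htt : num (fun j => (σ (none, j)).elim x id) = t := htb
  have hsum : ∀ S : Finset (Fin n), ∑ i ∈ S, num (fun j => (σ (some i, j)).elim x id) =
      ∑ ρ, if e ρ ∈ S then N ρ x else 0 := by
    intro S
    rw [← univ_inter S, ← sum_ite_mem univ S fun i => num (fun j => (σ (some i, j)).elim x id)]
    rw [← sum_subset (subset_univ (univ.map e)), sum_map]
    · refine sum_congr rfl fun ρ _ => ?_
      rw [h1, univ_inter]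
    · intro i _ hi
      rw [h0 i, ite_self]
      rintro ⟨ρ, hρ⟩
      exact hi (mem_map.2 ⟨ρ, mem_univ _, hρ⟩)
  constructor
  · rintro ⟨S, hS⟩
    refine ⟨fun ρ => decide (e ρ ∈ S), ?_⟩
    have h4 : ∑ i ∈ S, num (fun j => (σ (some i, j)).elim x id) = t := hS.trans htt
    rw [hsum] at h4
    rw [← h4]
    refine sum_congr rfl fun ρ _ => ?_
    simp only [decide_eq_true_eq]
  · rintro ⟨u, hu⟩
    refine ⟨(univ.filter fun ρ => u ρ = true).map e, ?_⟩
    show ∑ i ∈ (univ.filter fun ρ => u ρ = true).map e, num (fun j => (σ (some i, j)).elim x id) =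
      num (fun j => (σ (none, j)).elim x id)
    rw [htt, hsum, ← hu]
    refine sum_congr rfl fun ρ _ => ?_
    have h5 : e ρ ∈ (univ.filter fun ρ => u ρ = true).map e ↔ u ρ = true := by
      rw [mem_map' e, mem_filter]
      simp
    rw [if_congr h5 rfl rfl]

theorem two_digits {FF : Type} [Fintype FF] {F m : ℕ} (ε : FF ≃ Fin F) (D B : ℕ)
    (a b : FF → ℕ) (c d : Fin m → ℕ) (ha : ∀ f, a f < D) (hb : ∀ f, b f < D)
    (hc : ∀ q, c q < B) (hd : ∀ q, d q < B)
    (h : ∑ f, a f * D ^ (ε f : ℕ) + D ^ F * ∑ q, c q * B ^ (q : ℕ) =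
      ∑ f, b f * D ^ (ε f : ℕ) + D ^ F * ∑ q, d q * B ^ (q : ℕ)) : a = b ∧ c = d := by
  have hre : ∀ z : FF → ℕ, ∑ f, z f * D ^ (ε f : ℕ) = ∑ i : Fin F, z (ε.symm i) * D ^ (i : ℕ) := by
    intro z
    rw [← Equiv.sum_comp ε fun i : Fin F => z (ε.symm i) * D ^ (i : ℕ)]
    simp
  rw [hre, hre] at h
  have hA := digits_lt D F (fun i => a (ε.symm i)) fun i => ha _
  have hB := digits_lt D F (fun i => b (ε.symm i)) fun i => hb _
  have hDF : 0 < D ^ F := lt_of_le_of_lt (Nat.zero_le _) hA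
  have h1 : ∑ i : Fin F, a (ε.symm i) * D ^ (i : ℕ) = ∑ i : Fin F, b (ε.symm i) * D ^ (i : ℕ) := by
    have h2 := congrArg (fun t => t % D ^ F) h
    simp only [Nat.add_mul_mod_self_left] at h2
    rwa [Nat.mod_eq_of_lt hA, Nat.mod_eq_of_lt hB] at h2
  have h2 : ∑ q, c q * B ^ (q : ℕ) = ∑ q, d q * B ^ (q : ℕ) := by
    rw [h1] at h
    exact Nat.eq_of_mul_eq_mul_left hDF (Nat.add_left_cancel h)
  have h3 := digits_unique D F _ _ (fun i => ha _) (fun i => hb _) h1
  refine ⟨?_, digits_unique B m c d hc hd h2⟩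
  funext f
  have := congrFun h3 (ε f)
  simpa using this

theorem two_digits_lt {FF : Type} [Fintype FF] {F m : ℕ} (ε : FF ≃ Fin F) (D B : ℕ)
    (a : FF → ℕ) (c : Fin m → ℕ) (ha : ∀ f, a f < D) (hc : ∀ q, c q < B) :
    ∑ f, a f * D ^ (ε f : ℕ) + D ^ F * ∑ q, c q * B ^ (q : ℕ) < D ^ F * B ^ m := by
  have hre : ∀ z : FF → ℕ, ∑ f, z f * D ^ (ε f : ℕ) = ∑ i : Fin F, z (ε.symm i) * D ^ (i : ℕ) := by
    intro z
    rw [← Equiv.sum_comp ε fun i : Fin F => z (ε.symm i) * D ^ (i : ℕ)]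
    simp
  rw [hre]
  have hA := digits_lt D F (fun i => a (ε.symm i)) fun i => ha _
  have hB := digits_lt B m c hc
  calc _ < D ^ F + D ^ F * ∑ q, c q * B ^ (q : ℕ) := Nat.add_lt_add_right hA _
    _ = D ^ F * (∑ q, c q * B ^ (q : ℕ) + 1) := by ring
    _ ≤ D ^ F * B ^ m := Nat.mul_le_mul_left _ hB

theorem sum_four_pow (w : ℕ) : 3 * ∑ b : Fin w, 4 ^ (b : ℕ) + 1 = 4 ^ w := by
  rw [Fin.sum_univ_eq_sum_range fun b => 4 ^ b]
  induction w with
  | zero => simp
  | succ w ih =>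
    rw [sum_range_succ, mul_add, pow_succ]
    omega

theorem sum_two_pow (w : ℕ) : ∑ b : Fin w, 2 ^ (b : ℕ) + 1 = 2 ^ w := by
  rw [Fin.sum_univ_eq_sum_range fun b => 2 ^ b]
  induction w with
  | zero => simp
  | succ w ih =>
    rw [sum_range_succ, pow_succ]
    omega

variable {s w J : ℕ}

theorem rowval_le (x : (Fin (2 * s) × Fin 3) × (Fin w × Fin w) → Bool) (q : Fin (2 * s))
    (ra : Fin 3 × Fin w) : 3 * rowval x q ra + 1 ≤ 4 ^ w := by
  rw [← sum_four_pow w]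
  unfold rowval
  have : ∑ b : Fin w, (if x ((q, ra.1), (ra.2, b)) = true then 4 ^ (b : ℕ) else 0) ≤
      ∑ b : Fin w, 4 ^ (b : ℕ) := by
    refine sum_le_sum fun b _ => ?_
    split_ifs
    · exact le_rfl
    · exact Nat.zero_le _
  omega

theorem sum_big_lt (hJ : w * 4 ^ w ≤ 2 ^ J) (x : (Fin (2 * s) × Fin 3) × (Fin w × Fin w) → Bool)
    (u : RR s w J → Bool) (q : Fin (2 * s)) :
    ∑ ρ, (if u ρ = true then big x ρ q else 0) < 2 ^ (J + 3) := by
  have h1 : ∑ ρ, (if u ρ = true then big x ρ q else 0) ≤ ∑ ρ : RR s w J, big x ρ q := by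
    refine sum_le_sum fun ρ _ => ?_
    split_ifs
    · exact le_rfl
    · exact Nat.zero_le _
  have h2 : ∑ ρ : RR s w J, big x ρ q = ∑ ra : Fin 3 × Fin w, rowval x q ra +
      (∑ j : Fin J, 3 * 2 ^ (j : ℕ) + 2) := by
    rw [Fintype.sum_sum_type, Fintype.sum_sum_type, Fintype.sum_sum_type, Fintype.sum_sum_type]
    simp only [big, sum_const_zero, add_zero]
    congr 1
    · rw [Fintype.sum_prod_type, Finset.sum_eq_single q]
      · simp
      · intro q' _ hq'
        simp [hq']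
      · intro h
        exact absurd (mem_univ _) h
    · congr 1
      · rw [Fintype.sum_prod_type, Finset.sum_eq_single q]
        · simp
        · intro q' _ hq'
          simp [hq']
        · intro h
          exact absurd (mem_univ _) h
      · rw [Fintype.sum_prod_type, Finset.sum_eq_single q]
        · simp
        · intro q' _ hq'
          simp [hq']
        · intro h
          exact absurd (mem_univ _) h
  have h3 : 3 * ∑ ra : Fin 3 × Fin w, rowval x q ra ≤ 3 * (w * 4 ^ w) := by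
    rw [mul_sum]
    calc ∑ ra : Fin 3 × Fin w, 3 * rowval x q ra ≤ ∑ ra : Fin 3 × Fin w, 4 ^ w :=
          sum_le_sum fun ra _ => by
            have := rowval_le x q ra
            omega
      _ = 3 * (w * 4 ^ w) := by
          rw [sum_const, card_univ, Fintype.card_prod, Fintype.card_fin, Fintype.card_fin,
            smul_eq_mul, mul_assoc]
  have h4 : ∑ j : Fin J, 3 * 2 ^ (j : ℕ) + 3 = 3 * 2 ^ J := by
    rw [← mul_sum, ← sum_two_pow J]
    ring
  have h5 : 2 ^ (J + 3) = 8 * 2 ^ J := by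
    rw [pow_add]
    ring
  have h6 : 0 < 2 ^ J := by positivity
  rw [h2] at h1
  rw [h5]
  omega

theorem sum_small_lt (y : AA s → AA s → Bool) (u : RR s w J → Bool) (f : FF s) :
    ∑ ρ, bt (u ρ && small y ρ f) ≤ Fintype.card (RR s w J) := by
  calc ∑ ρ, bt (u ρ && small y ρ f) ≤ ∑ ρ : RR s w J, 1 := sum_le_sum fun ρ _ => bt_le _
    _ = Fintype.card (RR s w J) := by rw [sum_const, card_univ, smul_eq_mul, mul_one]

theorem card_RR : Fintype.card (RR s w J) = 6 * s * w + 2 * s * J + 4 * s + 4 * 2 ^ s := by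
  simp only [Fintype.card_sum, Fintype.card_prod, Fintype.card_fin, Fintype.card_fun, Fintype.card_bool]
  ring

theorem card_FF : Fintype.card (FF s) = 3 + 4 * s + 2 * 2 ^ s := by
  simp only [Fintype.card_sum, Fintype.card_fin, Fintype.card_fun, Fintype.card_bool,
    Fintype.card_unit]
  ring

/-- the number in the row `ρ` -/
def rowNum {F : ℕ} (y : AA s → AA s → Bool) (ε : FF s ≃ Fin F) (D B : ℕ)
    (x : (Fin (2 * s) × Fin 3) × (Fin w × Fin w) → Bool) (ρ : RR s w J) : ℕ :=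
  ∑ f, bt (small y ρ f) * D ^ (ε f : ℕ) + D ^ F * ∑ q, big x ρ q * B ^ (q : ℕ)

theorem sum_rowNum {F : ℕ} (y : AA s → AA s → Bool) (ε : FF s ≃ Fin F) (D B : ℕ)
    (x : (Fin (2 * s) × Fin 3) × (Fin w × Fin w) → Bool) (u : RR s w J → Bool) :
    ∑ ρ, (if u ρ = true then rowNum y ε D B x ρ else 0) =
      ∑ f, (∑ ρ, bt (u ρ && small y ρ f)) * D ^ (ε f : ℕ) +
        D ^ F * ∑ q, (∑ ρ, (if u ρ = true then big x ρ q else 0)) * B ^ (q : ℕ) := by
  have h : ∀ ρ, (if u ρ = true then rowNum y ε D B x ρ else 0) =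
      ∑ f, bt (u ρ && small y ρ f) * D ^ (ε f : ℕ) +
        D ^ F * ∑ q, (if u ρ = true then big x ρ q else 0) * B ^ (q : ℕ) := by
    intro ρ
    unfold rowNum
    cases u ρ
    · simp [bt_false]
    · simp
  rw [sum_congr rfl fun ρ _ => h ρ, sum_add_distrib, ← mul_sum]
  congr 1
  · rw [sum_comm]
    exact sum_congr rfl fun f _ => by rw [sum_mul]
  · congr 1
    rw [sum_comm]
    exact sum_congr rfl fun q _ => by rw [sum_mul]

theorem big_lt (hJ : w * 4 ^ w ≤ 2 ^ J) (x : (Fin (2 * s) × Fin 3) × (Fin w × Fin w) → Bool)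
    (ρ : RR s w J) (q : Fin (2 * s)) : big x ρ q < 2 ^ (J + 3) := by
  refine lt_of_le_of_lt ?_ (sum_big_lt (J := J) hJ x (fun _ => true) q)
  have := single_le_sum (f := fun ρ : RR s w J => if (fun _ => true : RR s w J → Bool) ρ = true then
    big x ρ q else 0) (fun _ _ => Nat.zero_le _) (mem_univ ρ)
  simpa using this

theorem row_exists {F : ℕ} (n Ws : ℕ) (y : AA s → AA s → Bool) (ε : FF s ≃ Fin F) (hWs : 1 ≤ Ws)
    (hbits : Ws * F + (J + 3) * (2 * s) ≤ n) (hJ : w * 4 ^ w ≤ 2 ^ J) (hJ2 : 2 * w ≤ J + 3)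
    (ρ : RR s w J) : ∃ σ : Fin n → ((Fin (2 * s) × Fin 3) × (Fin w × Fin w)) ⊕ Bool,
      ∀ x, num (fun p => (σ p).elim x id) = rowNum y ε (2 ^ Ws) (2 ^ (J + 3)) x ρ := by
  have hpow : (2 ^ Ws) ^ F * (2 ^ (J + 3)) ^ (2 * s) ≤ 2 ^ n := by
    rw [← pow_mul, ← pow_mul, ← pow_add]
    exact Nat.pow_le_pow_right (by norm_num) hbits
  have hconst : ∀ ρ' : RR s w J, (∀ x x', rowNum y ε (2 ^ Ws) (2 ^ (J + 3)) x ρ' =
      rowNum y ε (2 ^ Ws) (2 ^ (J + 3)) x' ρ') →
      ∃ σ : Fin n → ((Fin (2 * s) × Fin 3) × (Fin w × Fin w)) ⊕ Bool,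
      ∀ x, num (fun p => (σ p).elim x id) = rowNum y ε (2 ^ Ws) (2 ^ (J + 3)) x ρ' := by
    intro ρ' hρ'
    have h1 : rowNum y ε (2 ^ Ws) (2 ^ (J + 3)) (fun _ => false) ρ' < 2 ^ n := by
      refine lt_of_lt_of_le ?_ hpow
      refine two_digits_lt ε _ _ _ _ (fun f => ?_) fun q => big_lt hJ _ _ _
      refine lt_of_le_of_lt (bt_le _) ?_
      exact Nat.one_lt_two_pow (by omega)
    obtain ⟨b, hb⟩ := exists_bits n _ h1
    refine ⟨fun p => Sum.inr (b p), fun x => ?_⟩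
    rw [hρ' x fun _ => false, ← hb]
    rfl
  rcases ρ with ⟨q, ra⟩ | ρ
  · -- the rows with variables
    have hεF := (ε (Sum.inl (Sum.inl ()))).2
    have h1 : 2 ^ (Ws * (ε (Sum.inl (Sum.inl ())) : ℕ)) < 2 ^ (Ws * F + (J + 3) * q.val) := by
      apply Nat.pow_lt_pow_right (by norm_num)
      have : Ws * (ε (Sum.inl (Sum.inl ())) : ℕ) < Ws * F := Nat.mul_lt_mul_of_pos_left hεF hWs
      omega
    have h2 : Ws * F + (J + 3) * q.val + 2 * w ≤ n := by
      have h3 : (J + 3) * (q.val + 1) ≤ (J + 3) * (2 * s) := Nat.mul_le_mul_left _ q.2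
      rw [mul_add, mul_one] at h3
      omega
    obtain ⟨σ, hσ⟩ := exists_row n (Ws * F + (J + 3) * q.val) w _ h1 h2
    refine ⟨fun p => Sum.map (fun b => ((q, ra.1), (ra.2, b))) id (σ p), fun x => ?_⟩
    have h4 : (fun p => (Sum.map (fun b => ((q, ra.1), (ra.2, b))) id (σ p) :
        ((Fin (2 * s) × Fin 3) × (Fin w × Fin w)) ⊕ Bool).elim x id) =
        fun p => (σ p).elim (fun b => x ((q, ra.1), (ra.2, b))) id := by
      funext p
      cases σ p <;> rfl
    rw [h4, hσ]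
    unfold rowNum
    have h5 : ∑ f, bt (small y (Sum.inl (q, ra) : RR s w J) f) * (2 ^ Ws) ^ (ε f : ℕ) =
        2 ^ (Ws * (ε (Sum.inl (Sum.inl ())) : ℕ)) := by
      rw [Finset.sum_eq_single (Sum.inl (Sum.inl ()))]
      · simp only [small, bt_true, one_mul]
        rw [← pow_mul]
      · intro f _ hf
        have h6 : small y (Sum.inl (q, ra) : RR s w J) f = false := by
          rcases f with (⟨⟩ | (⟨⟩ | ⟨⟩)) | ((q | q) | (j | j))
          · exact absurd rfl hf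
          all_goals rfl
        rw [h6, bt_false, zero_mul]
      · intro h
        exact absurd (mem_univ _) h
    have h6 : ∑ q', big x (Sum.inl (q, ra) : RR s w J) q' * (2 ^ (J + 3)) ^ (q' : ℕ) =
        rowval x q ra * (2 ^ (J + 3)) ^ (q : ℕ) := by
      rw [Finset.sum_eq_single q]
      · simp [big]
      · intro q' _ hq'
        simp [big, hq'.symm]
      · intro h
        exact absurd (mem_univ _) h
    rw [h5, h6]
    congr 1
    rw [← pow_mul, ← pow_mul, mul_comm (rowval x q ra), ← mul_assoc, ← pow_add]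
    rfl
  · apply hconst
    intro x x'
    unfold rowNum
    have h7 : ∀ q, big x (Sum.inr ρ : RR s w J) q = big x' (Sum.inr ρ : RR s w J) q := by
      intro q
      rcases ρ with p | p | p
      all_goals rfl
    simp only [h7]

theorem inst_main (n Ws : ℕ) (hWs : 1 ≤ Ws) (hcard : Fintype.card (RR s w J) < 2 ^ Ws)
    (hn : Fintype.card (RR s w J) ≤ n)
    (hbits : Ws * Fintype.card (FF s) + (J + 3) * (2 * s) ≤ n) (hJ : w * 4 ^ w ≤ 2 ^ J)
    (hJ5 : w * 4 ^ w + 5 ≤ 3 * 2 ^ J) (hJ2 : 2 * w ≤ J + 3) (T : (Fin (2 * s) → Bool) → Bool) :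
    ∃ σ : Option (Fin n) × Fin n → ((Fin (2 * s) × Fin 3) × (Fin w × Fin w)) ⊕ Bool,
      ∀ (x : (Fin (2 * s) × Fin 3) × (Fin w × Fin w) → Bool) (ζ : Fin (2 * s) → Bool),
        (∀ i, ones x i % 3 = if ζ i = true then 1 else 0) →
          (SubsetSum n (fun u => (σ u).elim x id) ↔ T ζ = true) := by
  classical
  let ε : FF s ≃ Fin (Fintype.card (FF s)) := Fintype.equivFin (FF s)
  obtain ⟨e⟩ : Nonempty (RR s w J ↪ Fin n) :=
    Function.Embedding.nonempty_of_card_le (by rwa [Fintype.card_fin])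
  let y : AA s → AA s → Bool := fun r j => T (join r j)
  set t := ∑ f, tS (w := w) f * (2 ^ Ws) ^ (ε f : ℕ) + (2 ^ Ws) ^ Fintype.card (FF s) *
    ∑ q : Fin (2 * s), (3 * (2 ^ J - 1)) * (2 ^ (J + 3)) ^ (q : ℕ) with ht
  have hpow : (2 ^ Ws) ^ Fintype.card (FF s) * (2 ^ (J + 3)) ^ (2 * s) ≤ 2 ^ n := by
    rw [← pow_mul, ← pow_mul, ← pow_add]
    exact Nat.pow_le_pow_right (by norm_num) hbits
  have hts : ∀ f : FF s, tS (w := w) f < 2 ^ Ws := by
    have h1 : 2 * s * (3 * w) ≤ Fintype.card (RR s w J) := by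
      rw [card_RR]
      have : 2 * s * (3 * w) = 6 * s * w := by ring
      omega
    have h2 : 1 < 2 ^ Ws := Nat.one_lt_two_pow (by omega)
    rintro ((⟨⟩ | (⟨⟩ | ⟨⟩)) | ((q | q) | (j | j)))
    · exact lt_of_le_of_lt h1 hcard
    all_goals exact h2
  have htb : ∀ q : Fin (2 * s), 3 * (2 ^ J - 1) < 2 ^ (J + 3) := by
    intro _
    have h5 : 2 ^ (J + 3) = 8 * 2 ^ J := by
      rw [pow_add]
      ring
    have h6 : 0 < 2 ^ J := by positivity
    omega
  have ht2 : t < 2 ^ n := lt_of_lt_of_le (two_digits_lt ε _ _ _ _ hts htb) hpow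
  obtain ⟨σ, hσ⟩ := inst_abs n e (fun ρ x => rowNum y ε (2 ^ Ws) (2 ^ (J + 3)) x ρ)
    (fun ρ => row_exists n Ws y ε hWs hbits hJ hJ2 ρ) t ht2
  refine ⟨σ, fun x ζ hζ => ?_⟩
  rw [hσ x, ← solvable_iff T x ζ hζ hJ5]
  refine exists_congr fun u => ?_
  rw [sum_rowNum, ht]
  constructor
  · intro h
    obtain ⟨h1, h2⟩ := two_digits ε _ _ _ _ _ _
      (fun f => lt_of_le_of_lt (sum_small_lt y u f) hcard) hts
      (fun q => sum_big_lt hJ x u q) htb h
    exact ⟨fun f => congrFun h1 f, fun q => congrFun h2 q⟩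
  · rintro ⟨h1, h2⟩
    have e1 : (fun f => ∑ ρ, bt (u ρ && small y ρ f)) = tS (w := w) := funext h1
    congr 1
    · exact sum_congr rfl fun f _ => by rw [← h1 f]
    · congr 1
      exact sum_congr rfl fun q _ => by rw [← h2 q]

/-- The form used by `rand_core`. -/
theorem inst_log (n : ℕ) (s w : ℕ) (hs : 1 ≤ s) (hw : 1 ≤ w)
    (h : 20 * 2 ^ s + 4 * s * 3 * w ≤ n / (Nat.log 2 n + 3)) (T : (Fin (2 * s) → Bool) → Bool) :
    ∃ σ : Option (Fin n) × Fin n → ((Fin (2 * s) × Fin 3) × (Fin w × Fin w)) ⊕ Bool,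
      ∀ (x : (Fin (2 * s) × Fin 3) × (Fin w × Fin w) → Bool) (ζ : Fin (2 * s) → Bool),
        (∀ i, ones x i % 3 = if ζ i = true then 1 else 0) →
          (SubsetSum n (fun u => (σ u).elim x id) ↔ T ζ = true) := by
  have h1 : (20 * 2 ^ s + 4 * s * 3 * w) * (Nat.log 2 n + 3) ≤ n :=
    (Nat.mul_le_mul_right _ h).trans (Nat.div_mul_le_self _ _)
  have hs2 : s < 2 ^ s := Nat.lt_two_pow_self
  have hsw : s ≤ s * w := Nat.le_mul_of_pos_right _ hw
  have hw2 : w < 2 ^ w := Nat.lt_two_pow_self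
  have hcard : Fintype.card (RR s w (3 * w + 1)) ≤ 20 * 2 ^ s + 4 * s * 3 * w := by
    rw [card_RR]
    have e1 : 6 * s * w + 2 * s * (3 * w + 1) + 4 * s + 4 * 2 ^ s = 12 * (s * w) + 6 * s + 4 * 2 ^ s := by
      ring
    have e2 : 4 * s * 3 * w = 12 * (s * w) := by ring
    omega
  have hn : Fintype.card (RR s w (3 * w + 1)) ≤ n := by
    refine hcard.trans (le_trans ?_ h1)
    exact Nat.le_mul_of_pos_right _ (by omega)
  have hn0 : n ≠ 0 := by
    rintro rfl
    have : 0 < 2 ^ s := by positivity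
    simp at h
  have hJ : w * 4 ^ w ≤ 2 ^ (3 * w + 1) := by
    calc w * 4 ^ w ≤ 2 ^ w * 4 ^ w := Nat.mul_le_mul_right _ hw2.le
      _ = 2 ^ (3 * w) := by
          rw [show (4 : ℕ) = 2 ^ 2 by norm_num, ← pow_mul, ← pow_add]
          congr 1
          omega
      _ ≤ 2 ^ (3 * w + 1) := Nat.pow_le_pow_right (by norm_num) (by omega)
  have hJ4 : 2 ^ 2 ≤ 2 ^ (3 * w + 1) := Nat.pow_le_pow_right (by norm_num) (by omega)
  refine inst_main n (Nat.log 2 n + 1) (by omega)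
    (lt_of_le_of_lt hn (Nat.lt_pow_succ_log_self (by norm_num) n)) hn ?_ hJ (by omega) (by omega) T
  rw [card_FF]
  have h2 : (3 + 4 * s + 2 * 2 ^ s) ≤ 20 * 2 ^ s := by
    have : 1 ≤ 2 ^ s := Nat.one_le_two_pow
    omega
  have h3 : (3 * w + 1 + 3) * (2 * s) ≤ 20 * 2 ^ s + 4 * s * 3 * w := by
    have e1 : (3 * w + 1 + 3) * (2 * s) = 6 * (s * w) + 8 * s := by ring
    have e2 : 4 * s * 3 * w = 12 * (s * w) := by ring
    omega
  calc (Nat.log 2 n + 1) * (3 + 4 * s + 2 * 2 ^ s) + (3 * w + 1 + 3) * (2 * s) ≤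
        (Nat.log 2 n + 1) * (20 * 2 ^ s) + (20 * 2 ^ s + 4 * s * 3 * w) :=
        Nat.add_le_add (Nat.mul_le_mul_left _ h2) h3
    _ ≤ (20 * 2 ^ s + 4 * s * 3 * w) * (Nat.log 2 n + 3) := by
        have : (20 * 2 ^ s + 4 * s * 3 * w) * (Nat.log 2 n + 3) =
          (Nat.log 2 n + 1) * (20 * 2 ^ s) + (Nat.log 2 n + 1) * (4 * s * 3 * w) +
            2 * (20 * 2 ^ s + 4 * s * 3 * w) := by ring
        omega
    _ ≤ n := h1

end Pool.Agent.Helper97.DM
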