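import Pool.Agent.Helper97.DM.Hard

/-!
# The subset sum instance, as a system of equations
-/

set_option autoImplicit false
set_option linter.unusedSectionVars false
set_option linter.unusedSimpArgs false

namespace Pool.Agent.Helper97.DM

open Finset

/-- half addresses -/
abbrev AA (s : ℕ) : Type := Fin s → Bool

/-- the rows (numbers) -/
abbrev RR (s w J : ℕ) : Type :=
  (Fin (2 * s) × (Fin 3 × Fin w)) ⊕ ((Fin (2 * s) × Fin J) ⊕ ((Fin (2 * s) × Bool) ⊕
    (AA s ⊕ (AA s × Fin 3))))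

/-- the small fields -/
abbrev FF (s : ℕ) : Type :=
  (Unit ⊕ (Unit ⊕ Unit)) ⊕ ((Fin (2 * s) ⊕ Fin (2 * s)) ⊕ (AA s ⊕ AA s))

variable {s w J : ℕ}

/-- links of the row address -/
def zr (q : Fin (2 * s)) (r : AA s) : Bool := if h : q.val < s then !(r ⟨q.val, h⟩) else false

/-- links of the column address -/
def zc (q : Fin (2 * s)) (j : AA s) : Bool :=
  if h : q.val < s then false else !(j ⟨q.val - s, by have := q.2; omega⟩)

/-- the bits in the small fields -/
def small (y : AA s → AA s → Bool) : RR s w J → FF s → Bool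
  | Sum.inl _, Sum.inl (Sum.inl _) => true
  | Sum.inl _, Sum.inl (Sum.inr _) => false
  | Sum.inl _, Sum.inr _ => false
  | Sum.inr (Sum.inl _), _ => false
  | Sum.inr (Sum.inr (Sum.inl _)), Sum.inl _ => false
  | Sum.inr (Sum.inr (Sum.inl qv)), Sum.inr (Sum.inl (Sum.inl q)) => decide (qv.1 = q)
  | Sum.inr (Sum.inr (Sum.inl qv)), Sum.inr (Sum.inl (Sum.inr q)) => decide (qv.1 = q) && qv.2
  | Sum.inr (Sum.inr (Sum.inl _)), Sum.inr (Sum.inr _) => false
  | Sum.inr (Sum.inr (Sum.inr (Sum.inl _))), Sum.inl (Sum.inl _) => false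
  | Sum.inr (Sum.inr (Sum.inr (Sum.inl _))), Sum.inl (Sum.inr (Sum.inl _)) => true
  | Sum.inr (Sum.inr (Sum.inr (Sum.inl _))), Sum.inl (Sum.inr (Sum.inr _)) => false
  | Sum.inr (Sum.inr (Sum.inr (Sum.inl _))), Sum.inr (Sum.inl (Sum.inl _)) => false
  | Sum.inr (Sum.inr (Sum.inr (Sum.inl r))), Sum.inr (Sum.inl (Sum.inr q)) => zr q r
  | Sum.inr (Sum.inr (Sum.inr (Sum.inl _))), Sum.inr (Sum.inr (Sum.inl _)) => false
  | Sum.inr (Sum.inr (Sum.inr (Sum.inl r))), Sum.inr (Sum.inr (Sum.inr j)) => y r j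
  | Sum.inr (Sum.inr (Sum.inr (Sum.inr _))), Sum.inl (Sum.inl _) => false
  | Sum.inr (Sum.inr (Sum.inr (Sum.inr _))), Sum.inl (Sum.inr (Sum.inl _)) => false
  | Sum.inr (Sum.inr (Sum.inr (Sum.inr jk))), Sum.inl (Sum.inr (Sum.inr _)) => decide (jk.2 = 2)
  | Sum.inr (Sum.inr (Sum.inr (Sum.inr _))), Sum.inr (Sum.inl (Sum.inl _)) => false
  | Sum.inr (Sum.inr (Sum.inr (Sum.inr jk))), Sum.inr (Sum.inl (Sum.inr q)) =>
      decide (jk.2 = 2) && zc q jk.1
  | Sum.inr (Sum.inr (Sum.inr (Sum.inr jk))), Sum.inr (Sum.inr (Sum.inl j)) => decide (jk.1 = j)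
  | Sum.inr (Sum.inr (Sum.inr (Sum.inr jk))), Sum.inr (Sum.inr (Sum.inr j)) =>
      decide (jk.2 = 0) && decide (jk.1 = j)

/-- the value of a variable row -/
def rowval (x : (Fin (2 * s) × Fin 3) × (Fin w × Fin w) → Bool) (q : Fin (2 * s)) (ra : Fin 3 × Fin w) : ℕ :=
  ∑ b : Fin w, if x ((q, ra.1), (ra.2, b)) = true then 4 ^ (b : ℕ) else 0

/-- the values in the big fields -/
def big (x : (Fin (2 * s) × Fin 3) × (Fin w × Fin w) → Bool) : RR s w J → Fin (2 * s) → ℕ
  | Sum.inl p, q => if p.1 = q then rowval x p.1 p.2 else 0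
  | Sum.inr (Sum.inl p), q => if p.1 = q then 3 * 2 ^ (p.2 : ℕ) else 0
  | Sum.inr (Sum.inr (Sum.inl p)), q => if p.1 = q then (if p.2 = true then 2 else 0) else 0
  | Sum.inr (Sum.inr (Sum.inr _)), _ => 0

/-- the targets of the small fields -/
def tS : FF s → ℕ
  | Sum.inl (Sum.inl _) => 2 * s * (3 * w)
  | Sum.inl (Sum.inr _) => 1
  | Sum.inr _ => 1

/-- value of a bit -/
def bt (b : Bool) : ℕ := if b = true then 1 else 0

theorem bt_le (b : Bool) : bt b ≤ 1 := by
  cases b <;> simp [bt]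

/-- The solution `u` satisfies all the equations. -/
def Sol (y : AA s → AA s → Bool) (x : (Fin (2 * s) × Fin 3) × (Fin w × Fin w) → Bool)
    (u : RR s w J → Bool) : Prop :=
  (∀ f : FF s, ∑ ρ, bt (u ρ && small y ρ f) = tS (w := w) f) ∧
  ∀ q, ∑ ρ, (if u ρ = true then big x ρ q else 0) = 3 * (2 ^ J - 1)

/-- the equations in components -/
structure Eqs (y : AA s → AA s → Bool) (x : (Fin (2 * s) × Fin 3) × (Fin w × Fin w) → Bool)
    (uA : Fin (2 * s) × (Fin 3 × Fin w) → Bool) (uB : Fin (2 * s) × Fin J → Bool)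
    (uC : Fin (2 * s) × Bool → Bool) (uD : AA s → Bool) (uE : AA s × Fin 3 → Bool) : Prop where
  eK : ∑ p, bt (uA p) = 2 * s * (3 * w)
  eR : ∑ r, bt (uD r) = 1
  eC : ∑ j, bt (uE (j, 2)) = 1
  eL : ∀ q, bt (uC (q, false)) + bt (uC (q, true)) = 1
  eZ : ∀ q, bt (uC (q, true)) + (∑ r, bt (uD r && zr q r) + ∑ j, bt (uE (j, 2) && zc q j)) = 1
  eD : ∀ j, bt (uE (j, 0)) + bt (uE (j, 1)) + bt (uE (j, 2)) = 1
  eY : ∀ j, ∑ r, bt (uD r && y r j) + bt (uE (j, 0)) = 1
  eV : ∀ q, ∑ ra : Fin 3 × Fin w, (if uA (q, ra) = true then rowval x q ra else 0) +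
    (∑ j : Fin J, (if uB (q, j) = true then 3 * 2 ^ (j : ℕ) else 0) + 2 * bt (uC (q, true))) =
      3 * (2 ^ J - 1)

theorem bt_false : bt false = 0 := rfl

theorem bt_true : bt true = 1 := rfl

theorem bt_and (a b : Bool) : bt (a && b) = bt a * bt b := by
  cases a <;> cases b <;> simp [bt]

theorem bt_decide (P : Prop) [Decidable P] : bt (decide P) = if P then 1 else 0 := by
  unfold bt
  simp

theorem sol_iff (y : AA s → AA s → Bool) (x : (Fin (2 * s) × Fin 3) × (Fin w × Fin w) → Bool)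
    (u : RR s w J → Bool) : Sol y x u ↔ Eqs y x (fun p => u (Sum.inl p)) (fun p => u (Sum.inr (Sum.inl p)))
      (fun p => u (Sum.inr (Sum.inr (Sum.inl p)))) (fun p => u (Sum.inr (Sum.inr (Sum.inr (Sum.inl p)))))
      (fun p => u (Sum.inr (Sum.inr (Sum.inr (Sum.inr p))))) := by
  have hsplit : ∀ g : RR s w J → ℕ, ∑ ρ, g ρ = ∑ p, g (Sum.inl p) + (∑ p, g (Sum.inr (Sum.inl p)) +
      (∑ p, g (Sum.inr (Sum.inr (Sum.inl p))) + (∑ r, g (Sum.inr (Sum.inr (Sum.inr (Sum.inl r)))) +
        ∑ p, g (Sum.inr (Sum.inr (Sum.inr (Sum.inr p))))))) := by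
    intro g
    rw [Fintype.sum_sum_type, Fintype.sum_sum_type, Fintype.sum_sum_type, Fintype.sum_sum_type]
  have hb0 : ∀ b : Bool, bt (b && false) = 0 := fun b => by cases b <;> rfl
  have hb1 : ∀ b : Bool, bt (b && true) = bt b := fun b => by cases b <;> rfl
  -- the fields
  have fK : ∑ ρ, bt (u ρ && small y ρ (Sum.inl (Sum.inl ()))) = ∑ p, bt (u (Sum.inl p)) := by
    rw [hsplit]
    simp only [small, hb0, hb1, sum_const_zero, add_zero]
  have fR : ∑ ρ, bt (u ρ && small y ρ (Sum.inl (Sum.inr (Sum.inl ())))) =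
      ∑ r, bt (u (Sum.inr (Sum.inr (Sum.inr (Sum.inl r))))) := by
    rw [hsplit]
    simp only [small, hb0, hb1, sum_const_zero, add_zero, zero_add]
  have fC : ∑ ρ, bt (u ρ && small y ρ (Sum.inl (Sum.inr (Sum.inr ())))) =
      ∑ j, bt (u (Sum.inr (Sum.inr (Sum.inr (Sum.inr (j, 2)))))) := by
    rw [hsplit]
    simp only [small, hb0, hb1, sum_const_zero, add_zero, zero_add]
    rw [Fintype.sum_prod_type]
    refine sum_congr rfl fun j _ => ?_
    rw [Fin.sum_univ_three]
    simp [bt_and, bt_decide, bt_false, bt_true]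
  have fL : ∀ q, ∑ ρ, bt (u ρ && small y ρ (Sum.inr (Sum.inl (Sum.inl q)))) =
      bt (u (Sum.inr (Sum.inr (Sum.inl (q, false))))) + bt (u (Sum.inr (Sum.inr (Sum.inl (q, true))))) := by
    intro q
    rw [hsplit]
    simp only [small, hb0, hb1, sum_const_zero, add_zero, zero_add]
    rw [Fintype.sum_prod_type, Finset.sum_eq_single q]
    · rw [Fintype.sum_bool]
      simp [bt_and, bt_decide, add_comm]
    · intro q' _ hq'
      simp [bt_and, bt_decide, bt_false, hq']
    · intro h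
      exact absurd (mem_univ _) h
  have fZ : ∀ q, ∑ ρ, bt (u ρ && small y ρ (Sum.inr (Sum.inl (Sum.inr q)))) =
      bt (u (Sum.inr (Sum.inr (Sum.inl (q, true))))) +
        (∑ r, bt (u (Sum.inr (Sum.inr (Sum.inr (Sum.inl r)))) && zr q r) +
          ∑ j, bt (u (Sum.inr (Sum.inr (Sum.inr (Sum.inr (j, 2))))) && zc q j)) := by
    intro q
    rw [hsplit]
    simp only [small, hb0, hb1, sum_const_zero, add_zero, zero_add]
    congr 1
    · rw [Fintype.sum_prod_type, Finset.sum_eq_single q]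
      · rw [Fintype.sum_bool]
        simp [bt_and, bt_decide, bt_false, bt_true]
      · intro q' _ hq'
        simp [bt_and, bt_decide, bt_false, hq']
      · intro h
        exact absurd (mem_univ _) h
    · congr 1
      rw [Fintype.sum_prod_type]
      refine sum_congr rfl fun j _ => ?_
      rw [Fin.sum_univ_three]
      simp [bt_and, bt_decide, bt_false, bt_true]
  have fD : ∀ j, ∑ ρ, bt (u ρ && small y ρ (Sum.inr (Sum.inr (Sum.inl j)))) =
      bt (u (Sum.inr (Sum.inr (Sum.inr (Sum.inr (j, 0)))))) +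
        bt (u (Sum.inr (Sum.inr (Sum.inr (Sum.inr (j, 1)))))) +
          bt (u (Sum.inr (Sum.inr (Sum.inr (Sum.inr (j, 2)))))) := by
    intro j
    rw [hsplit]
    simp only [small, hb0, hb1, sum_const_zero, add_zero, zero_add]
    rw [Fintype.sum_prod_type, Finset.sum_eq_single j]
    · rw [Fin.sum_univ_three]
      simp [bt_and, bt_decide, bt_false, bt_true]
    · intro q' _ hq'
      simp [bt_and, bt_decide, bt_false, hq']
    · intro h
      exact absurd (mem_univ _) h
  have fY : ∀ j, ∑ ρ, bt (u ρ && small y ρ (Sum.inr (Sum.inr (Sum.inr j)))) =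
      ∑ r, bt (u (Sum.inr (Sum.inr (Sum.inr (Sum.inl r)))) && y r j) +
        bt (u (Sum.inr (Sum.inr (Sum.inr (Sum.inr (j, 0)))))) := by
    intro j
    rw [hsplit]
    simp only [small, hb0, hb1, sum_const_zero, add_zero, zero_add]
    congr 1
    rw [Fintype.sum_prod_type, Finset.sum_eq_single j]
    · rw [Fin.sum_univ_three]
      simp [bt_and, bt_decide, bt_false, bt_true]
    · intro q' _ hq'
      simp [bt_and, bt_decide, bt_false, hq']
    · intro h
      exact absurd (mem_univ _) h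
  have fV : ∀ q, ∑ ρ, (if u ρ = true then big x ρ q else 0) =
      ∑ ra : Fin 3 × Fin w, (if u (Sum.inl (q, ra)) = true then rowval x q ra else 0) +
        (∑ j : Fin J, (if u (Sum.inr (Sum.inl (q, j))) = true then 3 * 2 ^ (j : ℕ) else 0) +
          2 * bt (u (Sum.inr (Sum.inr (Sum.inl (q, true)))))) := by
    intro q
    rw [hsplit]
    simp only [big, ite_self, sum_const_zero, add_zero]
    congr 1
    · rw [Fintype.sum_prod_type, Finset.sum_eq_single q]
      · simp
      · intro q' _ hq'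
        simp [hq']
      · intro h
        exact absurd (mem_univ _) h
    · congr 1
      · rw [Fintype.sum_prod_type, Finset.sum_eq_single q]
        · simp
        · intro q' _ hq'
          simp [hq']
        · intro h
          exact absurd (mem_univ _) h
      · rw [Fintype.sum_prod_type, Finset.sum_eq_single q]
        · rw [Fintype.sum_bool]
          simp [bt]
        · intro q' _ hq'
          simp [hq']
        · intro h
          exact absurd (mem_univ _) h
  constructor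
  · rintro ⟨h1, h2⟩
    exact
      { eK := by rw [← fK]; exact h1 _
        eR := by rw [← fR]; exact h1 _
        eC := by rw [← fC]; exact h1 _
        eL := fun q => by rw [← fL]; exact h1 _
        eZ := fun q => by rw [← fZ]; exact h1 _
        eD := fun j => by rw [← fD]; exact h1 _
        eY := fun j => by rw [← fY]; exact h1 _
        eV := fun q => by rw [← fV]; exact h2 q }
  · intro h
    refine ⟨?_, fun q => by rw [fV]; exact h.eV q⟩
    rintro ((⟨⟩ | (⟨⟩ | ⟨⟩)) | ((q | q) | (j | j)))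
    · rw [fK]; exact h.eK
    · rw [fR]; exact h.eR
    · rw [fC]; exact h.eC
    · rw [fL]; exact h.eL q
    · rw [fZ]; exact h.eZ q
    · rw [fD]; exact h.eD j
    · rw [fY]; exact h.eY j

end Pool.Agent.Helper97.DM
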