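import Pool.Agent.Helper97.DM.Core
import Pool.Agent.Helper97.DM.SSInst

/-!
# Randomised De Morgan formulas for SUBSET SUM
-/

set_option autoImplicit false

namespace Pool.Agent.Helper97.DM

open Finset Filter

theorem eventually_size (a : ℝ) (ha : 0 < a) (ha1 : a < 1) (n₁ : ℕ) : ∃ n₀ : ℕ, ∀ n : ℕ, n₀ ≤ n →
    n₁ ≤ n / (Nat.log 2 n + 3) ∧ (n : ℝ) ^ (1 - a) ≤ ((n / (Nat.log 2 n + 3) : ℕ) : ℝ) := by
  have h1 : ∀ᶠ n : ℕ in atTop, ‖Real.log n‖ ≤ 1 / 8 * ‖(n : ℝ) ^ a‖ :=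
    tendsto_natCast_atTop_atTop.eventually ((isLittleO_log_rpow_atTop ha).bound (by norm_num))
  have h2 : ∀ᶠ n : ℕ in atTop, 16 ≤ (n : ℝ) ^ a :=
    ((tendsto_rpow_atTop ha).comp tendsto_natCast_atTop_atTop).eventually_ge_atTop 16
  have h3 : ∀ᶠ n : ℕ in atTop, (n₁ : ℝ) + 1 ≤ (n : ℝ) ^ (1 - a) :=
    ((tendsto_rpow_atTop (by linarith : 0 < 1 - a)).comp
      tendsto_natCast_atTop_atTop).eventually_ge_atTop _
  obtain ⟨n₀, hn₀⟩ := eventually_atTop.1 (h1.and (h2.and (h3.and (eventually_ge_atTop 1))))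
  refine ⟨n₀, fun n hn => ?_⟩
  obtain ⟨e1, e2, e3, e4⟩ := hn₀ n hn
  have hn1 : (1 : ℝ) ≤ n := by exact_mod_cast e4
  have hlog0 : 0 ≤ Real.log n := Real.log_nonneg hn1
  have hna : 0 < (n : ℝ) ^ a := by positivity
  rw [Real.norm_of_nonneg hlog0, Real.norm_of_nonneg hna.le] at e1
  have hL : (Nat.log 2 n : ℝ) ≤ 2 * Real.log n := by
    have h4 : ((2 ^ Nat.log 2 n : ℕ) : ℝ) ≤ n := by
      exact_mod_cast Nat.pow_log_le_self 2 (by omega)
    have h5 : Real.log ((2 ^ Nat.log 2 n : ℕ) : ℝ) ≤ Real.log n :=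
      Real.log_le_log (by positivity) h4
    push_cast at h5
    rw [Real.log_pow] at h5
    have h6 : (1 : ℝ) / 2 ≤ Real.log 2 := by
      have := Real.log_two_gt_d9
      linarith
    have h7 : (Nat.log 2 n : ℝ) * (1 / 2) ≤ Nat.log 2 n * Real.log 2 :=
      mul_le_mul_of_nonneg_left h6 (Nat.cast_nonneg _)
    linarith
  set M := Nat.log 2 n + 3 with hM
  have hMR : (M : ℝ) = Nat.log 2 n + 3 := by
    rw [hM]
    push_cast
    ring
  have hM2 : 2 * (M : ℝ) ≤ (n : ℝ) ^ a := by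
    rw [hMR]
    linarith
  have hM0 : (0 : ℝ) < M := by
    rw [hMR]
    positivity
  have hsplit : (n : ℝ) = (n : ℝ) ^ a * (n : ℝ) ^ (1 - a) := by
    rw [← Real.rpow_add (by linarith)]
    simp
  have hn1a : 1 ≤ (n : ℝ) ^ (1 - a) := Real.one_le_rpow hn1 (by linarith)
  have hmain : (n : ℝ) ^ (1 - a) ≤ ((n / M : ℕ) : ℝ) := by
    have h8 : (n : ℝ) < ((n / M : ℕ) + 1) * M := by
      have h9 : n < (n / M + 1) * M := by
        have := Nat.lt_div_mul_add (a := n) (b := M) (by omega)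
        rw [add_mul, one_mul]
        exact this
      exact_mod_cast h9
    have h9 : 2 * (M : ℝ) * (n : ℝ) ^ (1 - a) ≤ n := by
      calc 2 * (M : ℝ) * (n : ℝ) ^ (1 - a) ≤ (n : ℝ) ^ a * (n : ℝ) ^ (1 - a) :=
            mul_le_mul_of_nonneg_right hM2 (by positivity)
        _ = n := hsplit.symm
    have h10 : 2 * (n : ℝ) ^ (1 - a) < (n / M : ℕ) + 1 := by
      have h11 : (2 * (n : ℝ) ^ (1 - a)) * M < ((n / M : ℕ) + 1) * M := by linarith
      exact lt_of_mul_lt_mul_right h11 hM0.le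
    linarith
  refine ⟨?_, hmain⟩
  have h12 : (n₁ : ℝ) ≤ ((n / M : ℕ) : ℝ) := by linarith
  exact_mod_cast h12

theorem ss_large (ε δ : ℝ) (hε : 0 < ε) (hε1 : ε ≤ 1) (hδ : 0 < δ) (hδ1 : δ ≤ 1) :
    ∃ n₀ : ℕ, ∀ n : ℕ, n₀ ≤ n → ∀ (Ω : Type) [Fintype Ω] (w : Ω → ℝ)
      (F : Ω → DFormula (Option (Fin n) × Fin n)), (∀ ω, 0 ≤ w ω) → ∑ ω, w ω = 1 →
      (∀ X, 1 / 2 + δ ≤ ∑ ω, w ω * (@ite ℝ ((F ω).eval X = true ↔ SubsetSum n X)
        (Classical.dec _) 1 0)) →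
      δ / 4 * (n : ℝ) ^ (6 - ε) ≤ ∑ ω, w ω * ((F ω).size : ℝ) := by
  classical
  obtain ⟨n₁, H⟩ := rand_core 3 20 (by norm_num) (by norm_num) (ε / 8) (by positivity) (by linarith) δ hδ hδ1
  obtain ⟨n₂, H2⟩ := eventually_size (ε / 12) (by positivity) (by linarith) n₁
  refine ⟨n₂ + 1, fun n hn Ω _ w F hw hw1 hF => ?_⟩
  obtain ⟨h1, h2⟩ := H2 n (by omega)
  have h3 := H _ h1 (Option (Fin n) × Fin n) (fun X => decide (SubsetSum n X))
    (fun s v hs hv hsv T => by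
      obtain ⟨σ, hσ⟩ := inst_log n s v hs hv hsv T
      refine ⟨σ, fun β ζ hβ => ?_⟩
      have h4 := hσ β ζ hβ
      by_cases hT : T ζ = true
      · rw [hT]
        exact decide_eq_true (h4.2 hT)
      · rw [Bool.not_eq_true] at hT
        rw [hT]
        refine decide_eq_false fun h5 => ?_
        rw [h4.1 h5] at hT
        exact absurd hT (by decide)) Ω w F hw hw1 (fun X => by
      refine (hF X).trans (le_of_eq (sum_congr rfl fun ω _ => ?_))
      congr 1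
      by_cases h5 : SubsetSum n X
      · have : ((F ω).eval X = true ↔ SubsetSum n X) ↔ (F ω).eval X = decide (SubsetSum n X) := by
          simp [h5]
        simp only [this]
      · have : ((F ω).eval X = true ↔ SubsetSum n X) ↔ (F ω).eval X = decide (SubsetSum n X) := by
          simp [h5]
        simp only [this])
  have hn1 : (1 : ℝ) ≤ n := by
    have : 1 ≤ n := by omega
    exact_mod_cast this
  have h6 : (n : ℝ) ^ (6 - ε) ≤ ((n / (Nat.log 2 n + 3) : ℕ) : ℝ) ^ (6 - 4 * (ε / 8)) := by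
    calc (n : ℝ) ^ (6 - ε) ≤ (n : ℝ) ^ ((1 - ε / 12) * (6 - 4 * (ε / 8))) := by
          apply Real.rpow_le_rpow_of_exponent_le hn1
          nlinarith
      _ = ((n : ℝ) ^ (1 - ε / 12)) ^ (6 - 4 * (ε / 8)) := Real.rpow_mul (by positivity) _ _
      _ ≤ _ := Real.rpow_le_rpow (by positivity) h2 (by linarith)
  exact (mul_le_mul_of_nonneg_left h6 (by positivity)).trans h3

/-- A randomised formula with two-sided error for a nonconstant function has positive size. -/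
theorem rand_nonconst {V : Type} (P : (V → Bool) → Prop) (X₀ X₁ : V → Bool) (h0 : P X₀) (h1 : ¬ P X₁)
    (δ : ℝ) (Ω : Type) [Fintype Ω] (w : Ω → ℝ) (F : Ω → DFormula V) (hw : ∀ ω, 0 ≤ w ω)
    (hw1 : ∑ ω, w ω = 1)
    (hF : ∀ X, 1 / 2 + δ ≤ ∑ ω, w ω * (@ite ℝ ((F ω).eval X = true ↔ P X) (Classical.dec _) 1 0)) :
    2 * δ ≤ ∑ ω, w ω * ((F ω).size : ℝ) := by
  classical
  have e0 := hF X₀
  have e1 := hF X₁
  have e2 : ∀ ω, w ω * (@ite ℝ ((F ω).eval X₀ = true ↔ P X₀) (Classical.dec _) 1 0) +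
      w ω * (@ite ℝ ((F ω).eval X₁ = true ↔ P X₁) (Classical.dec _) 1 0) ≤
        w ω + w ω * ((F ω).size : ℝ) := by
    intro ω
    have h3 := hw ω
    rcases Nat.eq_zero_or_pos (F ω).size with h0' | h0'
    · have h4 := DFormula.eval_const (F ω) h0' X₀ X₁
      rw [h4, h0']
      simp only [h0, h1, iff_true, iff_false]
      cases (F ω).eval X₁ <;> simp
    · have h7 : (1 : ℝ) ≤ (F ω).size := by exact_mod_cast h0'
      have h8 : ∀ Q : Prop, w ω * (@ite ℝ Q (Classical.dec _) 1 0) ≤ w ω := by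
        intro Q
        split_ifs
        · rw [mul_one]
        · rw [mul_zero]
          exact h3
      have h9 := h8 ((F ω).eval X₀ = true ↔ P X₀)
      have h10 := h8 ((F ω).eval X₁ = true ↔ P X₁)
      have h11 : w ω * 1 ≤ w ω * ((F ω).size : ℝ) := mul_le_mul_of_nonneg_left h7 h3
      linarith
  have e3 := sum_le_sum fun ω (_ : ω ∈ univ) => e2 ω
  rw [sum_add_distrib, sum_add_distrib, hw1] at e3
  linarith

theorem subsetSum_zero (n : ℕ) : SubsetSum n fun _ => false := by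
  refine ⟨∅, ?_⟩
  rw [sum_empty]
  exact num_zero.symm

theorem subsetSum_one (n : ℕ) (hn : 1 ≤ n) : ¬ SubsetSum n fun u => decide (u.1 = none) := by
  rintro ⟨S, hS⟩
  have h1 : ∀ i : Fin n, num (fun j : Fin n => decide ((some i : Option (Fin n)) = none)) = 0 := by
    intro i
    simp [num]
  have h2 : ∑ i ∈ S, num (fun j : Fin n => decide ((some i : Option (Fin n)) = none)) = 0 :=
    sum_eq_zero fun i _ => h1 i
  have h3 : 0 < num (fun j : Fin n => decide ((none : Option (Fin n)) = none)) := by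
    unfold num
    apply sum_pos
    · intro i _
      simp
    · exact ⟨⟨0, hn⟩, mem_univ _⟩
  have h4 : ∑ i ∈ S, num (fun j : Fin n => decide ((some i : Option (Fin n)) = none)) =
      num (fun j : Fin n => decide ((none : Option (Fin n)) = none)) := hS
  omega

/-- Randomised formulas with two-sided error for SUBSET SUM. -/
theorem ss_main (ε δ : ℝ) (hε : 0 < ε) (hδ : 0 < δ) : ∃ c : ℝ, 0 < c ∧ ∀ n : ℕ, 1 ≤ n →
      ∀ (Ω : Type) [Fintype Ω] (w : Ω → ℝ)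
      (F : Ω → DFormula (Option (Fin n) × Fin n)), (∀ ω, 0 ≤ w ω) → ∑ ω, w ω = 1 →
      (∀ X, 1 / 2 + δ ≤ ∑ ω, w ω * (@ite ℝ ((F ω).eval X = true ↔ SubsetSum n X)
        (Classical.dec _) 1 0)) →
      c * (n : ℝ) ^ (6 - ε) ≤ ∑ ω, w ω * ((F ω).size : ℝ) := by
  classical
  obtain ⟨n₀, H⟩ := ss_large (min ε 1) (min δ 1) (by positivity) (min_le_right _ _) (by positivity)
    (min_le_right _ _)
  refine ⟨min δ 1 / 4 / ((n₀ : ℝ) + 1) ^ 6, by positivity, fun n hn Ω _ w F hw hw1 hF => ?_⟩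
  have hn1 : (1 : ℝ) ≤ n := by exact_mod_cast hn
  have hδ' : 0 < min δ 1 := by positivity
  rcases Nat.lt_or_ge n n₀ with h | h
  · -- small `n`
    have h1 : (n : ℝ) ^ (6 - ε) ≤ ((n₀ : ℝ) + 1) ^ 6 := by
      calc (n : ℝ) ^ (6 - ε) ≤ (n : ℝ) ^ ((6 : ℕ) : ℝ) :=
            Real.rpow_le_rpow_of_exponent_le hn1 (by push_cast; linarith)
        _ = (n : ℝ) ^ 6 := Real.rpow_natCast _ _
        _ ≤ ((n₀ : ℝ) + 1) ^ 6 := by
            apply pow_le_pow_left₀ (by positivity)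
            have : (n : ℝ) ≤ n₀ := by exact_mod_cast h.le
            linarith
    have h2 := rand_nonconst (SubsetSum n) _ _ (subsetSum_zero n) (subsetSum_one n hn) δ Ω w F hw hw1 hF
    have h3 : min δ 1 ≤ δ := min_le_left _ _
    calc min δ 1 / 4 / ((n₀ : ℝ) + 1) ^ 6 * (n : ℝ) ^ (6 - ε) ≤
          min δ 1 / 4 / ((n₀ : ℝ) + 1) ^ 6 * ((n₀ : ℝ) + 1) ^ 6 :=
          mul_le_mul_of_nonneg_left h1 (by positivity)
      _ = min δ 1 / 4 := by field_simp
      _ ≤ 2 * δ := by linarith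
      _ ≤ _ := h2
  · -- large `n`
    have h1 := H n h Ω w F hw hw1 fun X => by
      have := hF X
      have h2 : min δ 1 ≤ δ := min_le_left _ _
      linarith
    have h2 : (n : ℝ) ^ (6 - ε) ≤ (n : ℝ) ^ (6 - min ε 1) :=
      Real.rpow_le_rpow_of_exponent_le hn1 (by
        have := min_le_left ε 1
        linarith)
    have h3 : min δ 1 / 4 / ((n₀ : ℝ) + 1) ^ 6 ≤ min δ 1 / 4 := by
      apply div_le_self (by positivity)
      exact one_le_pow₀ (by linarith [Nat.cast_nonneg (α := ℝ) n₀])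
    have h4 : 0 ≤ (n : ℝ) ^ (6 - ε) := Real.rpow_nonneg (Nat.cast_nonneg _) _
    calc min δ 1 / 4 / ((n₀ : ℝ) + 1) ^ 6 * (n : ℝ) ^ (6 - ε) ≤ min δ 1 / 4 * (n : ℝ) ^ (6 - ε) :=
          mul_le_mul_of_nonneg_right h3 h4
      _ ≤ min δ 1 / 4 * (n : ℝ) ^ (6 - min ε 1) :=
          mul_le_mul_of_nonneg_left h2 (by positivity)
      _ ≤ _ := h1

end Pool.Agent.Helper97.DM
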